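import Pool.Agent.Lib.P4a177s.Chart
import Pool.Agent.Lib.P4a177h.RegMul

/-!
# The affine forms along the tori

The torus through the points `x θ` of `Arr.exists_chart`: along it, the affine forms of the
arrangement have the winding numbers `wt`, up to bounded potentials.
-/

set_option autoImplicit false

namespace P4a177s

open P4a177h Function
open scoped Real

/-- The winding number of `l_k` in the direction `l` on the torus at the vertex `q`. -/
def wt {m D : ℕ} (q : Fin (m + 1) → Fin D) (k : Fin D) (l : Fin m) : ℤ :=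
  (if k = q l.succ then 1 else 0) - (if k = q 0 then 1 else 0)

/-! ### The torus of a family of points -/

/-- The ring homomorphism given by a complex point of the hypersurface. -/
noncomputable def Arr.pt {n D : ℕ} {A : Arr n D} {N : ℕ} {y : Fin n → ℂ} (h : A.On N y) :
    A.CoordRing N →+* ℂ :=
  Ideal.Quotient.lift (Ideal.span {A.eqn N})
    (MvPolynomial.aeval y : MvPolynomial (Fin n) ℚ →ₐ[ℚ] ℂ).toRingHom (by
      intro a ha
      obtain ⟨b, rfl⟩ := Ideal.mem_span_singleton'.1 ha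
      have h1 : (MvPolynomial.aeval y : MvPolynomial (Fin n) ℚ →ₐ[ℚ] ℂ) (A.eqn N) = 0 :=
        Arr.on_of_aeval (A := A) |>.2 h
      show (MvPolynomial.aeval y : MvPolynomial (Fin n) ℚ →ₐ[ℚ] ℂ) (b * A.eqn N) = 0
      rw [map_mul, h1, mul_zero])

theorem Arr.pt_mk {n D : ℕ} {A : Arr n D} {N : ℕ} {y : Fin n → ℂ} (h : A.On N y)
    (P : MvPolynomial (Fin n) ℚ) :
    Arr.pt h (Ideal.Quotient.mk _ P) = MvPolynomial.aeval y P := rfl

theorem Arr.pt_form {n D : ℕ} {A : Arr n D} {N : ℕ} {y : Fin n → ℂ} (h : A.On N y) (k : Fin D) :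
    Arr.pt h (A.form k (A.coord N)) = A.form k y := by
  rw [A.form_coord, Arr.pt_mk, A.aeval_form]

/-- The torus given by a periodic family of complex points of the hypersurface. -/
noncomputable def Arr.torus {n D m : ℕ} {A : Arr n D} {N : ℕ} {x : (Fin m → ℝ) → Fin n → ℂ}
    (hc : ContDiff ℝ 2 x) (hp : ∀ θ l, x (update θ l (θ l + 2 * π)) = x θ)
    (ho : ∀ θ, A.On N (x θ)) : Torus m (A.CoordRing N) where
  emb θ := Arr.pt (ho θ)
  contDiff f := by
    obtain ⟨P, rfl⟩ := Ideal.Quotient.mk_surjective f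
    have h1 : (fun θ => Arr.pt (ho θ) (Ideal.Quotient.mk _ P)) =
        fun θ => MvPolynomial.aeval (x θ) P := by
      funext θ
      exact Arr.pt_mk (ho θ) P
    rw [h1]
    induction P using MvPolynomial.induction_on with
    | C a =>
      simp only [MvPolynomial.aeval_C]
      exact contDiff_const
    | add p q hp' hq' =>
      simp only [map_add]
      exact (hp' (by funext θ; exact Arr.pt_mk (ho θ) p)).add
        (hq' (by funext θ; exact Arr.pt_mk (ho θ) q))
    | mul_X p j hp' =>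
      simp only [map_mul, MvPolynomial.aeval_X]
      exact (hp' (by funext θ; exact Arr.pt_mk (ho θ) p)).mul (contDiff_pi.1 hc j)
  periodic f θ l := by
    obtain ⟨P, rfl⟩ := Ideal.Quotient.mk_surjective f
    rw [Arr.pt_mk, Arr.pt_mk, hp]

theorem Arr.torus_L {n D m : ℕ} {A : Arr n D} {N : ℕ} {x : (Fin m → ℝ) → Fin n → ℂ}
    (hc : ContDiff ℝ 2 x) (hp : ∀ θ l, x (update θ l (θ l + 2 * π)) = x θ)
    (ho : ∀ θ, A.On N (x θ)) (k : Fin D) (θ : Fin m → ℝ) :
    (Arr.torus hc hp ho).emb θ (Arr.L (A.coord_on N) k : A.CoordRing N) = A.form k (x θ) :=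
  Arr.pt_form (ho θ) k

/-! ### Logarithmic derivatives -/

theorem dlogRow_one' {d : ℕ} {R : Type*} [CommRing R] (γ : Torus d R) (θ : Fin d → ℝ) :
    dlogRow γ (1 : Rˣ) θ = 0 := by
  funext l
  simp [dlogRow]

theorem dlogRow_prod' {d : ℕ} {R : Type*} [CommRing R] (γ : Torus d R) {ι : Type*}
    (s : Finset ι) (a : ι → Rˣ) (θ : Fin d → ℝ) :
    dlogRow γ (∏ k ∈ s, a k) θ = ∑ k ∈ s, dlogRow γ (a k) θ := by
  classical
  induction s using Finset.induction_on with
  | empty => simp [dlogRow_one']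
  | insert j s hj ih => rw [Finset.prod_insert hj, Finset.sum_insert hj, dlogRow_mul, ih]

theorem dlogRow_natCast {d : ℕ} {R : Type*} [CommRing R] (γ : Torus d R) (u : Rˣ) (N : ℕ)
    (hu : (u : R) = N) (θ : Fin d → ℝ) : dlogRow γ u θ = 0 := by
  funext l
  unfold dlogRow
  simp [hu]

/-- The sum of the logarithmic derivatives of the affine forms is zero. -/
theorem Arr.sum_dlogRow {n D m : ℕ} {A : Arr n D} {N : ℕ} (γ : Torus m (A.CoordRing N))
    (θ : Fin m → ℝ) : ∑ k, dlogRow γ (Arr.L (A.coord_on N) k) θ = 0 := by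
  rw [← dlogRow_prod']
  set u : (A.CoordRing N)ˣ := (∏ k, Arr.L (A.coord_on N) k)⁻¹ with hu
  have h1 : (u : A.CoordRing N) = (N : A.CoordRing N) := by
    have h2 : (N : A.CoordRing N) * ((∏ k, Arr.L (A.coord_on N) k : (A.CoordRing N)ˣ) :
        A.CoordRing N) = 1 := by
      rw [Units.coe_prod]
      exact A.coord_on N
    rw [hu, ← Units.mul_left_inj (∏ k, Arr.L (A.coord_on N) k), h2, Units.inv_mul]
  have h3 := dlogRow_mul γ (∏ k, Arr.L (A.coord_on N) k) u θ
  rw [hu, mul_inv_cancel, dlogRow_one', ← hu, dlogRow_natCast γ u N h1, add_zero] at h3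
  exact h3.symm

/-- the logarithm of a function close to a nonzero constant -/
theorem log_facts {m : ℕ} {w : ℂ} (hw : w ≠ 0) {f : (Fin m → ℝ) → ℂ} (hf : ContDiff ℝ 2 f)
    (hn : ∀ θ, ‖f θ - w‖ ≤ ‖w‖ / 2) :
    (∀ θ, f θ ≠ 0) ∧
    ContDiff ℝ 2 (fun θ => -Complex.I * Complex.log (f θ / w)) ∧
    (∀ θ v, fderiv ℝ (fun θ => -Complex.I * Complex.log (f θ / w)) θ v =
      -Complex.I * (fderiv ℝ f θ v / f θ)) ∧
    (∀ θ, |Real.log ‖f θ‖| ≤ |Real.log ‖w‖| + Real.log 2) ∧
    (∀ θ, ‖w‖ / 2 ≤ ‖f θ‖) := by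
  have hw' : 0 < ‖w‖ := norm_pos_iff.2 hw
  have hlow : ∀ θ, ‖w‖ / 2 ≤ ‖f θ‖ := by
    intro θ
    have h1 : ‖w‖ ≤ ‖f θ‖ + ‖f θ - w‖ := by
      have := norm_sub_le (f θ) (f θ - w)
      simpa using this
    have h2 := hn θ
    linarith
  have hup : ∀ θ, ‖f θ‖ ≤ 2 * ‖w‖ := by
    intro θ
    have h1 : ‖f θ‖ ≤ ‖w‖ + ‖f θ - w‖ := by
      have := norm_add_le w (f θ - w)
      simpa using this
    have h2 := hn θ
    linarith
  have hne : ∀ θ, f θ ≠ 0 := by
    intro θ h0
    have := hlow θ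
    rw [h0, norm_zero] at this
    linarith
  have hslit : ∀ θ, f θ / w ∈ Complex.slitPlane := by
    intro θ
    have h1 : ‖f θ / w - 1‖ ≤ 1 / 2 := by
      have h2 : f θ / w - 1 = (f θ - w) / w := by field_simp
      rw [h2, norm_div, div_le_iff₀ hw']
      have := hn θ
      linarith
    left
    have h3 : |(f θ / w - 1).re| ≤ 1 / 2 := (Complex.abs_re_le_norm _).trans h1
    rw [Complex.sub_re, Complex.one_re] at h3
    have h4 := (abs_le.1 h3).1
    linarith
  refine ⟨hne, ?_, ?_, ?_, hlow⟩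
  · refine contDiff_const.mul ?_
    rw [contDiff_iff_contDiffAt]
    intro θ
    have h1 : ContDiffAt ℝ 2 (fun θ => f θ / w) θ := by
      have h5 : ContDiff ℝ 2 (fun θ => f θ / w) := by
        simp only [div_eq_mul_inv]
        exact hf.mul contDiff_const
      exact h5.contDiffAt
    have h2 : ContDiffAt ℝ 2 Complex.log (f θ / w) :=
      ((Complex.contDiffAt_log (hslit θ)).restrict_scalars ℝ)
    exact h2.comp θ h1
  · intro θ v
    have hd : HasFDerivAt f (fderiv ℝ f θ) θ :=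
      ((hf.differentiable (by norm_num)) θ).hasFDerivAt
    have h1 : HasFDerivAt (fun θ => f θ / w) (w⁻¹ • fderiv ℝ f θ) θ := by
      have := hd.const_mul (w⁻¹)
      refine this.congr_of_eventuallyEq ?_
      exact Filter.Eventually.of_forall fun θ => by
        show f θ / w = w⁻¹ * f θ
        rw [div_eq_mul_inv, mul_comm]
    have h2 : HasDerivAt Complex.log (f θ / w)⁻¹ (f θ / w) := Complex.hasDerivAt_log (hslit θ)
    have h3 := (h2.hasFDerivAt.restrictScalars ℝ).comp θ h1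
    have h4 := h3.const_mul (-Complex.I)
    have h5 : (fun θ => -Complex.I * Complex.log (f θ / w)) =
        fun θ => -Complex.I * (Complex.log ∘ fun θ => f θ / w) θ := rfl
    rw [h5, h4.fderiv]
    have := hne θ
    simp
    field_simp
  · intro θ
    have hf0 : 0 < ‖f θ‖ := norm_pos_iff.2 (hne θ)
    have h1 : Real.log ‖f θ‖ ≤ Real.log 2 + Real.log ‖w‖ := by
      rw [← Real.log_mul two_ne_zero hw'.ne']
      exact Real.log_le_log hf0 (hup θ)
    have h2 : Real.log ‖w‖ - Real.log 2 ≤ Real.log ‖f θ‖ := by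
      rw [← Real.log_div hw'.ne' two_ne_zero]
      exact Real.log_le_log (by positivity) (hlow θ)
    rw [abs_le]
    have h3 := neg_abs_le (Real.log ‖w‖)
    have h4 := le_abs_self (Real.log ‖w‖)
    constructor <;> linarith

theorem fderiv_circle {m : ℕ} (r : ℝ) (hr : 0 < r) (i l : Fin m) (θ : Fin m → ℝ) :
    -Complex.I * (fderiv ℝ (fun θ : Fin m → ℝ => (r : ℂ) * Complex.exp (θ i * Complex.I)) θ
      (Pi.single l 1) / ((r : ℂ) * Complex.exp (θ i * Complex.I))) = if i = l then 1 else 0 := by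
  have h1 : HasFDerivAt (fun θ : Fin m → ℝ => θ i)
      (ContinuousLinearMap.proj (R := ℝ) (φ := fun _ : Fin m => ℝ) i) θ :=
    (ContinuousLinearMap.proj (R := ℝ) (φ := fun _ : Fin m => ℝ) i).hasFDerivAt
  have h2 : HasFDerivAt (fun θ : Fin m → ℝ => ((θ i : ℝ) : ℂ))
      (Complex.ofRealCLM.comp (ContinuousLinearMap.proj (R := ℝ) (φ := fun _ : Fin m => ℝ) i)) θ :=
    Complex.ofRealCLM.hasFDerivAt.comp θ h1
  have h3 := (h2.mul_const Complex.I).cexp.const_mul (r : ℂ)
  rw [h3.fderiv]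
  have hr' : (r : ℂ) ≠ 0 := by exact_mod_cast hr.ne'
  have he := Complex.exp_ne_zero ((θ i : ℂ) * Complex.I)
  simp only [_root_.smul_apply, smul_eq_mul, ContinuousLinearMap.comp_apply,
    ContinuousLinearMap.proj_apply, Complex.ofRealCLM_apply]
  by_cases hil : i = l
  · subst hil
    rw [if_pos rfl, Pi.single_eq_same]
    field_simp
    simp [Complex.I_sq]
  · rw [if_neg hil, Pi.single_eq_of_ne hil]
    simp

theorem Arr.exists_torus {m D : ℕ} (A : Arr (m + 1) D) (q : Fin (m + 1) → Fin D)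
    (hq : A.lam q ≠ 0) :
    ∃ (C : ℝ) (N₀ : ℕ), ∀ N : ℕ, N₀ ≤ N →
      ∃ (γ : Torus m (A.CoordRing N)) (Ψ : Fin D → (Fin m → ℝ) → ℂ),
        (∀ k, ContDiff ℝ 2 (Ψ k)) ∧
        (∀ k θ l, Ψ k (update θ l (θ l + 2 * π)) = Ψ k θ) ∧
        (∀ k θ l, ‖fderiv ℝ (Ψ k) θ (Pi.single l 1)‖ ≤ C) ∧
        (∀ k θ, |Real.log ‖γ.emb θ (Arr.L (A.coord_on N) k : A.CoordRing N)‖ +
          (if k = q 0 then Real.log N else 0)| ≤ C) ∧
        (∀ k θ l, dlogRow γ (Arr.L (A.coord_on N) k) θ l =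
          (wt q k l : ℂ) + fderiv ℝ (Ψ k) θ (Pi.single l 1)) := by
  classical
  obtain ⟨r, C₀, w, N₀, hr, hN₀, hw, hch⟩ := A.exists_chart q hq
  have hqi : Injective q := A.injective_of_lam hq
  -- the constants
  set B : Fin D → ℝ := fun k => |Real.log r| + |Real.log ‖w k‖| + Real.log 2 with hB
  set E : Fin D → ℝ := fun k => |C₀| / (‖w k‖ / 2) with hE
  have hlog2 : 0 ≤ Real.log 2 := Real.log_nonneg (by norm_num)
  have hB0 : ∀ k, 0 ≤ B k := fun k => by
    simp only [hB]
    positivity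
  have hE0 : ∀ k, 0 ≤ E k := fun k => by
    simp only [hE]
    positivity
  refine ⟨∑ k, B k + ∑ k, E k, N₀, fun N hN => ?_⟩
  obtain ⟨x, hxc, hxp, hxo, hxq, hxn, hxd⟩ := hch N hN
  have hN0 : (0 : ℝ) < N := by exact_mod_cast lt_of_lt_of_le hN₀ hN
  set γ : Torus m (A.CoordRing N) := Arr.torus hxc hxp hxo with hγ
  have hemb : ∀ k θ, γ.emb θ (Arr.L (A.coord_on N) k : A.CoordRing N) = A.form k (x θ) :=
    fun k θ => Arr.torus_L hxc hxp hxo k θ
  have hlc : ∀ k, ContDiff ℝ 2 (fun θ => A.form k (x θ)) := by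
    intro k
    have := γ.contDiff (Arr.L (A.coord_on N) k : A.CoordRing N)
    simpa only [hemb] using this
  have hfacts := fun (k : Fin D) (hk : ∀ i, q i ≠ k) => log_facts (hw k hk) (hlc k) (hxn k hk)
  -- the potentials
  set Ψ1 : Fin D → (Fin m → ℝ) → ℂ := fun k =>
    if ∀ i, q i ≠ k then fun θ => -Complex.I * Complex.log (A.form k (x θ) / w k)
    else fun _ => 0 with hΨ1
  set Ψ : Fin D → (Fin m → ℝ) → ℂ := fun k =>
    if k = q 0 then fun θ => -∑ k' ∈ Finset.univ.erase (q 0), Ψ1 k' θ else Ψ1 k with hΨ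
  have hΨ1c : ∀ k, ContDiff ℝ 2 (Ψ1 k) := by
    intro k
    simp only [hΨ1]
    split_ifs with hk
    · exact (hfacts k hk).2.1
    · exact contDiff_const
  have hΨ1p : ∀ k θ l, Ψ1 k (update θ l (θ l + 2 * π)) = Ψ1 k θ := by
    intro k θ l
    simp only [hΨ1]
    split_ifs with hk
    · show -Complex.I * Complex.log (A.form k (x (update θ l (θ l + 2 * π))) / w k) = _
      rw [hxp]
    · rfl
  have hΨ1d : ∀ k θ l, ‖fderiv ℝ (Ψ1 k) θ (Pi.single l 1)‖ ≤ E k := by
    intro k θ l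
    by_cases hk : ∀ i, q i ≠ k
    · have h1 : Ψ1 k = fun θ => -Complex.I * Complex.log (A.form k (x θ) / w k) := by
        simp only [hΨ1, if_pos hk]
      rw [h1, (hfacts k hk).2.2.1 θ, norm_mul, norm_neg, Complex.norm_I, one_mul, norm_div]
      have h2 := hxd k hk θ l
      have h3 := (hfacts k hk).2.2.2.2 θ
      have h4 : 0 < ‖w k‖ / 2 := by
        have := norm_pos_iff.2 (hw k hk)
        positivity
      simp only [hE]
      exact div_le_div₀ (abs_nonneg _) (h2.trans (le_abs_self _)) h4 h3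
    · have h1 : Ψ1 k = fun θ => 0 := by
        simp only [hΨ1, if_neg hk]
      rw [h1]
      simpa using hE0 k
  have hsumfd : ∀ θ l, fderiv ℝ (fun θ => -∑ k' ∈ Finset.univ.erase (q 0), Ψ1 k' θ) θ
      (Pi.single l 1) = -∑ k' ∈ Finset.univ.erase (q 0), fderiv ℝ (Ψ1 k') θ (Pi.single l 1) := by
    intro θ l
    have h1 : HasFDerivAt (fun θ => -∑ k' ∈ Finset.univ.erase (q 0), Ψ1 k' θ)
        (-∑ k' ∈ Finset.univ.erase (q 0), fderiv ℝ (Ψ1 k') θ) θ := by
      refine HasFDerivAt.neg ?_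
      refine HasFDerivAt.fun_sum fun k' _ => ?_
      exact (((hΨ1c k').differentiable (by norm_num)) θ).hasFDerivAt
    rw [h1.fderiv]
    simp
  -- the forms in the range of `q`
  have hnorm : ∀ i θ, ‖A.form (q (Fin.succ i)) (x θ)‖ = r := by
    intro i θ
    rw [hxq θ i, norm_mul, Complex.norm_exp_ofReal_mul_I, mul_one, Complex.norm_real,
      Real.norm_of_nonneg hr.le]
  have hcase : ∀ k, k ≠ q 0 → (¬ ∀ i, q i ≠ k) → ∃ i : Fin m, k = q i.succ := by
    intro k hk0 hk
    push Not at hk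
    obtain ⟨i, hi⟩ := hk
    rcases Fin.eq_zero_or_eq_succ i with h | ⟨j, h⟩
    · exact absurd (h ▸ hi).symm hk0
    · exact ⟨j, by rw [← hi, h]⟩
  have hlogB : ∀ k, k ≠ q 0 → ∀ θ, |Real.log ‖A.form k (x θ)‖| ≤ B k := by
    intro k hk0 θ
    by_cases hk : ∀ i, q i ≠ k
    · have h1 := (hfacts k hk).2.2.2.1 θ
      simp only [hB]
      have := abs_nonneg (Real.log r)
      linarith
    · obtain ⟨i, rfl⟩ := hcase k hk0 hk
      rw [hnorm]
      simp only [hB]
      have := abs_nonneg (Real.log ‖w (q i.succ)‖)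
      linarith
  have hdlog : ∀ k, k ≠ q 0 → ∀ θ l, dlogRow γ (Arr.L (A.coord_on N) k) θ l =
      (wt q k l : ℂ) + fderiv ℝ (Ψ1 k) θ (Pi.single l 1) := by
    intro k hk0 θ l
    have h0 : dlogRow γ (Arr.L (A.coord_on N) k) θ l =
        -Complex.I * (fderiv ℝ (fun θ => A.form k (x θ)) θ (Pi.single l 1) / A.form k (x θ)) := by
      unfold dlogRow
      simp only [hemb]
    by_cases hk : ∀ i, q i ≠ k
    · have h1 : Ψ1 k = fun θ => -Complex.I * Complex.log (A.form k (x θ) / w k) := by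
        simp only [hΨ1, if_pos hk]
      have h2 : wt q k l = 0 := by
        unfold wt
        rw [if_neg fun h => hk l.succ h.symm, if_neg hk0, sub_zero]
      rw [h1, (hfacts k hk).2.2.1 θ, h0, h2, Int.cast_zero, zero_add]
    · obtain ⟨i, rfl⟩ := hcase k hk0 hk
      have h1 : Ψ1 (q i.succ) = fun θ => 0 := by
        simp only [hΨ1, if_neg hk]
      have h2 : wt q (q i.succ) l = if i = l then 1 else 0 := by
        unfold wt
        rw [if_neg hk0, sub_zero]
        by_cases hil : i = l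
        · rw [if_pos hil, if_pos (by rw [hil])]
        · rw [if_neg hil, if_neg fun h => hil (Fin.succ_injective _ (hqi h))]
      have h3 : (fun θ => A.form (q i.succ) (x θ)) =
          fun θ : Fin m → ℝ => (r : ℂ) * Complex.exp (θ i * Complex.I) := by
        funext θ
        exact hxq θ i
      have h4 := fderiv_circle r hr i l θ
      rw [h0, h3, hxq θ i, h4, h1, h2]
      split_ifs <;> simp
  refine ⟨γ, Ψ, ?_, ?_, ?_, ?_, ?_⟩
  · intro k
    simp only [hΨ]
    split_ifs with hk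
    · exact (ContDiff.sum fun k' _ => hΨ1c k').neg
    · exact hΨ1c k
  · intro k θ l
    simp only [hΨ]
    split_ifs with hk
    · exact congrArg Neg.neg (Finset.sum_congr rfl fun k' _ => hΨ1p k' θ l)
    · exact hΨ1p k θ l
  · intro k θ l
    have hBs : 0 ≤ ∑ k, B k := Finset.sum_nonneg fun k _ => hB0 k
    simp only [hΨ]
    split_ifs with hk
    · rw [hsumfd, norm_neg]
      calc ‖∑ k' ∈ Finset.univ.erase (q 0), fderiv ℝ (Ψ1 k') θ (Pi.single l 1)‖
          ≤ ∑ k' ∈ Finset.univ.erase (q 0), ‖fderiv ℝ (Ψ1 k') θ (Pi.single l 1)‖ :=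
            norm_sum_le _ _
        _ ≤ ∑ k' ∈ Finset.univ.erase (q 0), E k' := Finset.sum_le_sum fun k' _ => hΨ1d k' θ l
        _ ≤ ∑ k', E k' := Finset.sum_le_sum_of_subset_of_nonneg (Finset.erase_subset _ _)
            fun k' _ _ => hE0 k'
        _ ≤ _ := by linarith
    · have h1 : E k ≤ ∑ k', E k' := Finset.single_le_sum (fun k' _ => hE0 k') (Finset.mem_univ k)
      have h2 := hΨ1d k θ l
      linarith
  · intro k θ
    have hEs : 0 ≤ ∑ k, E k := Finset.sum_nonneg fun k _ => hE0 k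
    rw [hemb]
    by_cases hk : k = q 0
    · rw [if_pos hk, hk]
      have hne : ∀ k, ‖A.form k (x θ)‖ ≠ 0 := by
        intro k
        rw [← hemb]
        exact norm_ne_zero_iff.2 (emb_ne_zero γ _ θ)
      have h1 : (N : ℝ) * ∏ k, ‖A.form k (x θ)‖ = 1 := by
        have h2 := congrArg norm (show (N : ℂ) * ∏ k, A.form k (x θ) = 1 from hxo θ)
        rw [norm_mul, Complex.norm_natCast, norm_prod, norm_one] at h2
        exact h2
      have h3 : Real.log N + ∑ k, Real.log ‖A.form k (x θ)‖ = 0 := by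
        rw [← Real.log_prod fun k _ => hne k, ← Real.log_mul hN0.ne'
          (Finset.prod_ne_zero_iff.2 fun k _ => hne k), h1, Real.log_one]
      rw [← Finset.add_sum_erase Finset.univ _ (Finset.mem_univ (q 0))] at h3
      have h4 : Real.log ‖A.form (q 0) (x θ)‖ + Real.log N =
          -∑ k ∈ Finset.univ.erase (q 0), Real.log ‖A.form k (x θ)‖ := by linarith
      rw [h4, abs_neg]
      calc |∑ k ∈ Finset.univ.erase (q 0), Real.log ‖A.form k (x θ)‖|
          ≤ ∑ k ∈ Finset.univ.erase (q 0), |Real.log ‖A.form k (x θ)‖| :=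
            Finset.abs_sum_le_sum_abs _ _
        _ ≤ ∑ k ∈ Finset.univ.erase (q 0), B k := Finset.sum_le_sum fun k hk =>
            hlogB k (Finset.ne_of_mem_erase hk) θ
        _ ≤ ∑ k, B k := Finset.sum_le_sum_of_subset_of_nonneg (Finset.erase_subset _ _)
            fun k' _ _ => hB0 k'
        _ ≤ _ := by linarith
    · rw [if_neg hk, add_zero]
      have h1 : B k ≤ ∑ k', B k' := Finset.single_le_sum (fun k' _ => hB0 k') (Finset.mem_univ k)
      have h2 := hlogB k hk θ
      linarith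
  · intro k θ l
    simp only [hΨ]
    split_ifs with hk
    · rw [hsumfd, hk]
      have h1 := congrFun (Arr.sum_dlogRow γ θ) l
      rw [Finset.sum_apply, Pi.zero_apply,
        ← Finset.add_sum_erase Finset.univ _ (Finset.mem_univ (q 0))] at h1
      have h2 : ∑ k ∈ Finset.univ.erase (q 0), dlogRow γ (Arr.L (A.coord_on N) k) θ l =
          ∑ k ∈ Finset.univ.erase (q 0), ((wt q k l : ℂ) + fderiv ℝ (Ψ1 k) θ (Pi.single l 1)) :=
        Finset.sum_congr rfl fun k hk => hdlog k (Finset.ne_of_mem_erase hk) θ l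
      rw [h2, Finset.sum_add_distrib] at h1
      have h3 : ∑ k, wt q k l = 0 := by
        unfold wt
        rw [Finset.sum_sub_distrib, Finset.sum_ite_eq' Finset.univ, Finset.sum_ite_eq' Finset.univ]
        simp
      rw [← Finset.add_sum_erase Finset.univ _ (Finset.mem_univ (q 0))] at h3
      have h4 : (wt q (q 0) l : ℂ) + ∑ k ∈ Finset.univ.erase (q 0), (wt q k l : ℂ) = 0 := by
        exact_mod_cast h3
      linear_combination h1 - h4
    · exact hdlog k hk θ l

end P4a177s
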