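import Pool.Agent.Lib.P4a177h.Unram

/-!
# Symbols attached to almost vanishing sums are unramified

MODULE P4a177s.UnramSum. PROOF SKETCH (use the calculus of `Pool/Agent/Lib/P4a177h/Unram.lean`:
`symb_mul`, `symb_inv`, `symb_pow`, `symb_add_one` (entries `i ≠ j` with sum `1`),
`unramified_symb`, ...).
Fix `v` and say that `a : Fin n → Kˣ` is good if `Unramified v (symb a)`. The unramified elements
form a subgroup `H` of `MilnorK n K`, and `m • x ∈ H`, `0 < m`, implies `x ∈ H`; every equality of
symbols below is used only up to torsion.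
(P1) good if all entries have valuation `1`; (PU) good if `v (a i - 1) < 1` for some `i`: both are
`unramified_symb`. (P2) good if `a i + a j = 1`, `i ≠ j` (the symbol is zero).
(P3) good if `a i = -1` (twice the symbol is zero) or `a i = 1`; hence `update a i (-x)` is good iff
`update a i x` is good.
(P4) good if `a i = -a j` or `a i = a j`, `i ≠ j`: for `x = a i ≠ 1` use
`-x = (1 - x) / (1 - x⁻¹)` and (P2) twice (all pairs of positions are allowed in `symb_add_one`).
Hence goodness does not change if the entry `a i` is multiplied by the entry `a j`, `i ≠ j`.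
(GS) good if `∑ i ∈ B, a i = 1` for a nonempty finset `B` of positions. Induction on `B.card`: for
`card = 1` the entry is `1`; for `card = 2` (P2); otherwise take `i ≠ j` in `B`, `s = a i + a j`. If
`s = 0` use (P4). Else the symbol with entries `a i / s`, `a j / s` at `i`, `j` is zero by (P2);
expanding it with (P4) (`{.. s .. s ..}` is good) one gets that `a` is good iff the sum of the symbols
`(a with a i replaced by s)` and `(a with a j replaced by s)` is in `H`, and both are good by
induction (finset `B.erase j`, resp. `B.erase i`).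
MAIN CLAIM: if `v (z i) ≤ 1` for all `i ∈ S` and `v (1 + ∑ i ∈ S, z i) < 1` then `z` is good: let `B`
be the set of the `i ∈ S` with `v (z i) = 1`; it is nonempty and `P = -∑ i ∈ B, z i` satisfies
`v (P - 1) < 1`. By (GS) the symbol with entries `-z i / P` (`i ∈ B`), `z i` (`i ∉ B`) is good, and
by (PU), (P3) so is `z` (change the entries one at a time).
THEOREM: let `b ∈ S` with `v (z b)` maximal (`S` is nonempty in both cases). If `v (z b) ≤ 1` the
main claim applies. If `v (z b) > 1`, then `v (1 + ∑) < v (z b)`; let `w b = (z b)⁻¹`,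
`w k = z k / z b` for `k ∈ S`, `k ≠ b`, `w k = z k` for `k ∉ S`. Then `1 + ∑ i ∈ S, w i =
(1 + ∑ i ∈ S, z i) / z b`, the main claim applies to `w`, and `z` is good iff `w` is good by (P4).
-/

set_option autoImplicit false

namespace P4a177s

open P4a177h Function

section Aux

variable {n : ℕ} {K : Type*} [Field K] (v : Valuation K (WithZero (Multiplicative ℤ)))

theorem us_zero : Unramified v (0 : MilnorK n K) :=
  ⟨1, one_pos, by rw [smul_zero]; exact zero_mem _⟩

theorem us_add {x y : MilnorK n K} (hx : Unramified v x) (hy : Unramified v y) :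
    Unramified v (x + y) := by
  obtain ⟨m, hm, hmx⟩ := hx
  obtain ⟨l, hl, hly⟩ := hy
  refine ⟨m * l, Nat.mul_pos hm hl, ?_⟩
  rw [nsmul_add]
  refine add_mem ?_ ?_
  · rw [mul_comm, mul_smul]
    exact nsmul_mem hmx l
  · rw [mul_smul]
    exact nsmul_mem hly m

theorem us_neg {x : MilnorK n K} (hx : Unramified v x) : Unramified v (-x) := by
  obtain ⟨m, hm, hmx⟩ := hx
  refine ⟨m, hm, ?_⟩
  rw [neg_nsmul]
  exact neg_mem hmx

theorem us_neg_iff {x : MilnorK n K} : Unramified v (-x) ↔ Unramified v x :=
  ⟨fun h => by simpa using us_neg v h, us_neg v⟩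

theorem us_add_iff {x y : MilnorK n K} (hy : Unramified v y) :
    Unramified v (x + y) ↔ Unramified v x :=
  ⟨fun h => by simpa using us_add v h (us_neg v hy), fun h => us_add v h hy⟩

theorem us_nsmul {x : MilnorK n K} {m : ℕ} (hm : 0 < m) (hx : Unramified v (m • x)) :
    Unramified v x := by
  obtain ⟨l, hl, hlx⟩ := hx
  refine ⟨l * m, Nat.mul_pos hl hm, ?_⟩
  rw [mul_smul]
  exact hlx

theorem us_neg_one (a : Fin n → Kˣ) (i : Fin n) : Unramified v (symb (update a i (-1))) := by
  refine us_nsmul v (m := 2) two_pos ?_
  rw [← symb_pow, neg_one_sq, symb_one]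
  exact us_zero v

theorem us_upd_neg (a : Fin n → Kˣ) (i : Fin n) (x : Kˣ) :
    Unramified v (symb (update a i (-x))) ↔ Unramified v (symb (update a i x)) := by
  rw [show -x = x * (-1) by simp, symb_mul]
  exact us_add_iff v (us_neg_one v a i)

theorem us_two_zero (a : Fin n → Kˣ) {i j : Fin n} (hij : i ≠ j) (x y : Kˣ)
    (h : (x : K) + y = 1) : two a i j x y = 0 := by
  apply symb_add_one _ hij
  rw [update_of_ne hij, update_self, update_self]
  exact h

theorem us_two_neg (a : Fin n → Kˣ) {i j : Fin n} (hij : i ≠ j) (x : Kˣ) :
    two a i j x (-x) = 0 := by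
  by_cases hx : x = 1
  · rw [hx, two_one_left a hij]
  · have hx1 : (x : K) ≠ 1 := fun h => hx (Units.ext h)
    have hx0 : (x : K) ≠ 0 := x.ne_zero
    have h2 : (1 : K) - x ≠ 0 := sub_ne_zero.2 hx1.symm
    have h3 : (1 : K) - (x : K)⁻¹ ≠ 0 := by
      intro h
      apply hx1
      have h4 : (x : K)⁻¹ = 1 := (sub_eq_zero.1 h).symm
      exact inv_eq_one.1 h4
    have h5 : -x = Units.mk0 (1 - (x : K)) h2 * (Units.mk0 (1 - (x : K)⁻¹) h3)⁻¹ := by
      apply Units.ext
      rw [Units.val_neg, Units.val_mul, Units.val_inv_eq_inv_val, Units.val_mk0, Units.val_mk0,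
        eq_mul_inv_iff_mul_eq₀ h3]
      field_simp
      ring
    rw [h5, two_mul_right, two_inv_right, us_two_zero a hij x _ (by rw [Units.val_mk0]; ring)]
    have h6 : two a i j x (Units.mk0 (1 - (x : K)⁻¹) h3) = 0 := by
      have h7 : two a i j x⁻¹ (Units.mk0 (1 - (x : K)⁻¹) h3) = 0 :=
        us_two_zero a hij x⁻¹ _ (by
          rw [Units.val_mk0, Units.val_inv_eq_inv_val]; ring)
      rw [two_inv_left a hij, neg_eq_zero] at h7
      exact h7
    rw [h6, neg_zero, add_zero]

theorem us_two_self (a : Fin n → Kˣ) {i j : Fin n} (hij : i ≠ j) (x : Kˣ) :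
    Unramified v (two a i j x x) := by
  have h : x = (-1) * (-x) := by simp
  have h2 : two a i j x x = two a i j x (-1) + two a i j x (-x) := by
    conv_lhs => rw [show two a i j x x = two a i j x ((-1) * (-x)) by rw [← h]]
    exact two_mul_right _ _ _ _ _ _
  rw [h2, us_two_neg a hij, add_zero]
  exact us_neg_one v _ j

theorem us_eq_entries (a : Fin n → Kˣ) {i j : Fin n} (hij : i ≠ j) (h : a i = a j) :
    Unramified v (symb a) := by
  have h1 : symb a = two a i j (a j) (a j) := by
    unfold two
    rw [← h, update_eq_self, h, update_eq_self]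
  rw [h1]
  exact us_two_self v a hij _

theorem us_neg_entries (a : Fin n → Kˣ) {i j : Fin n} (hij : i ≠ j) (h : a j = -a i) :
    Unramified v (symb a) := by
  have h1 : symb a = two a i j (a i) (-(a i)) := by
    unfold two
    rw [update_eq_self, ← h, update_eq_self]
  rw [h1, us_two_neg a hij]
  exact us_zero v

theorem us_entry_one (a : Fin n → Kˣ) (i : Fin n) (h : a i = 1) : Unramified v (symb a) := by
  rw [← update_eq_self i a, h, symb_one]
  exact us_zero v

/-- (GS) -/
theorem us_gs : ∀ (m : ℕ) (B : Finset (Fin n)) (a : Fin n → Kˣ), B.card = m + 1 →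
    (∑ i ∈ B, (a i : K)) = 1 → Unramified v (symb a) := by
  intro m
  induction m with
  | zero =>
    intro B a hB hs
    obtain ⟨i, rfl⟩ := Finset.card_eq_one.mp (by simpa using hB)
    rw [Finset.sum_singleton] at hs
    exact us_entry_one v a i (Units.ext hs)
  | succ m ih =>
    intro B a hB hs
    obtain ⟨i, hi, j, hj, hij⟩ := Finset.one_lt_card.mp (by omega : 1 < B.card)
    by_cases hs0 : (a i : K) + a j = 0
    · refine us_neg_entries v a hij ?_
      apply Units.ext
      rw [Units.val_neg]
      exact eq_neg_of_add_eq_zero_right hs0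
    · set s : Kˣ := Units.mk0 _ hs0 with hsdef
      have hsv : (s : K) = (a i : K) + a j := rfl
      have hz : two a i j (a i * s⁻¹) (a j * s⁻¹) = 0 := by
        apply us_two_zero a hij
        rw [Units.val_mul, Units.val_mul, ← add_mul, ← hsv, Units.mul_inv]
      rw [two_mul_left a hij, two_mul_right, two_mul_right, two_inv_right, two_inv_left a hij,
        two_inv_left a hij, two_inv_right] at hz
      have h1 : two a i j (a i) (a j) = symb a := by
        unfold two
        rw [update_eq_self, update_eq_self]
      have h2 : two a i j (a i) s = symb (update a j s) := by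
        unfold two
        rw [update_eq_self]
      have h3 : two a i j s (a j) = symb (update a i s) := by
        rw [two_comm a hij, update_eq_self]
      rw [h1, h2, h3] at hz
      have h4 : symb a = symb (update a j s) + symb (update a i s) + -two a i j s s := by
        have := hz
        rw [← sub_eq_zero, ← hz]
        abel
      rw [h4]
      refine us_add v (us_add v ?_ ?_) (us_neg v (us_two_self v a hij s))
      · refine ih (B.erase i) _ (by rw [Finset.card_erase_of_mem hi]; omega) ?_
        have hj' : j ∈ B.erase i := Finset.mem_erase.mpr ⟨hij.symm, hj⟩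
        rw [← Finset.add_sum_erase _ _ hj', update_self, hsv]
        rw [← hs, ← Finset.add_sum_erase B _ hi, ← Finset.add_sum_erase (B.erase i) _ hj', add_assoc]
        congr 2
        refine Finset.sum_congr rfl fun l hl => ?_
        rw [update_of_ne (Finset.ne_of_mem_erase hl)]
      · refine ih (B.erase j) _ (by rw [Finset.card_erase_of_mem hj]; omega) ?_
        have hi' : i ∈ B.erase j := Finset.mem_erase.mpr ⟨hij, hi⟩
        rw [← Finset.add_sum_erase _ _ hi', update_self, hsv]
        rw [← hs, ← Finset.add_sum_erase B _ hj, ← Finset.add_sum_erase (B.erase j) _ hi',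
          ← add_assoc, add_comm (a i : K) (a j : K)]
        congr 1
        refine Finset.sum_congr rfl fun l hl => ?_
        rw [update_of_ne (Finset.ne_of_mem_erase hl)]

theorem us_upd_one (a : Fin n → Kˣ) (i : Fin n) (x p : Kˣ) (hp : v ((p : K) - 1) < 1) :
    Unramified v (symb (update a i (-(x * p)))) ↔ Unramified v (symb (update a i x)) := by
  rw [us_upd_neg, symb_mul]
  exact us_add_iff v (unramified_symb v _ (Or.inr ⟨i, by rw [update_self]; exact hp⟩))

theorem us_main (z : Fin n → Kˣ) (S : Finset (Fin n)) (hz : ∀ i ∈ S, v (z i : K) ≤ 1)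
    (h : v (1 + ∑ i ∈ S, (z i : K)) < 1) : Unramified v (symb z) := by
  classical
  set B := S.filter fun i => v (z i : K) = 1 with hB
  set P : K := -∑ i ∈ B, (z i : K) with hP
  have hsplit : ∑ i ∈ S, (z i : K) = ∑ i ∈ B, (z i : K) +
      ∑ i ∈ S.filter (fun i => ¬ v (z i : K) = 1), (z i : K) :=
    (Finset.sum_filter_add_sum_filter_not S _ _).symm
  have hrest : v (∑ i ∈ S.filter (fun i => ¬ v (z i : K) = 1), (z i : K)) < 1 := by
    refine Valuation.map_sum_lt v one_ne_zero fun i hi => ?_
    rw [Finset.mem_filter] at hi
    exact lt_of_le_of_ne (hz i hi.1) hi.2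
  have hP1 : v (P - 1) < 1 := by
    have : P - 1 = -(1 + ∑ i ∈ S, (z i : K)) +
        ∑ i ∈ S.filter (fun i => ¬ v (z i : K) = 1), (z i : K) := by
      rw [hsplit, hP]; ring
    rw [this]
    refine Valuation.map_add_lt v ?_ hrest
    rw [Valuation.map_neg]
    exact h
  have hP0 : P ≠ 0 := by
    intro h0
    rw [h0, zero_sub, Valuation.map_neg, map_one] at hP1
    exact lt_irrefl _ hP1
  set p : Kˣ := Units.mk0 P hP0 with hp
  have hBne : B.Nonempty := by
    rw [Finset.nonempty_iff_ne_empty]
    intro h0
    apply hP0
    rw [hP, h0, Finset.sum_empty, neg_zero]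
  set a : Fin n → Kˣ := fun i => if i ∈ B then -(z i * p⁻¹) else z i with ha
  have hgood : Unramified v (symb a) := by
    obtain ⟨m, hm⟩ := Nat.exists_eq_succ_of_ne_zero (Finset.card_ne_zero_of_mem hBne.choose_spec)
    refine us_gs v m B a hm ?_
    have : ∀ i ∈ B, (a i : K) = -(z i : K) * (p⁻¹ : Kˣ) := by
      intro i hi
      rw [ha]
      simp only [hi, if_true, Units.val_neg, Units.val_mul, neg_mul]
    rw [Finset.sum_congr rfl this, ← Finset.sum_mul, Finset.sum_neg_distrib, ← hP]
    have : P = (p : K) := rfl
    rw [this, Units.mul_inv]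
  have hind : ∀ T : Finset (Fin n), T ⊆ B →
      Unramified v (symb fun i => if i ∈ T then z i else a i) := by
    intro T
    induction T using Finset.induction_on with
    | empty =>
      intro _
      simpa using hgood
    | insert i T hiT ih =>
      intro hsub
      rw [Finset.insert_subset_iff] at hsub
      have ih' := ih hsub.2
      have e1 : (fun l => if l ∈ insert i T then z l else a l) =
          update (fun l => if l ∈ T then z l else a l) i (-(a i * p)) := by
        funext l
        by_cases hl : l = i
        · subst hl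
          have hal : a l = -(z l * p⁻¹) := by rw [ha]; simp only [hsub.1, if_true]
          rw [update_self, hal]
          simp
        · rw [update_of_ne hl]
          simp [Finset.mem_insert, hl]
      rw [e1, us_upd_one v _ i (a i) p hP1]
      have e2 : update (fun l => if l ∈ T then z l else a l) i (a i) =
          fun l => if l ∈ T then z l else a l := by
        rw [update_eq_self_iff]
        simp [hiT]
      rw [e2]
      exact ih'
  have hfin := hind B subset_rfl
  have e3 : (fun i => if i ∈ B then z i else a i) = z := by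
    funext i
    by_cases hi : i ∈ B
    · simp [hi]
    · simp only [hi, if_false, ha]
  rw [e3] at hfin
  exact hfin

end Aux

theorem unramified_of_sum {n : ℕ} {K : Type*} [Field K]
    (v : Valuation K (WithZero (Multiplicative ℤ))) (z : Fin n → Kˣ) (S : Finset (Fin n))
    (h : v (1 + ∑ i ∈ S, (z i : K)) < 1 ∨
      ∃ b ∈ S, v (1 + ∑ i ∈ S, (z i : K)) < v (z b : K)) :
    Unramified v (symb z) := by
  classical
  have hne : S.Nonempty := by
    rcases h with h | ⟨b, hb, -⟩
    · rw [Finset.nonempty_iff_ne_empty]
      rintro rfl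
      rw [Finset.sum_empty, add_zero, map_one] at h
      exact lt_irrefl _ h
    · exact ⟨b, hb⟩
  obtain ⟨b, hb, hmax⟩ := Finset.exists_max_image S (fun i => v (z i : K)) hne
  rcases le_or_gt (v (z b : K)) 1 with hle | hgt
  · refine us_main v z S (fun i hi => (hmax i hi).trans hle) ?_
    rcases h with h | ⟨c, hc, h⟩
    · exact h
    · exact h.trans_le ((hmax c hc).trans hle)
  · have hlt : v (1 + ∑ i ∈ S, (z i : K)) < v (z b : K) := by
      rcases h with h | ⟨c, hc, h⟩
      · exact h.trans hgt
      · exact h.trans_le (hmax c hc)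
    have hvb0 : v (z b : K) ≠ 0 := (Valuation.ne_zero_iff v).2 (z b).ne_zero
    -- divide the entries in `S`, different from `b`, by the entry `b`
    have hind : ∀ T : Finset (Fin n), b ∉ T →
        (Unramified v (symb fun i => if i ∈ T then z i * (z b)⁻¹ else z i) ↔
          Unramified v (symb z)) := by
      intro T
      induction T using Finset.induction_on with
      | empty =>
        intro _
        simp
      | insert i T hiT ih =>
        intro hbT
        rw [Finset.mem_insert, not_or] at hbT
        have e1 : (fun l => if l ∈ insert i T then z l * (z b)⁻¹ else z l) =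
            update (fun l => if l ∈ T then z l * (z b)⁻¹ else z l) i (z i * (z b)⁻¹) := by
          funext l
          by_cases hl : l = i
          · subst hl
            simp
          · rw [update_of_ne hl]
            simp [Finset.mem_insert, hl]
        have e2 : update (fun l => if l ∈ T then z l * (z b)⁻¹ else z l) i (z i) =
            fun l => if l ∈ T then z l * (z b)⁻¹ else z l := by
          rw [update_eq_self_iff]
          simp [hiT]
        have e3 : Unramified v (symb (update (fun l => if l ∈ T then z l * (z b)⁻¹ else z l) i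
            (z b))) := by
          refine us_eq_entries v _ (Ne.symm hbT.1) ?_
          rw [update_self, update_of_ne hbT.1]
          simp [hbT.2]
        rw [← ih hbT.2, e1, symb_mul, symb_inv, e2]
        exact us_add_iff v (us_neg v e3)
    set w : Fin n → Kˣ := update (fun i => if i ∈ S.erase b then z i * (z b)⁻¹ else z i) b
      (z b)⁻¹ with hw
    have hwz : Unramified v (symb w) ↔ Unramified v (symb z) := by
      rw [hw, symb_inv, us_neg_iff, ← hind (S.erase b) (Finset.notMem_erase b S)]
      have : update (fun i => if i ∈ S.erase b then z i * (z b)⁻¹ else z i) b (z b) =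
          fun i => if i ∈ S.erase b then z i * (z b)⁻¹ else z i := by
        rw [update_eq_self_iff]
        simp
      rw [this]
    rw [← hwz]
    have hwb : w b = (z b)⁻¹ := by rw [hw, update_self]
    have hwk : ∀ k ∈ S.erase b, w k = z k * (z b)⁻¹ := by
      intro k hk
      rw [hw, update_of_ne (Finset.ne_of_mem_erase hk)]
      simp only [hk, if_true]
    have hb0 : (z b : K) ≠ 0 := (z b).ne_zero
    refine us_main v w S ?_ ?_
    · intro i hi
      by_cases hib : i = b
      · subst hib
        rw [hwb, Units.val_inv_eq_inv_val, map_inv₀]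
        exact inv_le_one_of_one_le₀ hgt.le
      · rw [hwk i (Finset.mem_erase.mpr ⟨hib, hi⟩), Units.val_mul, Units.val_inv_eq_inv_val,
          map_mul, map_inv₀]
        rw [← div_eq_mul_inv]
        exact (div_le_one₀ (zero_lt_iff.mpr hvb0)).mpr (hmax i hi)
    · have hsum : 1 + ∑ i ∈ S, (w i : K) = (1 + ∑ i ∈ S, (z i : K)) * (z b : K)⁻¹ := by
        rw [← Finset.add_sum_erase S (fun i => (w i : K)) hb,
          ← Finset.add_sum_erase S (fun i => (z i : K)) hb, hwb, Units.val_inv_eq_inv_val]
        have : ∑ i ∈ S.erase b, (w i : K) = (∑ i ∈ S.erase b, (z i : K)) * (z b : K)⁻¹ := by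
          rw [Finset.sum_mul]
          refine Finset.sum_congr rfl fun k hk => ?_
          rw [hwk k hk, Units.val_mul, Units.val_inv_eq_inv_val]
        rw [this]
        field_simp
        ring
      rw [hsum, map_mul, map_inv₀, ← div_eq_mul_inv]
      exact (div_lt_one₀ (zero_lt_iff.mpr hvb0)).mpr hlt

end P4a177s
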