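import Pool.Agent.Lib.P4a177s.Defs
import Pool.Agent.Lib.P4a177s.UnramSum

/-!
# The symbols attached to an arrangement are unramified
-/

set_option autoImplicit false

namespace P4a177s

open P4a177h

section Aux

variable {K : Type*} [Field K] {Γ₀ : Type*} [LinearOrderedCommGroupWithZero Γ₀] (v : Valuation K Γ₀)

theorem v_intCast_le (m : ℤ) : v (m : K) ≤ 1 := by
  have h : (m : K) ∈ v.valuationSubring := intCast_mem _ m
  exact h

end Aux

theorem Arr.adm_z {n D : ℕ} {A : Arr n D} {K : Type*} [Field K] [CharZero K]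
    {Γ₀ : Type*} [LinearOrderedCommGroupWithZero Γ₀]
    (v : Valuation K Γ₀) {N : ℕ} {x : Fin n → K} (h : A.On N x)
    (hN : A.Mod ∣ N) (B : A.Idx) (z : Fin n → K)
    (hz : ∀ i, z i * ((A.lam B.1 : K) * A.form (Arr.f B i) x) =
      -(A.lam (Function.update B.1 i (Arr.f B i)) : K) * A.form (B.1 i) x) :
    (∀ i, v (z i) = 1) ∨
      ∃ k, v (1 + ∑ i ∈ Finset.univ.filter (fun i => Arr.f B i = k), z i) < 1 ∨
        ∃ j, Arr.f B j = k ∧
          v (1 + ∑ i ∈ Finset.univ.filter (fun i => Arr.f B i = k), z i) < v (z j) := by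
  by_cases hmain : ∃ k, v (1 + ∑ i ∈ Finset.univ.filter (fun i => Arr.f B i = k), z i) < 1 ∨
        ∃ j, Arr.f B j = k ∧
          v (1 + ∑ i ∈ Finset.univ.filter (fun i => Arr.f B i = k), z i) < v (z j)
  · exact Or.inr hmain
  left
  push Not at hmain
  have hform : ∀ k, A.form k x ≠ 0 := by
    intro k hk
    unfold Arr.On at h
    rw [Finset.prod_eq_zero (Finset.mem_univ k) hk, mul_zero] at h
    exact zero_ne_one h
  have hLam0 : v (A.Lam : K) ≠ 0 := by
    rw [Valuation.ne_zero_iff]
    exact_mod_cast A.Lam_pos.ne'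
  set G : Γ₀ := (v (A.Lam : K))⁻¹ with hG
  have hGL : G * v (A.Lam : K) = 1 := inv_mul_cancel₀ hLam0
  have hLam1 : v (A.Lam : K) ≤ 1 := by
    have := v_intCast_le v (A.Lam : ℤ)
    rwa [Int.cast_natCast] at this
  have hG1 : 1 ≤ G := by
    rw [← hGL]
    exact mul_le_of_le_one_right' hLam1
  have hlam : ∀ p : Fin n → Fin D, A.lam p ≠ 0 → 1 ≤ G * v (A.lam p : K) := by
    intro p hp
    obtain ⟨r, hr⟩ := A.lam_dvd hp
    have h1 : v (A.Lam : K) ≤ v (A.lam p : K) := by
      have h2 : (A.Lam : K) = (A.lam p : K) * (r : K) := by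
        have := congrArg (Int.cast : ℤ → K) hr
        rw [Int.cast_natCast, Int.cast_mul] at this
        exact this
      rw [h2, map_mul]
      exact mul_le_of_le_one_right' (v_intCast_le v r)
    rw [← hGL]
    exact mul_le_mul_right h1 G
  have hlB : A.lam B.1 ≠ 0 := B.2.1
  have hlBK : (A.lam B.1 : K) ≠ 0 := Int.cast_ne_zero.2 hlB
  -- the bound for the forms of the base
  have hbase : ∀ m : ℕ, ∀ i, (Arr.f B i : ℕ) = m → v (A.form (B.1 i) x) ≤ G ^ (m + 1) := by
    intro m
    induction m using Nat.strong_induction_on with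
    | _ m ih =>
      intro i hi
      set k := Arr.f B i with hk
      have hkS := (hmain k).2 i hk.symm
      set S := Finset.univ.filter (fun i => Arr.f B i = k) with hS
      set R : K := ∑ j ∈ Sᶜ, (A.lam (Function.update B.1 j k) : K) * A.form (B.1 j) x +
        (A.kap B.1 k : K) with hR
      have hRv : v R ≤ G ^ m := by
        refine (Valuation.map_add_le v (v.map_sum_le fun j hj => ?_) ?_)
        · by_cases hb : A.lam (Function.update B.1 j k) = 0
          · rw [hb, Int.cast_zero, zero_mul, map_zero]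
            exact zero_le
          · have hle := Arr.f_le B j k hb
            have hne : Arr.f B j ≠ k := by
              intro he
              rw [Finset.mem_compl] at hj
              exact hj (Finset.mem_filter.2 ⟨Finset.mem_univ j, he⟩)
            have hlt : (Arr.f B j : ℕ) < m := by
              have h1 : Arr.f B j < k := lt_of_le_of_ne hle hne
              rw [← hi]
              exact h1
            rw [map_mul]
            calc v (A.lam (Function.update B.1 j k) : K) * v (A.form (B.1 j) x)
                ≤ 1 * v (A.form (B.1 j) x) := mul_le_mul_left (v_intCast_le v _) _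
              _ = v (A.form (B.1 j) x) := one_mul _
              _ ≤ G ^ ((Arr.f B j : ℕ) + 1) := ih _ hlt j rfl
              _ ≤ G ^ m := pow_le_pow_right₀ hG1 hlt
        · exact (v_intCast_le v _).trans (one_le_pow₀ hG1)
      have hsum : (1 + ∑ j ∈ S, z j) * ((A.lam B.1 : K) * A.form k x) = R := by
        rw [add_mul, one_mul, Finset.sum_mul]
        have h1 : ∀ j ∈ S, z j * ((A.lam B.1 : K) * A.form k x) =
            -((A.lam (Function.update B.1 j k) : K) * A.form (B.1 j) x) := by
          intro j hj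
          have hj' : Arr.f B j = k := (Finset.mem_filter.1 hj).2
          have h2 := hz j
          rw [hj'] at h2
          rw [h2, neg_mul]
        rw [Finset.sum_congr rfl h1, Finset.sum_neg_distrib, A.cramer B.1 k x, hR,
          ← Finset.sum_add_sum_compl S]
        ring
      have hzi : z i * ((A.lam B.1 : K) * A.form k x) =
          -((A.lam (Function.update B.1 i k) : K) * A.form (B.1 i) x) := by
        have h2 := hz i
        rw [← hk] at h2
        rw [h2, neg_mul]
      have hle : v ((A.lam (Function.update B.1 i k) : K) * A.form (B.1 i) x) ≤ v R := by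
        rw [← hsum, ← Valuation.map_neg, ← hzi, map_mul v (z i),
          map_mul v (1 + ∑ j ∈ S, z j)]
        exact mul_le_mul_left hkS _
      have hb : A.lam (Function.update B.1 i k) ≠ 0 := Arr.f_spec B i
      calc v (A.form (B.1 i) x) = 1 * v (A.form (B.1 i) x) := (one_mul _).symm
        _ ≤ (G * v (A.lam (Function.update B.1 i k) : K)) * v (A.form (B.1 i) x) :=
          mul_le_mul_left (hlam _ hb) _
        _ = G * v ((A.lam (Function.update B.1 i k) : K) * A.form (B.1 i) x) := by
          rw [map_mul, mul_assoc]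
        _ ≤ G * G ^ m := mul_le_mul_right (hle.trans hRv) _
        _ = G ^ (m + 1) := (pow_succ' G m).symm
  have hbase2 : ∀ i, v (A.form (B.1 i) x) ≤ G ^ D := fun i =>
    (hbase _ i rfl).trans (pow_le_pow_right₀ hG1 (Arr.f B i).isLt)
  have hall : ∀ k, v (A.form k x) ≤ G ^ (D + 1) := by
    intro k
    have h1 : v ((A.lam B.1 : K) * A.form k x) ≤ G ^ D := by
      rw [A.cramer B.1 k x]
      refine (Valuation.map_add_le v (v.map_sum_le fun j _ => ?_) ?_)
      · rw [map_mul]
        calc v (A.lam (Function.update B.1 j k) : K) * v (A.form (B.1 j) x)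
            ≤ 1 * v (A.form (B.1 j) x) := mul_le_mul_left (v_intCast_le v _) _
          _ = v (A.form (B.1 j) x) := one_mul _
          _ ≤ G ^ D := hbase2 j
      · exact (v_intCast_le v _).trans (one_le_pow₀ hG1)
    calc v (A.form k x) = 1 * v (A.form k x) := (one_mul _).symm
      _ ≤ (G * v (A.lam B.1 : K)) * v (A.form k x) := mul_le_mul_left (hlam _ hlB) _
      _ = G * v ((A.lam B.1 : K) * A.form k x) := by rw [map_mul, mul_assoc]
      _ ≤ G * G ^ D := mul_le_mul_right h1 _
      _ = G ^ (D + 1) := (pow_succ' G D).symm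
  -- the integer `N`
  have hv1 : v (N : K) * ∏ k, v (A.form k x) = 1 := by
    unfold Arr.On at h
    have := congrArg v h
    rwa [map_mul, map_prod, map_one] at this
  have hprod : ∏ k, v (A.form k x) ≤ G ^ (D * (D + 1)) := by
    calc ∏ k, v (A.form k x) ≤ ∏ _k : Fin D, G ^ (D + 1) :=
          Finset.prod_le_prod' fun k _ => hall k
      _ = G ^ (D * (D + 1)) := by
          rw [Finset.prod_const, Finset.card_univ, Fintype.card_fin, ← pow_mul, mul_comm]
  have hvN : v (N : K) * G ^ (D * (D + 1) + 1) ≤ 1 := by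
    obtain ⟨r, hr⟩ := hN
    have h1 : (N : K) = (A.Lam : K) ^ (D * (D + 1) + 1) * (r : K) := by
      rw [hr]
      unfold Arr.Mod
      push_cast
      rfl
    rw [h1, map_mul, map_pow, mul_right_comm, ← mul_pow, mul_comm (v (A.Lam : K)), hGL, one_pow,
      one_mul]
    have := v_intCast_le v (r : ℤ)
    rwa [Int.cast_natCast] at this
  have hGle : G ≤ 1 := by
    calc G = G * (v (N : K) * ∏ k, v (A.form k x)) := by rw [hv1, mul_one]
      _ ≤ G * (v (N : K) * G ^ (D * (D + 1))) :=
          mul_le_mul_right (mul_le_mul_right hprod _) _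
      _ = v (N : K) * G ^ (D * (D + 1) + 1) := by rw [pow_succ, mul_left_comm, mul_comm G]
      _ ≤ 1 := hvN
  have hGeq : G = 1 := le_antisymm hGle hG1
  have hle1 : ∀ k, v (A.form k x) ≤ 1 := by
    intro k
    have := hall k
    rwa [hGeq, one_pow] at this
  have hvN1 : v (N : K) ≤ 1 := by
    have := v_intCast_le v (N : ℤ)
    rwa [Int.cast_natCast] at this
  have heq1 : ∀ k, v (A.form k x) = 1 := by
    intro k
    apply le_antisymm (hle1 k)
    rw [← hv1, ← Finset.mul_prod_erase Finset.univ (fun k => v (A.form k x)) (Finset.mem_univ k)]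
    calc v (N : K) * (v (A.form k x) * ∏ l ∈ Finset.univ.erase k, v (A.form l x))
        ≤ 1 * (v (A.form k x) * 1) :=
          mul_le_mul' hvN1 (mul_le_mul_right (Finset.prod_le_one' fun l _ => hle1 l) _)
      _ = v (A.form k x) := by rw [one_mul, mul_one]
  have hlam1 : ∀ p : Fin n → Fin D, A.lam p ≠ 0 → v (A.lam p : K) = 1 := by
    intro p hp
    apply le_antisymm (v_intCast_le v _)
    have := hlam p hp
    rwa [hGeq, one_mul] at this
  intro i
  have h1 := congrArg v (hz i)
  rw [map_mul, map_mul, map_mul, Valuation.map_neg, hlam1 _ hlB, hlam1 _ (Arr.f_spec B i),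
    heq1, heq1, mul_one, mul_one] at h1
  exact h1

theorem Arr.unramified_z {n D : ℕ} {A : Arr n D} {K : Type*} [Field K] [CharZero K]
    (v : Valuation K (WithZero (Multiplicative ℤ))) {N : ℕ} {x : Fin n → K} (h : A.On N x)
    (hN : A.Mod ∣ N) (B : A.Idx) (z : Fin n → Kˣ)
    (hz : ∀ i, (z i : K) * ((A.lam B.1 : K) * A.form (Arr.f B i) x) =
      -(A.lam (Function.update B.1 i (Arr.f B i)) : K) * A.form (B.1 i) x) :
    Unramified v (symb z) := by
  rcases Arr.adm_z v h hN B (fun i => (z i : K)) hz with h1 | ⟨k, h1 | ⟨j, hj, h1⟩⟩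
  · exact unramified_symb v z (Or.inl h1)
  · exact unramified_of_sum v z _ (Or.inl h1)
  · exact unramified_of_sum v z _ (Or.inr ⟨j, by simp [hj], h1⟩)

end P4a177s
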