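import Pool.Agent.Lib.P4a177h.Milnor

/-!
# Integral elements of the Milnor K-group of a coordinate ring
-/

set_option autoImplicit false

namespace P4a177s

open P4a177h

/-- An element of the Milnor K-group of a ring `R` is admissible if it is a symbol
`{a_1, …, a_n}`, whose set of entries is divided into blocks (`b i = k` says that the entry `a_i`
belongs to the block `k`), such that for every field `K` over `R` and for every valuation ring `O`
of `K`, of any rank, either all the `a_i` are units of `O`, or there is a block `k` such that the
element `1 + ∑ a_i` (sum over this block) has smaller absolute value than `1` or than some entry
`a_j` of this block.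

Geometric meaning: consider for each block the point of the affine simplex with the coordinates
`t_0 = 1 / (1 + ∑ a_i)`, `t_i = a_i / (1 + ∑ a_i)`. The second condition says that one of the
coordinates of one of these points is not in `O`. So the closure, in the product of any proper model
over `ℤ` of the fraction field of `R` with the affine simplices, of the graph of these points does
not meet the faces of the simplices (valuative criterion): it is a higher Chow cycle on the model,
of codimension `n` and simplicial degree `n`, whose class over the fraction field is the symbol, up
to sign (Nesterenko-Suslin, Totaro). -/
def Admissible {n : ℕ} {R : Type} [CommRing R] (ξ : MilnorK n R) : Prop :=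
  ∃ (a : Fin n → Rˣ) (b : Fin n → ℕ), ξ = symb a ∧
    ∀ (K : Type) [Field K] (φ : R →+* K) (O : ValuationSubring K),
      (∀ i, O.valuation (φ (a i : R)) = 1) ∨
      ∃ k, O.valuation (1 + ∑ i with b i = k, φ (a i : R)) < 1 ∨
        ∃ j, b j = k ∧
          O.valuation (1 + ∑ i with b i = k, φ (a i : R)) < O.valuation (φ (a j : R))

end P4a177s
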