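import Pool.Agent.Lib.P4a177h.Defs

/-!
# Hypersurfaces near hyperplane arrangements
-/

set_option autoImplicit false

namespace P4a177s

open MvPolynomial

noncomputable section

/-- An arrangement of `D` affine hyperplanes `∑ j, a k j * x j + c k = 0` in `n`-dimensional affine
space, with integral coefficients, whose normals `a k` span the space, and which is a divisor with
normal crossings: at every complex point, the normals of the hyperplanes through this point are
linearly independent. -/
structure Arr (n D : ℕ) where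
  /-- the coefficients of the linear parts -/
  a : Fin D → Fin n → ℤ
  /-- the constant coefficients -/
  c : Fin D → ℤ
  ne_zero : ∀ k, a k ≠ 0
  spans : ∃ p : Fin n → Fin D, (Matrix.of fun i j => a (p i) j).det ≠ 0
  simple : ∀ x : Fin n → ℂ, LinearIndependent ℂ
    fun (k : {k : Fin D // ∑ j, (a k j : ℂ) * x j + (c k : ℂ) = 0}) (j : Fin n) => (a k j : ℂ)

variable {n D : ℕ} (A : Arr n D)

/-- The value of the `k`-th affine form at `x`. -/
def Arr.form {R : Type*} [CommRing R] (k : Fin D) (x : Fin n → R) : R :=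
  ∑ j, (A.a k j : R) * x j + (A.c k : R)

/-- The equation `N * ∏ l_k - 1` of the hypersurface. -/
def Arr.eqn (N : ℕ) : MvPolynomial (Fin n) ℚ :=
  (N : MvPolynomial (Fin n) ℚ) * ∏ k, A.form k X - 1

/-- The coordinate ring over `ℚ` of the affine hypersurface `N * ∏ l_k = 1`. -/
abbrev Arr.CoordRing (N : ℕ) : Type := MvPolynomial (Fin n) ℚ ⧸ Ideal.span {A.eqn N}

theorem Arr.form_map {R S : Type*} [CommRing R] [CommRing S] (f : R →+* S) (k : Fin D)
    (x : Fin n → R) : f (A.form k x) = A.form k (fun j => f (x j)) := by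
  unfold Arr.form
  simp [map_sum]

/-- The point `x` lies on the hypersurface `N * ∏ l_k = 1`. -/
def Arr.On {R : Type*} [CommRing R] (N : ℕ) (x : Fin n → R) : Prop :=
  (N : R) * ∏ k, A.form k x = 1

/-- The value of the `k`-th affine form at a point of the hypersurface, as a unit. -/
def Arr.L {A : Arr n D} {R : Type*} [CommRing R] {N : ℕ} {x : Fin n → R} (h : A.On N x)
    (k : Fin D) : Rˣ :=
  Units.mkOfMulEqOne (A.form k x) ((N : R) * ∏ l ∈ Finset.univ.erase k, A.form l x) (by
    rw [← mul_assoc, mul_comm (A.form k x), mul_assoc,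
      Finset.mul_prod_erase Finset.univ (fun l => A.form l x) (Finset.mem_univ k)]
    exact h)

theorem Arr.L_val {A : Arr n D} {R : Type*} [CommRing R] {N : ℕ} {x : Fin n → R} (h : A.On N x)
    (k : Fin D) : (Arr.L h k : R) = A.form k x := rfl

/-- The coordinate functions on the hypersurface. -/
def Arr.coord (N : ℕ) (j : Fin n) : A.CoordRing N := Ideal.Quotient.mk _ (X j)

theorem Arr.aeval_form {B : Type*} [CommRing B] [Algebra ℚ B] (x : Fin n → B) (k : Fin D) :
    aeval x (A.form k (X : Fin n → MvPolynomial (Fin n) ℚ)) = A.form k x := by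
  have := A.form_map (aeval x : MvPolynomial (Fin n) ℚ →ₐ[ℚ] B).toRingHom k X
  simpa using this

theorem Arr.on_of_aeval {B : Type*} [CommRing B] [Algebra ℚ B] {N : ℕ} {x : Fin n → B} :
    aeval x (A.eqn N) = 0 ↔ A.On N x := by
  unfold Arr.eqn Arr.On
  rw [map_sub, map_mul, map_prod, map_one, map_natCast, sub_eq_zero]
  rw [Finset.prod_congr rfl fun k _ => A.aeval_form x k]

theorem Arr.coord_on (N : ℕ) : A.On N (A.coord N) := by
  rw [← A.on_of_aeval]
  have h : (aeval (A.coord N) : MvPolynomial (Fin n) ℚ →ₐ[ℚ] A.CoordRing N) =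
      Ideal.Quotient.mkₐ ℚ (Ideal.span {A.eqn N}) := by
    apply MvPolynomial.algHom_ext
    intro i
    simp [Arr.coord]
  rw [h]
  exact Ideal.Quotient.eq_zero_iff_mem.2 (Ideal.subset_span (Set.mem_singleton _))

theorem Arr.form_coord (N : ℕ) (k : Fin D) :
    A.form k (A.coord N) = Ideal.Quotient.mk _ (A.form k X) := by
  unfold Arr.coord
  exact (A.form_map (Ideal.Quotient.mk (Ideal.span {A.eqn N})) k X).symm

theorem Arr.On.map {R S : Type*} [CommRing R] [CommRing S] (f : R →+* S) {N : ℕ} {x : Fin n → R}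
    {A : Arr n D} (h : A.On N x) : A.On N fun j => f (x j) := by
  unfold Arr.On at h ⊢
  have h1 : f ((N : R) * ∏ k, A.form k x) = 1 := by rw [h, map_one]
  rw [map_mul, map_natCast, map_prod] at h1
  rw [← h1]
  congr 1
  exact Finset.prod_congr rfl fun k _ => (A.form_map f k x).symm

/-! ### Minors -/

/-- The determinant of `n` of the normals. -/
def Arr.lam (p : Fin n → Fin D) : ℤ := (Matrix.of fun i j => A.a (p i) j).det

/-- The constant in the expression of `l_k` by the `l_{B i}`. -/
def Arr.kap (B : Fin n → Fin D) (k : Fin D) : ℤ :=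
  A.lam B * A.c k - ∑ i, A.lam (Function.update B i k) * A.c (B i)

theorem Arr.cramer_linear (B : Fin n → Fin D) (k : Fin D) (j : Fin n) :
    A.lam B * A.a k j = ∑ i, A.lam (Function.update B i k) * A.a (B i) j := by
  classical
  set M : Matrix (Fin n) (Fin n) ℤ := Matrix.of fun i j => A.a (B i) j with hM
  have h := congrFun (Matrix.mulVec_cramer M.transpose (A.a k)) j
  rw [Pi.smul_apply, smul_eq_mul, Matrix.det_transpose] at h
  have h1 : ∀ i, Matrix.cramer M.transpose (A.a k) i = A.lam (Function.update B i k) := by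
    intro i
    rw [Matrix.cramer_apply, Matrix.updateCol_transpose, Matrix.det_transpose]
    unfold Arr.lam
    congr 1
    ext i' j'
    rw [Matrix.updateRow_apply]
    by_cases hi : i' = i
    · subst hi
      simp
    · simp [hi, hM]
  show M.det * A.a k j = _
  rw [← h, Matrix.mulVec, dotProduct]
  refine Finset.sum_congr rfl fun i _ => ?_
  rw [h1, mul_comm]
  rfl

/-- The expression of an affine form by `n` other ones. -/
theorem Arr.cramer {R : Type*} [CommRing R] (B : Fin n → Fin D) (k : Fin D) (x : Fin n → R) :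
    (A.lam B : R) * A.form k x =
      ∑ i, (A.lam (Function.update B i k) : R) * A.form (B i) x + (A.kap B k : R) := by
  unfold Arr.form Arr.kap
  have h1 : ∀ j, (A.lam B : R) * (A.a k j : R) =
      ∑ i, (A.lam (Function.update B i k) : R) * (A.a (B i) j : R) := by
    intro j
    have := congrArg (Int.cast : ℤ → R) (A.cramer_linear B k j)
    push_cast at this
    exact this
  rw [mul_add, Finset.mul_sum]
  have h2 : ∑ j, (A.lam B : R) * ((A.a k j : R) * x j) =
      ∑ i, (A.lam (Function.update B i k) : R) * ∑ j, (A.a (B i) j : R) * x j := by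
    simp_rw [Finset.mul_sum]
    rw [Finset.sum_comm]
    refine Finset.sum_congr rfl fun j _ => ?_
    rw [← mul_assoc, h1 j, Finset.sum_mul]
    exact Finset.sum_congr rfl fun i _ => by ring
  rw [h2]
  push_cast
  simp_rw [mul_add, Finset.sum_add_distrib]
  ring

theorem Arr.injective_of_lam {B : Fin n → Fin D} (hB : A.lam B ≠ 0) : Function.Injective B := by
  intro i j hij
  by_contra hne
  apply hB
  unfold Arr.lam
  exact Matrix.det_zero_of_row_eq hne (by ext l; simp [hij])

/-- `n` independent affine forms take prescribed values at some point. -/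
theorem Arr.exists_point {F : Type*} [Field F] [CharZero F] {B : Fin n → Fin D}
    (hB : A.lam B ≠ 0) (w : Fin n → F) : ∃ x : Fin n → F, ∀ i, A.form (B i) x = w i := by
  classical
  set M : Matrix (Fin n) (Fin n) F := Matrix.of fun i j => (A.a (B i) j : F) with hM
  have hdet : IsUnit M.det := by
    have h1 : M.det = ((A.lam B : ℤ) : F) := by
      have h2 := RingHom.map_det (Int.castRingHom F) (Matrix.of fun i j => A.a (B i) j)
      exact h2.symm
    rw [h1, isUnit_iff_ne_zero]
    exact_mod_cast hB
  refine ⟨M⁻¹.mulVec fun i => w i - (A.c (B i) : F), fun i => ?_⟩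
  have h2 : M.mulVec (M⁻¹.mulVec fun i => w i - (A.c (B i) : F)) = fun i => w i - (A.c (B i) : F) := by
    rw [Matrix.mulVec_mulVec, Matrix.mul_nonsing_inv _ hdet, Matrix.one_mulVec]
  have h3 := congrFun h2 i
  unfold Arr.form
  have h4 : ∑ j, (A.a (B i) j : F) * (M⁻¹.mulVec fun i => w i - (A.c (B i) : F)) j =
      w i - (A.c (B i) : F) := h3
  rw [h4]
  ring

/-- Only `n` of the hyperplanes pass through a vertex. -/
theorem Arr.mem_range_of_form_eq_zero {B : Fin n → Fin D} (hB : A.lam B ≠ 0) (x : Fin n → ℂ)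
    (hx : ∀ i, A.form (B i) x = 0) (k : Fin D) (hk : A.form k x = 0) : ∃ i, B i = k := by
  classical
  by_contra hne
  push Not at hne
  have h := A.simple x
  -- `n + 1` different hyperplanes through `x`
  let e : Option (Fin n) → {k : Fin D // ∑ j, (A.a k j : ℂ) * x j + (A.c k : ℂ) = 0} :=
    fun o => o.elim ⟨k, hk⟩ fun i => ⟨B i, hx i⟩
  have he : Function.Injective e := by
    intro o o' hoo
    rcases o with _ | i <;> rcases o' with _ | i'
    · rfl
    · exact absurd (congrArg Subtype.val hoo).symm (hne i')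
    · exact absurd (congrArg Subtype.val hoo) (hne i)
    · have : B i = B i' := congrArg Subtype.val hoo
      rw [A.injective_of_lam hB this]
  have h2 := (h.comp e he).fintype_card_le_finrank
  rw [Module.finrank_fin_fun, Fintype.card_option, Fintype.card_fin] at h2
  omega

theorem Arr.kap_ne_zero {B : Fin n → Fin D} (hB : A.lam B ≠ 0) {k : Fin D} (hk : ∀ i, B i ≠ k) :
    A.kap B k ≠ 0 := by
  intro h0
  obtain ⟨x, hx⟩ := A.exists_point (F := ℂ) hB fun _ => 0
  have h1 := A.cramer B k x
  simp only [hx, mul_zero, Finset.sum_const_zero, h0, Int.cast_zero, add_zero] at h1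
  have h2 : A.form k x = 0 := by
    rcases mul_eq_zero.1 h1 with h | h
    · exact absurd (by exact_mod_cast h) hB
    · exact h
  obtain ⟨i, hi⟩ := A.mem_range_of_form_eq_zero hB x hx k h2
  exact hk i hi

/-! ### The index set -/

/-- The sets of `n` hyperplanes with independent normals, each element of which can be exchanged for
a hyperplane with a smaller number (the bases of internal activity zero of the matroid of the
normals). Their number is the number of bounded regions of the real arrangement. -/
def Arr.Idx : Type := {B : Fin n ↪o Fin D // A.lam B ≠ 0 ∧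
  ∀ i, ∃ k < B i, A.lam (Function.update B i k) ≠ 0}

instance : Fintype A.Idx := by
  unfold Arr.Idx
  classical
  infer_instance

instance : DecidableEq A.Idx := by
  unfold Arr.Idx
  classical
  infer_instance

/-- The smallest element which can be exchanged for `B i`. -/
def Arr.f {A : Arr n D} (B : A.Idx) (i : Fin n) : Fin D :=
  (Finset.univ.filter fun k => A.lam (Function.update B.1 i k) ≠ 0).min' (by
    obtain ⟨k, _, hk⟩ := B.2.2 i
    exact ⟨k, Finset.mem_filter.2 ⟨Finset.mem_univ _, hk⟩⟩)

theorem Arr.f_spec {A : Arr n D} (B : A.Idx) (i : Fin n) :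
    A.lam (Function.update B.1 i (Arr.f B i)) ≠ 0 :=
  (Finset.mem_filter.1 (Finset.min'_mem
    (Finset.univ.filter fun k => A.lam (Function.update B.1 i k) ≠ 0) _)).2

theorem Arr.f_le {A : Arr n D} (B : A.Idx) (i : Fin n) (k : Fin D)
    (hk : A.lam (Function.update B.1 i k) ≠ 0) : Arr.f B i ≤ k :=
  Finset.min'_le (Finset.univ.filter fun k => A.lam (Function.update B.1 i k) ≠ 0) k
    (Finset.mem_filter.2 ⟨Finset.mem_univ k, hk⟩)

theorem Arr.f_lt {A : Arr n D} (B : A.Idx) (i : Fin n) : Arr.f B i < B.1 i := by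
  obtain ⟨k, hk, hk'⟩ := B.2.2 i
  exact lt_of_le_of_lt (Arr.f_le B i k hk') hk

theorem Arr.f_ne {A : Arr n D} (B : A.Idx) (i s : Fin n) : Arr.f B i ≠ B.1 s := by
  intro h
  by_cases his : i = s
  · subst his
    exact absurd h (Arr.f_lt B i).ne
  · have h1 := A.injective_of_lam (Arr.f_spec B i)
    have h2 : Function.update (B.1 : Fin n → Fin D) i (Arr.f B i) i =
        Function.update (B.1 : Fin n → Fin D) i (Arr.f B i) s := by
      rw [Function.update_self, Function.update_of_ne (Ne.symm his), h]
    exact his (h1 h2)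

/-- The product of the absolute values of all the nonzero determinants of `n` normals. -/
def Arr.Lam : ℕ := ∏ p : Fin n → Fin D, if A.lam p = 0 then 1 else (A.lam p).natAbs

/-- The integer which has to divide `N`. -/
def Arr.Mod : ℕ := A.Lam ^ (D * (D + 1) + 1)

theorem Arr.Lam_pos : 0 < A.Lam := by
  refine Finset.prod_pos fun p _ => ?_
  split_ifs with h
  · exact one_pos
  · exact Int.natAbs_pos.2 h

theorem Arr.Mod_pos : 0 < A.Mod := pow_pos A.Lam_pos _

theorem Arr.lam_dvd {p : Fin n → Fin D} (hp : A.lam p ≠ 0) : A.lam p ∣ (A.Lam : ℤ) := by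
  have h : (A.lam p).natAbs ∣ A.Lam := by
    have := Finset.dvd_prod_of_mem (fun p : Fin n → Fin D =>
      if A.lam p = 0 then 1 else (A.lam p).natAbs) (Finset.mem_univ p)
    simp only [if_neg hp] at this
    exact this
  exact Int.natAbs_dvd.1 (Int.natCast_dvd_natCast.2 h)

/-! ### The symbols -/

/-- A nonzero integer as a unit of a `ℚ`-algebra. -/
def intUnit (R : Type*) [CommRing R] [Algebra ℚ R] (q : ℤ) (hq : q ≠ 0) : Rˣ :=
  Units.map (algebraMap ℚ R : ℚ →* R) (Units.mk0 (q : ℚ) (Int.cast_ne_zero.2 hq))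

theorem intUnit_val (R : Type*) [CommRing R] [Algebra ℚ R] (q : ℤ) (hq : q ≠ 0) :
    (intUnit R q hq : R) = (q : R) := by
  show algebraMap ℚ R (q : ℚ) = (q : R)
  rw [map_intCast]

/-- The unit `- lam (B with B i replaced by f i) * l_{B i} / (lam B * l_{f i})`. -/
def Arr.z {A : Arr n D} {R : Type*} [CommRing R] [Algebra ℚ R] {N : ℕ} {x : Fin n → R}
    (h : A.On N x) (B : A.Idx) (i : Fin n) : Rˣ :=
  (intUnit R (-A.lam (Function.update B.1 i (Arr.f B i))) (neg_ne_zero.2 (Arr.f_spec B i)) *
    Arr.L h (B.1 i)) / (intUnit R (A.lam B.1) B.2.1 * Arr.L h (Arr.f B i))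

theorem Arr.z_spec {A : Arr n D} {R : Type*} [CommRing R] [Algebra ℚ R] {N : ℕ} {x : Fin n → R}
    (h : A.On N x) (B : A.Idx) (i : Fin n) :
    (Arr.z h B i : R) * ((A.lam B.1 : R) * A.form (Arr.f B i) x) =
      -(A.lam (Function.update B.1 i (Arr.f B i)) : R) * A.form (B.1 i) x := by
  have h1 : Arr.z h B i * (intUnit R (A.lam B.1) B.2.1 * Arr.L h (Arr.f B i)) =
      intUnit R (-A.lam (Function.update B.1 i (Arr.f B i))) (neg_ne_zero.2 (Arr.f_spec B i)) *
        Arr.L h (B.1 i) := by
    unfold Arr.z
    rw [div_mul_cancel]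
  have h2 := congrArg (Units.val : Rˣ → R) h1
  simp only [Units.val_mul, intUnit_val, Arr.L_val] at h2
  rw [h2]
  push_cast
  ring

end

end P4a177s
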