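import Pool.Agent.Lib.P4a177s.Adm
import Pool.Agent.Lib.P4a177s.Defs
import Pool.Agent.Lib.P4a177h.RegHom

/-!
# The notions used in the statement of the theorem
-/

set_option autoImplicit false

namespace P4a177s

open P4a177h

noncomputable section

/-- The hypersurface `N * ∏ l_k = 1` is irreducible over the complex numbers. -/
def Arr.GeomIrreducible {n D : ℕ} (A : Arr n D) (N : ℕ) : Prop :=
  Irreducible (MvPolynomial.map (algebraMap ℚ ℂ) (A.eqn N))

/-- The affine hypersurface `N * ∏ l_k = 1` is smooth: at none of its complex points all the partial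
derivatives of the equation vanish. -/
def Arr.Smooth {n D : ℕ} (A : Arr n D) (N : ℕ) : Prop :=
  ∀ x : Fin n → ℂ, MvPolynomial.aeval x (A.eqn N) = 0 →
    ∃ j, MvPolynomial.aeval x (MvPolynomial.pderiv j (A.eqn N)) ≠ 0

/-- The element `ξ` of the Milnor K-group of the domain `R` is unramified, up to torsion, at every
discrete valuation of the fraction field of `R`. -/
def UnramifiedEverywhere {n : ℕ} {R : Type} [CommRing R] (ξ : MilnorK n R) : Prop :=
  ∀ (K : Type) [Field K] [Algebra R K] [IsFractionRing R K]
    (v : Valuation K (WithZero (Multiplicative ℤ))), Unramified v (map (algebraMap R K) ξ)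

/-- The matrix of the regulators of elements of `K_{m+1}` along tori of dimension `m`. -/
def regulatorMatrix {m : ℕ} {R ι : Type} [CommRing R] (ξ : ι → MilnorK (m + 1) R)
    (γ : ι → Torus m R) : Matrix ι ι ℝ :=
  Matrix.of fun p q => reg (γ q) (ξ p)

end

end P4a177s
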