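import Pool.Agent.Lib.P4a177s.Defs

/-!
# The number of elements in the case of general position, and examples
-/

set_option autoImplicit false

namespace P4a177s

open Function

variable {n D : ℕ}

theorem card_orderEmb (n D : ℕ) : Fintype.card (Fin n ↪o Fin D) = D.choose n := by
  rw [← Nat.card_eq_fintype_card, Nat.card_congr Set.powersetCard.ofFinEmbEquiv,
    Set.powersetCard.card, Nat.card_eq_fintype_card, Fintype.card_fin]

/-- If any `n` of the normals are linearly independent, the index set has `(D - 1).choose n`
elements (the geometric genus of a hypersurface of degree `D` in `ℙ^n`). -/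
theorem Arr.card_idx (A : Arr n D) (hn : 0 < n)
    (h : ∀ p : Fin n → Fin D, Injective p → A.lam p ≠ 0) :
    Fintype.card A.Idx = (D - 1).choose n := by
  classical
  obtain ⟨p₀, hp₀⟩ := A.spans
  obtain ⟨D', rfl⟩ : ∃ D', D = D' + 1 :=
    Nat.exists_eq_succ_of_ne_zero (fun h0 => by subst h0; exact (p₀ ⟨0, hn⟩).elim0)
  rw [Nat.add_sub_cancel, ← card_orderEmb]
  symm
  have hbase : ∀ p : Fin n ↪o Fin D', A.lam (p.trans (Fin.succOrderEmb D')) ≠ 0 ∧
      ∀ i, ∃ k < (p.trans (Fin.succOrderEmb D')) i,
        A.lam (update (p.trans (Fin.succOrderEmb D')) i k) ≠ 0 := by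
    intro p
    refine ⟨h _ (p.trans (Fin.succOrderEmb D')).injective, fun i => ⟨0, ?_, h _ ?_⟩⟩
    · show (0 : Fin (D' + 1)) < (p i).succ
      exact Fin.succ_pos _
    · intro a b hab
      by_cases ha : a = i
      · by_cases hb : b = i
        · rw [ha, hb]
        · subst ha
          rw [update_self, update_of_ne hb] at hab
          exact absurd hab (Fin.succ_ne_zero (p b)).symm
      · by_cases hb : b = i
        · subst hb
          rw [update_self, update_of_ne ha] at hab
          exact absurd hab (Fin.succ_ne_zero (p a))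
        · rw [update_of_ne ha, update_of_ne hb] at hab
          exact (p.trans (Fin.succOrderEmb D')).injective hab
  refine Fintype.card_of_bijective (f := fun p : Fin n ↪o Fin D' =>
    (⟨p.trans (Fin.succOrderEmb D'), hbase p⟩ : A.Idx)) ⟨?_, ?_⟩
  · intro p p' hpp
    have h1 : p.trans (Fin.succOrderEmb D') = p'.trans (Fin.succOrderEmb D') :=
      congrArg Subtype.val hpp
    ext i
    have h2 : (p i).succ = (p' i).succ := DFunLike.congr_fun h1 i
    rw [Fin.succ_injective _ h2]
  · intro B
    have hB : ∀ i, B.1 i ≠ 0 := by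
      intro i h0
      obtain ⟨k, hk, _⟩ := B.2.2 i
      rw [h0] at hk
      exact absurd hk (Fin.not_lt_zero k)
    refine ⟨OrderEmbedding.ofStrictMono (fun i => (B.1 i).pred (hB i)) ?_, ?_⟩
    · intro i j hij
      exact Fin.pred_lt_pred_iff.2 (B.1.strictMono hij)
    · apply Subtype.ext
      ext i
      show (((B.1 i).pred (hB i)).succ : Fin (D' + 1)).val = (B.1 i).val
      rw [Fin.succ_pred]

end P4a177s
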