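import Pool.Agent.Lib.P4a177s.Defs

/-!
# Tori on the hypersurface near the vertices of the arrangement

MODULE P4a177s.Chart. PROOF SKETCH. (Compare `Pool/Agent/Lib/P4a177b/LoopA.lean`, where the case of
two variables is done.) The affine map `x ↦ (ℓ_{q 0} x, …, ℓ_{q m} x)` of `ℂ^(m+1)` is bijective
(`lam q ≠ 0`); let `X y` be its inverse, an affine map. The point `X 0` is the vertex, and
`w k := ℓ_k (X 0) ≠ 0` for the `k` not in the range of `q` (`Arr.mem_range_of_form_eq_zero`).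
Let `G y = ∏ k not in range q, ℓ_k (X y)`, `G 0 ≠ 0`. The polynomial map
`Φ y = (y 0 * G y, y 1, …, y m)` has `Φ 0 = 0` and invertible derivative
`(G 0 * dy_0, dy_1, …, dy_m)` at `0`; its local inverse `Ψ` at `0` is `C²`
(`HasStrictFDerivAt.localInverse`, `ContDiffAt.to_localInverse`; over `ℝ` or `ℂ`), with
`Ψ (u, y') = (ψ (u, y'), y')`. Choose `ρ > 0` such that on the closed ball of radius `ρ` around `0`
`Ψ` is `C²`, `Φ (Ψ p) = p`, the derivative of `Ψ` is bounded by `K`, and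
`‖ℓ_k (X (Ψ p)) - w k‖ ≤ ‖w k‖ / 2` (continuity; `Ψ 0 = 0`). Let `0 < r ≤ ρ / 2` and `N₀` such that
`1 / (N₀ * r ^ m) ≤ ρ / 2`. For `N ≥ N₀` put
`x θ = X (Ψ (p θ))`, `p θ = (1 / (N * ∏ i, r e^{I θ_i}), r e^{I θ_0}, …, r e^{I θ_{m-1}})`.
Then `Φ (Ψ (p θ)) = p θ` says `ℓ_{q i.succ} (x θ) = r e^{I θ_i}` and
`ℓ_{q 0} (x θ) * G (..) = 1 / (N * ∏ r e^{I θ_i})`, that is `On N (x θ)`
(split `∏ k, ℓ_k` in the factors of the range of the injective map `q` and the others). The bound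
for the derivative: chain rule, `‖D p‖ ≤ 1 / (N r ^ m) + r ≤ ρ` up to a constant depending only on
`m`, `‖D Ψ‖ ≤ K`, and the linear part of `ℓ_k ∘ X` is a fixed linear map. (If you prefer a smaller
`r` or another norm, adapt; only the statement matters.)
-/

set_option autoImplicit false

namespace P4a177s

open Function
open scoped Real Topology

theorem Arr.exists_local {m D : ℕ} (A : Arr (m + 1) D) (q : Fin (m + 1) → Fin D)
    (hq : A.lam q ≠ 0) :
    ∃ (w : Fin D → ℂ) (Z : (Fin (m + 1) → ℂ) → (Fin (m + 1) → ℂ)),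
      (∀ k, (∀ i, q i ≠ k) → w k ≠ 0) ∧
      ContDiffAt ℂ 2 Z 0 ∧ (∀ k, A.form k (Z 0) = w k) ∧
      (∀ᶠ p in 𝓝 (0 : Fin (m + 1) → ℂ), A.form (q 0) (Z p) *
          ∏ k ∈ Finset.univ.filter (fun k => ∀ i, q i ≠ k), A.form k (Z p) = p 0) ∧
      (∀ᶠ p in 𝓝 (0 : Fin (m + 1) → ℂ), ∀ i : Fin m, A.form (q i.succ) (Z p) = p i.succ) := by
  classical
  set M : Matrix (Fin (m + 1)) (Fin (m + 1)) ℂ := Matrix.of fun i j => (A.a (q i) j : ℂ) with hM
  have hdet : IsUnit M.det := by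
    have h1 : M.det = ((A.lam q : ℤ) : ℂ) := by
      have h2 := RingHom.map_det (Int.castRingHom ℂ) (Matrix.of fun i j => A.a (q i) j)
      exact h2.symm
    rw [h1, isUnit_iff_ne_zero]
    exact_mod_cast hq
  let X : (Fin (m + 1) → ℂ) → (Fin (m + 1) → ℂ) := fun y =>
    M⁻¹.mulVec fun i => y i - (A.c (q i) : ℂ)
  have hX : ∀ y i, A.form (q i) (X y) = y i := by
    intro y i
    have h2 : M.mulVec (M⁻¹.mulVec fun i => y i - (A.c (q i) : ℂ)) =
        fun i => y i - (A.c (q i) : ℂ) := by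
      rw [Matrix.mulVec_mulVec, Matrix.mul_nonsing_inv _ hdet, Matrix.one_mulVec]
    have h3 := congrFun h2 i
    unfold Arr.form
    have h4 : ∑ j, (A.a (q i) j : ℂ) * (M⁻¹.mulVec fun i => y i - (A.c (q i) : ℂ)) j =
        y i - (A.c (q i) : ℂ) := h3
    show ∑ j, (A.a (q i) j : ℂ) * (M⁻¹.mulVec fun i => y i - (A.c (q i) : ℂ)) j + _ = _
    rw [h4]
    ring
  have hXc : ContDiff ℂ 2 X := by
    rw [contDiff_pi]
    intro i
    show ContDiff ℂ 2 fun y : Fin (m + 1) → ℂ => ∑ j, M⁻¹ i j * (y j - (A.c (q j) : ℂ))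
    fun_prop
  have hFc : ∀ k, ContDiff ℂ 2 fun y => A.form k (X y) := by
    intro k
    unfold Arr.form
    have h1 : ∀ j, ContDiff ℂ 2 fun y => X y j := fun j => contDiff_pi.1 hXc j
    exact (ContDiff.sum fun j _ => contDiff_const.mul (h1 j)).add contDiff_const
  set S : Finset (Fin D) := Finset.univ.filter (fun k => ∀ i, q i ≠ k) with hS
  let G : (Fin (m + 1) → ℂ) → ℂ := fun y => ∏ k ∈ S, A.form k (X y)
  have hGc : ContDiff ℂ 2 G := contDiff_prod fun k _ => hFc k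
  have hw : ∀ k, (∀ i, q i ≠ k) → A.form k (X 0) ≠ 0 := by
    intro k hk h0
    obtain ⟨i, hi⟩ := A.mem_range_of_form_eq_zero hq (X 0) (fun i => hX 0 i) k h0
    exact hk i hi
  have hG0 : G 0 ≠ 0 := by
    refine Finset.prod_ne_zero_iff.2 fun k hk => hw k ?_
    exact (Finset.mem_filter.1 hk).2
  let g : Fin (m + 1) → (Fin (m + 1) → ℂ) → ℂ := fun i y => if i = 0 then G y else 1
  have hgc : ∀ i, ContDiff ℂ 2 (g i) := by
    intro i
    by_cases hi : i = 0
    · have : g i = G := by funext y; simp [g, hi]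
      rw [this]; exact hGc
    · have : g i = fun _ => 1 := by funext y; simp [g, hi]
      rw [this]; exact contDiff_const
  have hg0 : ∀ i, g i 0 ≠ 0 := by
    intro i
    by_cases hi : i = 0
    · have : g i 0 = G 0 := by simp [g, hi]
      rw [this]; exact hG0
    · have : g i 0 = 1 := by simp [g, hi]
      rw [this]; exact one_ne_zero
  let Φ : (Fin (m + 1) → ℂ) → (Fin (m + 1) → ℂ) := fun y i => y i * g i y
  have hΦc : ContDiff ℂ 2 Φ := by
    rw [contDiff_pi]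
    intro i
    exact (contDiff_apply ℂ ℂ i).mul (hgc i)
  have hΦ0 : Φ 0 = 0 := by funext i; simp [Φ]
  let e : (Fin (m + 1) → ℂ) ≃L[ℂ] (Fin (m + 1) → ℂ) :=
    ContinuousLinearEquiv.piCongrRight fun i =>
      ContinuousLinearEquiv.unitsEquivAut ℂ (Units.mk0 (g i 0) (hg0 i))
  have hΦd : HasFDerivAt Φ (e : (Fin (m + 1) → ℂ) →L[ℂ] (Fin (m + 1) → ℂ)) 0 := by
    rw [hasFDerivAt_pi']
    intro i
    have h1 : HasFDerivAt (g i) (fderiv ℂ (g i) 0) 0 :=
      ((hgc i).differentiable (by norm_num) 0).hasFDerivAt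
    have h2 : HasFDerivAt (fun y : Fin (m + 1) → ℂ => y i)
        (ContinuousLinearMap.proj (R := ℂ) (φ := fun _ : Fin (m + 1) => ℂ) i) 0 :=
      hasFDerivAt_apply i 0
    have h3 := h2.mul h1
    refine h3.congr_fderiv ?_
    ext v
    simp [e, mul_comm]
  have hcd : ContDiffAt ℂ 2 Φ 0 := hΦc.contDiffAt
  have h20 : (2 : WithTop ℕ∞) ≠ 0 := by norm_num
  set Ψ := hcd.localInverse hΦd h20 with hΨ
  have hΨc : ContDiffAt ℂ 2 Ψ 0 := by
    have := hcd.to_localInverse hΦd h20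
    rwa [hΦ0] at this
  have hΨ0 : Ψ 0 = 0 := by
    have := hcd.localInverse_apply_image hΦd h20
    rwa [hΦ0] at this
  have hΦΨ : ∀ᶠ p in 𝓝 (0 : Fin (m + 1) → ℂ), Φ (Ψ p) = p := by
    have := (hcd.hasStrictFDerivAt' hΦd h20).eventually_right_inverse
    rwa [hΦ0] at this
  refine ⟨fun k => A.form k (X 0), fun p => X (Ψ p), hw, ?_, ?_, ?_, ?_⟩
  · exact (hXc.contDiffAt).comp (0 : Fin (m + 1) → ℂ) hΨc
  · intro k
    show A.form k (X (Ψ 0)) = _
    rw [hΨ0]
  · filter_upwards [hΦΨ] with p hp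
    have h := congrFun hp 0
    rw [hX]
    exact h
  · filter_upwards [hΦΨ] with p hp
    intro i
    have h := congrFun hp i.succ
    rw [hX]
    have h2 : Φ (Ψ p) i.succ = Ψ p i.succ := by simp [Φ, g]
    rw [← h2, h]

/-- The phases of the coordinates of the torus. -/
private noncomputable def torT (m : ℕ) : Fin (m + 1) → (Fin m → ℝ) →L[ℝ] ℝ :=
  Fin.cons (-∑ j, ContinuousLinearMap.proj j) fun j => ContinuousLinearMap.proj j

private theorem torT_zero (m : ℕ) (θ : Fin m → ℝ) : torT m 0 θ = -∑ j, θ j := by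
  simp [torT]

private theorem torT_succ (m : ℕ) (j : Fin m) (θ : Fin m → ℝ) : torT m j.succ θ = θ j := by
  simp [torT]

private theorem torT_single (m : ℕ) (i : Fin (m + 1)) (l : Fin m) :
    ∃ n : ℤ, torT m i (Pi.single l 1) = n ∧ |(n : ℝ)| ≤ 1 := by
  classical
  refine Fin.cases ?_ (fun j => ?_) i
  · refine ⟨-1, ?_, by simp⟩
    rw [torT_zero]
    simp
  · by_cases hj : j = l
    · refine ⟨1, ?_, by simp⟩
      rw [torT_succ, hj]
      simp
    · refine ⟨0, ?_, by simp⟩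
      rw [torT_succ]
      simp [hj]

theorem Arr.exists_chart {m D : ℕ} (A : Arr (m + 1) D) (q : Fin (m + 1) → Fin D)
    (hq : A.lam q ≠ 0) :
    ∃ (r C : ℝ) (w : Fin D → ℂ) (N₀ : ℕ), 0 < r ∧ 0 < N₀ ∧
      (∀ k, (∀ i, q i ≠ k) → w k ≠ 0) ∧
      ∀ N : ℕ, N₀ ≤ N → ∃ x : (Fin m → ℝ) → Fin (m + 1) → ℂ,
        ContDiff ℝ 2 x ∧
        (∀ θ l, x (update θ l (θ l + 2 * π)) = x θ) ∧
        (∀ θ, A.On N (x θ)) ∧
        (∀ θ (i : Fin m), A.form (q i.succ) (x θ) = r * Complex.exp (θ i * Complex.I)) ∧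
        (∀ k, (∀ i, q i ≠ k) → ∀ θ, ‖A.form k (x θ) - w k‖ ≤ ‖w k‖ / 2) ∧
        (∀ k, (∀ i, q i ≠ k) → ∀ θ l,
          ‖fderiv ℝ (fun θ => A.form k (x θ)) θ (Pi.single l 1)‖ ≤ C) := by
  classical
  obtain ⟨w, Z, hw, hZc, hZ0, hZq0, hZq⟩ := A.exists_local q hq
  have hZr : ContDiffAt ℝ 2 Z 0 := hZc.restrict_scalars ℝ
  have hFr : ∀ k, ContDiff ℝ 2 (fun x : Fin (m + 1) → ℂ => A.form k x) := by
    intro k
    unfold Arr.form
    exact (ContDiff.sum fun j _ => contDiff_const.mul (contDiff_apply ℝ ℂ j)).add contDiff_const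
  have hHr : ∀ k, ContDiffAt ℝ 2 (fun p => A.form k (Z p)) 0 := fun k =>
    (hFr k).contDiffAt.comp (0 : Fin (m + 1) → ℂ) hZr
  have e1 : ∀ᶠ p in 𝓝 (0 : Fin (m + 1) → ℂ), ContDiffAt ℝ 2 Z p :=
    hZr.eventually (by norm_num)
  have e2 : ∀ᶠ p in 𝓝 (0 : Fin (m + 1) → ℂ), ∀ k, (∀ i, q i ≠ k) →
      ‖A.form k (Z p) - w k‖ ≤ ‖w k‖ / 2 := by
    rw [Filter.eventually_all]
    intro k
    by_cases hk : ∀ i, q i ≠ k
    · have hc : ContinuousAt (fun p => ‖A.form k (Z p) - w k‖) 0 :=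
        ((hHr k).continuousAt.sub continuousAt_const).norm
      have h0 : ‖A.form k (Z 0) - w k‖ < ‖w k‖ / 2 := by
        rw [hZ0 k, sub_self, norm_zero]
        exact half_pos (norm_pos_iff.2 (hw k hk))
      filter_upwards [hc.eventually (gt_mem_nhds h0)] with p hp _
      exact hp.le
    · exact Filter.Eventually.of_forall fun p h => absurd h hk
  have e3 : ∀ k, ∀ᶠ p in 𝓝 (0 : Fin (m + 1) → ℂ),
      ‖fderiv ℝ (fun p => A.form k (Z p)) p‖ ≤ ‖fderiv ℝ (fun p => A.form k (Z p)) 0‖ + 1 := by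
    intro k
    have hc : ContinuousAt (fun p => ‖fderiv ℝ (fun p => A.form k (Z p)) p‖) 0 :=
      ((hHr k).fderiv_right (m := 1) (by norm_num)).continuousAt.norm
    filter_upwards [hc.eventually (gt_mem_nhds (lt_add_one _))] with p hp
    exact hp.le
  rw [← Filter.eventually_all] at e3
  obtain ⟨ε, hε, hall⟩ := Metric.eventually_nhds_iff.1
    (((((hZq0.and hZq).and e1).and e2).and e3).and
      (e1.and e1))
  set r : ℝ := min ε 1 / 2 with hr
  have hmin : 0 < min ε 1 := lt_min hε one_pos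
  have hr0 : 0 < r := half_pos hmin
  have hr1 : r ≤ 1 := by
    have : min ε 1 ≤ 1 := min_le_right _ _
    rw [hr]; linarith
  have hrε : r < ε := by
    have : min ε 1 ≤ ε := min_le_left _ _
    rw [hr]; linarith
  set K : ℝ := ∑ k, (‖fderiv ℝ (fun p => A.form k (Z p)) 0‖ + 1) with hK
  refine ⟨r, K, w, ⌈(r ^ (m + 1))⁻¹⌉₊ + 1, hr0, Nat.succ_pos _, hw, fun N hN => ?_⟩
  have hrm : 0 < r ^ m := pow_pos hr0 m
  have hNr : (r ^ (m + 1))⁻¹ ≤ (N : ℝ) := by
    refine (Nat.le_ceil _).trans ?_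
    exact_mod_cast (Nat.le_succ _).trans hN
  have hN0 : (0 : ℝ) < N := by
    have : 0 < (r ^ (m + 1))⁻¹ := inv_pos.2 (pow_pos hr0 _)
    linarith
  have hc0 : ((N : ℝ) * r ^ m)⁻¹ ≤ r := by
    rw [inv_le_comm₀ (mul_pos hN0 hrm) hr0, ← div_le_iff₀ hrm]
    refine le_trans (le_of_eq ?_) hNr
    rw [pow_succ, mul_inv, div_eq_mul_inv, mul_comm]
  let c : Fin (m + 1) → ℝ := Fin.cons (((N : ℝ) * r ^ m)⁻¹) fun _ => r
  have hcpos : ∀ i, 0 < c i := by
    intro i
    refine Fin.cases ?_ (fun j => ?_) i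
    · exact inv_pos.2 (mul_pos hN0 hrm)
    · exact hr0
  have hcle : ∀ i, c i ≤ r := by
    intro i
    refine Fin.cases ?_ (fun j => ?_) i
    · exact hc0
    · exact le_refl _
  let E : Fin (m + 1) → (Fin m → ℝ) →L[ℝ] ℂ := fun i => (torT m i).smulRight Complex.I
  have hE : ∀ i θ, E i θ = (torT m i θ : ℂ) * Complex.I := by
    intro i θ
    show torT m i θ • Complex.I = _
    rw [Complex.real_smul]
  let p : (Fin m → ℝ) → Fin (m + 1) → ℂ := fun θ i => (c i : ℂ) * Complex.exp (E i θ)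
  have hexp : ∀ i θ, ‖Complex.exp (E i θ)‖ = 1 := by
    intro i θ
    rw [hE, Complex.norm_exp_ofReal_mul_I]
  have hpn : ∀ θ, ‖p θ‖ ≤ r := by
    intro θ
    rw [pi_norm_le_iff_of_nonneg hr0.le]
    intro i
    show ‖(c i : ℂ) * Complex.exp (E i θ)‖ ≤ r
    rw [norm_mul, hexp, mul_one, Complex.norm_real, Real.norm_of_nonneg (hcpos i).le]
    exact hcle i
  have hpd : ∀ θ, dist (p θ) 0 < ε := by
    intro θ
    rw [dist_zero_right]
    exact (hpn θ).trans_lt hrε
  have hpc : ContDiff ℝ 2 p := by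
    rw [contDiff_pi]
    intro i
    exact contDiff_const.mul ((E i).contDiff.cexp)
  have hpper : ∀ θ l, p (update θ l (θ l + 2 * π)) = p θ := by
    intro θ l
    funext i
    show (c i : ℂ) * Complex.exp (E i _) = (c i : ℂ) * Complex.exp (E i θ)
    congr 1
    rw [Complex.exp_eq_exp_iff_exists_int]
    obtain ⟨n, hn, _⟩ := torT_single m i l
    refine ⟨n, ?_⟩
    have h1 : update θ l (θ l + 2 * π) = θ + (2 * π) • Pi.single l (1 : ℝ) := by
      funext j
      by_cases hj : j = l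
      · subst hj; simp
      · simp [hj]
    rw [hE, hE, h1, map_add, map_smul, hn]
    push_cast
    simp only [smul_eq_mul]
    push_cast
    ring
  have hpder : ∀ θ l, ‖fderiv ℝ p θ (Pi.single l 1)‖ ≤ 1 := by
    intro θ l
    have hd : HasFDerivAt p (ContinuousLinearMap.pi fun i =>
        (c i : ℂ) • (Complex.exp (E i θ) • (E i))) θ := by
      rw [hasFDerivAt_pi]
      intro i
      exact ((E i).hasFDerivAt.cexp).const_mul (c i : ℂ)
    rw [hd.fderiv, pi_norm_le_iff_of_nonneg zero_le_one]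
    intro i
    show ‖(c i : ℂ) • (Complex.exp (E i θ) • (E i (Pi.single l 1)))‖ ≤ 1
    obtain ⟨n, hn, hn1⟩ := torT_single m i l
    rw [norm_smul, norm_smul, hexp, one_mul, hE, hn, norm_mul, Complex.norm_I, mul_one,
      Complex.norm_real, Complex.norm_real, Real.norm_of_nonneg (hcpos i).le]
    calc c i * ‖(n : ℝ)‖ ≤ 1 * 1 :=
          mul_le_mul ((hcle i).trans hr1) hn1 (norm_nonneg _) zero_le_one
      _ = 1 := one_mul 1
  refine ⟨fun θ => Z (p θ), ?_, ?_, ?_, ?_, ?_, ?_⟩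
  · rw [contDiff_iff_contDiffAt]
    intro θ
    exact (hall (hpd θ)).2.1.comp θ hpc.contDiffAt
  · intro θ l
    show Z (p _) = Z (p θ)
    rw [hpper]
  · intro θ
    have h1 := (hall (hpd θ)).1.1.1.1.1
    have h2 := (hall (hpd θ)).1.1.1.1.2
    show (N : ℂ) * ∏ k, A.form k (Z (p θ)) = 1
    rw [← Finset.prod_filter_mul_prod_filter_not Finset.univ (fun k => ∀ i, q i ≠ k)]
    have h3 : ∏ k ∈ Finset.univ.filter (fun k => ¬ ∀ i, q i ≠ k), A.form k (Z (p θ)) =
        ∏ i, A.form (q i) (Z (p θ)) := by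
      have h4 : Finset.univ.filter (fun k => ¬ ∀ i, q i ≠ k) = Finset.univ.image q := by
        ext k
        simp
      rw [h4, Finset.prod_image]
      intro i _ j _ hij
      exact A.injective_of_lam hq hij
    rw [h3, Fin.prod_univ_succ]
    have h5 : ∏ i : Fin m, A.form (q i.succ) (Z (p θ)) =
        (r : ℂ) ^ m * Complex.exp ((∑ j, θ j : ℝ) * Complex.I) := by
      rw [Finset.prod_congr rfl fun i _ => h2 i]
      have h6 : ∀ i : Fin m, p θ i.succ = (r : ℂ) * Complex.exp ((θ i : ℂ) * Complex.I) := by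
        intro i
        show ((c i.succ : ℝ) : ℂ) * Complex.exp (E i.succ θ) = _
        rw [hE, torT_succ]
        rfl
      rw [Finset.prod_congr rfl fun i _ => h6 i, Finset.prod_mul_distrib, Finset.prod_const,
        Finset.card_univ, Fintype.card_fin, ← Complex.exp_sum, ← Finset.sum_mul]
      push_cast
      rfl
    have h7 : p θ 0 = ((N : ℂ) * (r : ℂ) ^ m)⁻¹ *
        Complex.exp (-((∑ j, θ j : ℝ) * Complex.I)) := by
      show ((c 0 : ℝ) : ℂ) * Complex.exp (E 0 θ) = _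
      rw [hE, torT_zero]
      have : c 0 = ((N : ℝ) * r ^ m)⁻¹ := rfl
      rw [this]
      push_cast
      rw [neg_mul]
    have h8 : (N : ℂ) ≠ 0 := by exact_mod_cast hN0.ne'
    have h9 : (r : ℂ) ^ m ≠ 0 := pow_ne_zero _ (by exact_mod_cast hr0.ne')
    have h10 := Complex.exp_ne_zero ((∑ j, θ j : ℝ) * Complex.I)
    rw [h5]
    calc (N : ℂ) * ((∏ k ∈ Finset.univ.filter (fun k => ∀ i, q i ≠ k), A.form k (Z (p θ))) *
          (A.form (q 0) (Z (p θ)) * ((r : ℂ) ^ m * Complex.exp ((∑ j, θ j : ℝ) * Complex.I))))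
        = (N : ℂ) * ((A.form (q 0) (Z (p θ)) *
            ∏ k ∈ Finset.univ.filter (fun k => ∀ i, q i ≠ k), A.form k (Z (p θ))) *
          ((r : ℂ) ^ m * Complex.exp ((∑ j, θ j : ℝ) * Complex.I))) := by ring
      _ = 1 := by
        rw [h1, h7, Complex.exp_neg]
        field_simp
  · intro θ i
    have h2 := (hall (hpd θ)).1.1.1.1.2
    show A.form (q i.succ) (Z (p θ)) = _
    rw [h2 i]
    show ((c i.succ : ℝ) : ℂ) * Complex.exp (E i.succ θ) = _
    rw [hE, torT_succ]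
    rfl
  · intro k hk θ
    exact (hall (hpd θ)).1.1.2 k hk
  · intro k hk θ l
    have h3 := (hall (hpd θ)).1.2 k
    have h4 : DifferentiableAt ℝ (fun y => A.form k (Z y)) (p θ) := by
      have h5 := (hall (hpd θ)).2.1
      have h6 : ContDiffAt ℝ 2 (fun y => A.form k (Z y)) (p θ) :=
        (hFr k).contDiffAt.comp (p θ) h5
      exact h6.differentiableAt (by norm_num)
    have h5 : DifferentiableAt ℝ p θ := (hpc.differentiable (by norm_num)) θ
    have h6 : fderiv ℝ (fun θ => A.form k (Z (p θ))) θ =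
        (fderiv ℝ (fun y => A.form k (Z y)) (p θ)).comp (fderiv ℝ p θ) :=
      fderiv_comp θ h4 h5
    rw [h6, ContinuousLinearMap.comp_apply]
    refine (ContinuousLinearMap.le_opNorm _ _).trans ?_
    have h7 : ‖fderiv ℝ (fun p => A.form k (Z p)) 0‖ + 1 ≤ K :=
      Finset.single_le_sum (f := fun k => ‖fderiv ℝ (fun p => A.form k (Z p)) 0‖ + 1)
        (fun i _ => add_nonneg (norm_nonneg _) zero_le_one) (Finset.mem_univ k)
    calc _ ≤ K * 1 := mul_le_mul (h3.trans h7) (hpder θ l) (norm_nonneg _)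
            (le_trans (norm_nonneg _) (h3.trans h7))
      _ = K := mul_one K

end P4a177s
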