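import Pool.Agent.Lib.P4a177s.Defs

/-!
# A unitriangular matrix of intersection numbers
-/

set_option autoImplicit false

namespace P4a177s

variable {n D : ℕ}

/-- The exponent of `l_{q s}` in the `i`-th entry of the symbol of `B`. -/
def Arr.g {A : Arr n D} (B q : A.Idx) (i s : Fin n) : ℤ :=
  (if B.1 i = q.1 s then 1 else 0) - (if Arr.f B i = q.1 s then 1 else 0)

/-- The matrix of the leading coefficients of the regulators. -/
noncomputable def Arr.cmat (A : Arr n D) : Matrix A.Idx A.Idx ℤ :=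
  Matrix.of fun B q => (Matrix.of fun i s => Arr.g B q i s).det

theorem Arr.cmat_self (A : Arr n D) (B : A.Idx) : A.cmat B B = 1 := by
  have h : (Matrix.of fun i s => Arr.g B B i s) = (1 : Matrix (Fin n) (Fin n) ℤ) := by
    ext i s
    rw [Matrix.of_apply, Matrix.one_apply]
    unfold Arr.g
    rw [if_neg (Arr.f_ne B i s), sub_zero]
    by_cases his : i = s
    · subst his
      simp
    · rw [if_neg his, if_neg fun h => his (B.1.injective h)]
  show (Matrix.of fun i s => Arr.g B B i s).det = 1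
  rw [h, Matrix.det_one]

theorem Arr.g_ne_zero {A : Arr n D} {B q : A.Idx} {i s : Fin n} (h : Arr.g B q i s ≠ 0) :
    q.1 s = B.1 i ∨ q.1 s < B.1 i := by
  unfold Arr.g at h
  by_cases h1 : B.1 i = q.1 s
  · exact Or.inl h1.symm
  · by_cases h2 : Arr.f B i = q.1 s
    · exact Or.inr (h2 ▸ Arr.f_lt B i)
    · rw [if_neg h1, if_neg h2, sub_zero] at h
      exact absurd rfl h

theorem Arr.cmat_ne_zero {A : Arr n D} {B q : A.Idx} (h : A.cmat B q ≠ 0) :
    ∃ σ : Equiv.Perm (Fin n), ∀ s, q.1 s = B.1 (σ s) ∨ q.1 s < B.1 (σ s) := by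
  have h' : (Matrix.of fun i s => Arr.g B q i s).det ≠ 0 := h
  rw [Matrix.det_apply] at h'
  obtain ⟨σ, _, hσ⟩ := Finset.exists_ne_zero_of_sum_ne_zero h'
  refine ⟨σ, fun s => Arr.g_ne_zero ?_⟩
  intro h0
  apply hσ
  rw [Finset.prod_eq_zero (Finset.mem_univ s) (by simpa using h0), smul_zero]

/-- The weight. -/
def Arr.wt {A : Arr n D} (B : A.Idx) : ℕ := ∑ i, (B.1 i : ℕ)

theorem Arr.wt_le {A : Arr n D} {B q : A.Idx} (h : A.cmat B q ≠ 0) : Arr.wt q ≤ Arr.wt B := by
  obtain ⟨σ, hσ⟩ := Arr.cmat_ne_zero h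
  unfold Arr.wt
  rw [← Equiv.sum_comp σ fun i => (B.1 i : ℕ)]
  refine Finset.sum_le_sum fun s _ => ?_
  rcases hσ s with h1 | h1
  · rw [h1]
  · exact le_of_lt h1

theorem Arr.eq_of_wt {A : Arr n D} {B q : A.Idx} (h : A.cmat B q ≠ 0)
    (hw : Arr.wt q = Arr.wt B) : B = q := by
  obtain ⟨σ, hσ⟩ := Arr.cmat_ne_zero h
  unfold Arr.wt at hw
  rw [← Equiv.sum_comp σ fun i => (B.1 i : ℕ)] at hw
  have hle : ∀ s ∈ Finset.univ, (q.1 s : ℕ) ≤ (B.1 (σ s) : ℕ) := by
    intro s _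
    rcases hσ s with h1 | h1
    · rw [h1]
    · exact le_of_lt h1
  have heq := (Finset.sum_eq_sum_iff_of_le hle).1 hw
  have hr : Set.range q.1 = Set.range B.1 := by
    ext k
    constructor
    · rintro ⟨s, rfl⟩
      exact ⟨σ s, (Fin.ext (heq s (Finset.mem_univ s))).symm⟩
    · rintro ⟨i, rfl⟩
      refine ⟨σ.symm i, Fin.ext ?_⟩
      have := heq (σ.symm i) (Finset.mem_univ _)
      rwa [Equiv.apply_symm_apply] at this
  have hqB : q.1 = B.1 := by
    apply DFunLike.coe_injective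
    exact (StrictMono.range_inj q.1.strictMono B.1.strictMono).1 hr
  exact Subtype.ext hqB.symm

theorem Arr.det_cmat (A : Arr n D) : A.cmat.det = 1 := by
  rw [Matrix.det_apply, Finset.sum_eq_single (1 : Equiv.Perm A.Idx)]
  · simp [Arr.cmat_self]
  · intro τ _ hτ
    rw [smul_eq_zero_iff_eq, Finset.prod_eq_zero_iff]
    by_contra hne
    push Not at hne
    apply hτ
    have hle : ∀ B ∈ Finset.univ, Arr.wt B ≤ Arr.wt (τ B) := fun B hB => Arr.wt_le (hne B hB)
    have hs : ∑ B, Arr.wt B = ∑ B, Arr.wt (τ B) := (Equiv.sum_comp τ Arr.wt).symm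
    have heq := (Finset.sum_eq_sum_iff_of_le hle).1 hs
    ext B
    rw [Equiv.Perm.one_apply]
    exact Arr.eq_of_wt (hne B (Finset.mem_univ B)) (heq B (Finset.mem_univ B))
  · intro h
    exact absurd (Finset.mem_univ _) h

end P4a177s
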