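import Mathlib

/-!
# Determinants of matrices with large leading term

MODULE P4a177s.DetAsymp. The determinant is continuous and nonzero at the real matrix
`-c`, so there is `δ > 0` such that `M'.det ≠ 0` if all `|M' i j + c i j| < δ`.
For `T` with `C < δ * T * κ` apply this to `M' = (T * κ)⁻¹ • M`.
-/

set_option autoImplicit false

namespace P4a177s

theorem det_ne_zero_of_asymp {ι : Type*} [Fintype ι] [DecidableEq ι] (c : Matrix ι ι ℤ)
    (hc : c.det ≠ 0) (κ : ℝ) (hκ : 0 < κ) (C : ℝ) : ∃ T₀ : ℝ, ∀ T : ℝ, T₀ ≤ T →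
      ∀ M : Matrix ι ι ℝ, (∀ i j, |M i j + T * κ * (c i j : ℝ)| ≤ C) → M.det ≠ 0 := by
  classical
  -- the determinant of `-c`
  let c' : ι → ι → ℝ := fun i j => -(c i j : ℝ)
  have hc' : (Matrix.of c').det ≠ 0 := by
    have h1 : Matrix.of c' = -((Int.castRingHom ℝ).mapMatrix c) := by
      ext i j
      simp [c']
    rw [h1, Matrix.det_neg, ← RingHom.map_det]
    have h2 : ((Int.castRingHom ℝ) c.det) ≠ 0 := by
      simpa using hc
    exact mul_ne_zero (pow_ne_zero _ (by norm_num)) h2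
  have hcont : Continuous fun M : ι → ι → ℝ => (Matrix.of M).det :=
    Continuous.matrix_det continuous_id
  have hopen : IsOpen {M : ι → ι → ℝ | (Matrix.of M).det ≠ 0} :=
    isOpen_ne.preimage hcont
  obtain ⟨δ, hδ, hball⟩ := Metric.isOpen_iff.1 hopen c' hc'
  have hball' : ∀ M' : ι → ι → ℝ, (∀ i j, |M' i j + (c i j : ℝ)| < δ) → (Matrix.of M').det ≠ 0 := by
    intro M' hM'
    apply hball
    rw [Metric.mem_ball, dist_pi_lt_iff hδ]
    intro i
    rw [dist_pi_lt_iff hδ]
    intro j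
    rw [Real.dist_eq]
    have := hM' i j
    simpa [c'] using this
  refine ⟨(|C| + 1) / (δ * κ), fun T hT M hM => ?_⟩
  have hδκ : 0 < δ * κ := mul_pos hδ hκ
  have hTpos : 0 < T := lt_of_lt_of_le (div_pos (by positivity) hδκ) hT
  have hTκ : 0 < T * κ := mul_pos hTpos hκ
  have hC : C < δ * (T * κ) := by
    have h1 : |C| + 1 ≤ T * (δ * κ) := by
      rwa [div_le_iff₀ hδκ] at hT
    have h2 := le_abs_self C
    nlinarith
  have h3 : (Matrix.of fun i j => (T * κ)⁻¹ * M i j).det ≠ 0 := by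
    apply hball'
    intro i j
    have h4 : (T * κ)⁻¹ * M i j + (c i j : ℝ) = (T * κ)⁻¹ * (M i j + T * κ * (c i j : ℝ)) := by
      field_simp
    rw [h4, abs_mul, abs_of_pos (inv_pos.2 hTκ), inv_mul_lt_iff₀ hTκ]
    refine lt_of_le_of_lt (hM i j) ?_
    linarith
  intro h0
  apply h3
  have h5 : (Matrix.of fun i j => (T * κ)⁻¹ * M i j) = (T * κ)⁻¹ • M := by
    ext i j
    simp
  rw [h5, Matrix.det_smul, h0, mul_zero]

end P4a177s
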