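import Mathlib

/-!
# The determinant of a matrix with large leading term, with remainder
-/

set_option autoImplicit false

namespace P4a177s

open Matrix

theorem contDiff_det {ι : Type*} [Fintype ι] [DecidableEq ι] :
    ContDiff ℝ 1 fun M : ι → ι → ℝ => (Matrix.of M).det := by
  simp_rw [Matrix.det_apply']
  refine ContDiff.sum fun σ _ => contDiff_const.mul ?_
  refine contDiff_prod fun i _ => ?_
  exact contDiff_apply_apply ℝ ℝ (σ i) i

theorem det_limit {ι : Type*} [Fintype ι] [DecidableEq ι] (c : Matrix ι ι ℤ)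
    (hc : c.det = 1) (κ : ℝ) (hκ : 0 < κ) (C : ℝ) : ∃ C' T₀ : ℝ, ∀ T : ℝ, T₀ ≤ T →
      ∀ M : Matrix ι ι ℝ, (∀ i j, |M i j + T * κ * (c i j : ℝ)| ≤ C) →
        |M.det / (-(κ * T)) ^ Fintype.card ι - 1| ≤ C' / T := by
  classical
  have hlip : LocallyLipschitz fun M : ι → ι → ℝ => (Matrix.of M).det :=
    contDiff_det.locallyLipschitz
  obtain ⟨K, t, ht, hKt⟩ := hlip fun i j => (c i j : ℝ)
  obtain ⟨δ, hδ, hball⟩ := Metric.mem_nhds_iff.1 ht
  have hdet : (Matrix.of fun i j => (c i j : ℝ)).det = 1 := by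
    have h1 : (Matrix.of fun i j => (c i j : ℝ)) = (Int.castRingHom ℝ).mapMatrix c := by
      ext i j
      simp
    rw [h1, ← RingHom.map_det, hc]
    simp
  refine ⟨K * |C| / κ, (|C| + 1) / (δ * κ), fun T hT M hM => ?_⟩
  have hδκ : 0 < δ * κ := mul_pos hδ hκ
  have hTpos : 0 < T := lt_of_lt_of_le (div_pos (by positivity) hδκ) hT
  have hTκ : 0 < κ * T := mul_pos hκ hTpos
  have hC : |C| / (κ * T) < δ := by
    rw [div_lt_iff₀ hTκ]
    have h1 : |C| + 1 ≤ T * (δ * κ) := by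
      rwa [div_le_iff₀ hδκ] at hT
    nlinarith
  set F : ι → ι → ℝ := fun i j => (-(κ * T))⁻¹ * M i j with hF
  have hFc : dist F (fun i j => (c i j : ℝ)) ≤ |C| / (κ * T) := by
    rw [dist_pi_le_iff (by positivity)]
    intro i
    rw [dist_pi_le_iff (by positivity)]
    intro j
    rw [Real.dist_eq, hF]
    have h1 : (-(κ * T))⁻¹ * M i j - (c i j : ℝ) = -((κ * T)⁻¹ * (M i j + T * κ * (c i j : ℝ))) := by
      field_simp
      ring
    show |(-(κ * T))⁻¹ * M i j - (c i j : ℝ)| ≤ _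
    rw [h1, abs_neg, abs_mul, abs_of_pos (inv_pos.2 hTκ), inv_mul_eq_div]
    exact div_le_div_of_nonneg_right ((hM i j).trans (le_abs_self C)) hTκ.le
  have h1 := hKt.dist_le_mul F (hball (Metric.mem_ball.2 (lt_of_le_of_lt hFc hC)))
    (fun i j => (c i j : ℝ)) (hball (Metric.mem_ball_self hδ))
  rw [hdet, Real.dist_eq] at h1
  have h2 : (Matrix.of F).det = M.det / (-(κ * T)) ^ Fintype.card ι := by
    have h3 : Matrix.of F = (-(κ * T))⁻¹ • M := by
      ext i j
      simp [hF]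
    rw [h3, Matrix.det_smul, inv_pow, inv_mul_eq_div]
  rw [h2] at h1
  refine h1.trans ?_
  have h4 : (K : ℝ) * dist F (fun i j => (c i j : ℝ)) ≤ K * (|C| / (κ * T)) :=
    mul_le_mul_of_nonneg_left hFc K.2
  refine h4.trans (le_of_eq ?_)
  field_simp

end P4a177s
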