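import Pool.Agent.Lib.P4a177h.RegMul
import Pool.Agent.Lib.P4a177h.BLcore

/-!
# The asymptotic behaviour of a regulator integral
-/

set_option autoImplicit false

namespace P4a177s

open P4a177h Function MeasureTheory
open scoped Real

/-- the partial derivatives of a `C²` function of period `2π` are periodic -/
theorem fderiv_update_periodic {d : ℕ} (Φ : (Fin d → ℝ) → ℂ)
    (hper : ∀ θ l, Φ (update θ l (θ l + 2 * π)) = Φ θ) (θ : Fin d → ℝ) (l i : Fin d) :
    fderiv ℝ Φ (update θ l (θ l + 2 * π)) (Pi.single i 1) = fderiv ℝ Φ θ (Pi.single i 1) := by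
  have h1 : ∀ θ : Fin d → ℝ, update θ l (θ l + 2 * π) = θ + Pi.single l (2 * π) := by
    intro θ
    funext j
    by_cases h : j = l
    · subst h
      simp
    · simp [h]
  have h2 : (fun θ => Φ (θ + Pi.single l (2 * π))) = Φ := by
    funext θ
    rw [← h1 θ, hper]
  rw [h1 θ, ← fderiv_comp_add_right, h2]

/-- the closed form `W + dΦ` -/
noncomputable def mkForm {d : ℕ} (W : Fin d → ℤ) (Φ : (Fin d → ℝ) → ℂ) (hΦ : ContDiff ℝ 2 Φ)
    (hper : ∀ θ l, Φ (update θ l (θ l + 2 * π)) = Φ θ) : CForm d where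
  toFun := fun θ l => (W l : ℂ) + fderiv ℝ Φ θ (Pi.single l 1)
  smooth := fun i => by
    refine contDiff_const.add ?_
    have h : ContDiff ℝ 1 (fderiv ℝ Φ) := hΦ.fderiv_right (by norm_num)
    exact h.clm_apply contDiff_const
  periodic := fun θ l i => by
    rw [fderiv_update_periodic Φ hper]
  closed := fun θ i j => by
    have hd : ∀ i : Fin d, fderiv ℝ (fun θ => (W i : ℂ) + fderiv ℝ Φ θ (Pi.single i 1)) θ =
        (fderiv ℝ (fderiv ℝ Φ) θ).flip (Pi.single i 1) := by
      intro i
      rw [fderiv_const_add]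
      have h : DifferentiableAt ℝ (fderiv ℝ Φ) θ :=
        (hΦ.fderiv_right (m := 1) (by norm_num)).differentiable one_ne_zero θ
      rw [fderiv_clm_apply h (differentiableAt_const _)]
      ext v
      simp
    rw [hd j, hd i]
    simp only [ContinuousLinearMap.flip_apply]
    have hs : IsSymmSndFDerivAt ℝ Φ θ :=
      hΦ.contDiffAt.isSymmSndFDerivAt (by simp)
    exact hs _ _

theorem integral_det_exact {d : ℕ} (p : Fin d) (ω : Fin d → CForm d) (Φ : (Fin d → ℝ) → ℂ)
    (hΦ : ContDiff ℝ 2 Φ) (hper : ∀ θ l, Φ (update θ l (θ l + 2 * π)) = Φ θ) :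
    ∫ θ in box d, (Matrix.of fun i l => if i = p then fderiv ℝ Φ θ (Pi.single l 1) else
      (ω i).toFun θ l : Matrix (Fin d) (Fin d) ℂ).det = 0 := by
  have hc : ∀ l, Continuous fun θ => fderiv ℝ Φ θ (Pi.single l 1) := fun l =>
    (hΦ.continuous_fderiv (by norm_num)).clm_apply continuous_const
  have hder : ∀ θ l, HasDerivAt (fun s => Φ (update θ l s)) (fderiv ℝ Φ θ (Pi.single l 1))
      (θ l) := by
    intro θ l
    have h1 : HasFDerivAt Φ (fderiv ℝ Φ θ) (update θ l (θ l)) := by
      rw [update_eq_self]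
      exact (hΦ.differentiable (by norm_num) θ).hasFDerivAt
    exact h1.comp_hasDerivAt (θ l) (hasDerivAt_update θ l (θ l))
  have hre := det_exact p ω (fun θ => (Φ θ).re) (fun θ l => (fderiv ℝ Φ θ (Pi.single l 1)).re)
    (Complex.continuous_re.comp hΦ.continuous) (fun l => Complex.continuous_re.comp (hc l))
    (fun θ l => (Complex.reCLM.hasFDerivAt.comp_hasDerivAt (θ l) (hder θ l)))
    (fun θ l => by rw [hper])
  have him := det_exact p ω (fun θ => (Φ θ).im) (fun θ l => (fderiv ℝ Φ θ (Pi.single l 1)).im)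
    (Complex.continuous_im.comp hΦ.continuous) (fun l => Complex.continuous_im.comp (hc l))
    (fun θ l => (Complex.imCLM.hasFDerivAt.comp_hasDerivAt (θ l) (hder θ l)))
    (fun θ l => by rw [hper])
  have hcω : ∀ (i l : Fin d), Continuous fun θ => (ω i).toFun θ l :=
    fun i l => ((ω i).smooth l).continuous
  have hcont : ∀ f : (Fin d → ℝ) → Fin d → ℂ, (∀ l, Continuous fun θ => f θ l) →
      Continuous fun θ => (Matrix.of fun i l => if i = p then f θ l else
        (ω i).toFun θ l : Matrix (Fin d) (Fin d) ℂ).det := by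
    intro f hf
    refine Continuous.matrix_det ?_
    refine continuous_pi fun i => continuous_pi fun l => ?_
    simp only [Matrix.of_apply]
    split_ifs
    · exact hf l
    · exact hcω i l
  have hpt : ∀ θ, (Matrix.of fun i l => if i = p then fderiv ℝ Φ θ (Pi.single l 1) else
      (ω i).toFun θ l : Matrix (Fin d) (Fin d) ℂ).det =
      (Matrix.of fun i l => if i = p then (((fderiv ℝ Φ θ (Pi.single l 1)).re : ℝ) : ℂ) else
      (ω i).toFun θ l : Matrix (Fin d) (Fin d) ℂ).det +
      Complex.I * (Matrix.of fun i l => if i = p then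
        (((fderiv ℝ Φ θ (Pi.single l 1)).im : ℝ) : ℂ) else
      (ω i).toFun θ l : Matrix (Fin d) (Fin d) ℂ).det := by
    intro θ
    set M : Matrix (Fin d) (Fin d) ℂ := Matrix.of fun i l => (ω i).toFun θ l with hM
    have hu : ∀ f : Fin d → ℂ, (Matrix.of fun i l => if i = p then f l else
        (ω i).toFun θ l : Matrix (Fin d) (Fin d) ℂ) = M.updateRow p f := by
      intro f
      ext i l
      by_cases h : i = p
      · subst h
        simp
      · simp [h, hM]
    rw [hu (fun l => fderiv ℝ Φ θ (Pi.single l 1)),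
      hu (fun l => (((fderiv ℝ Φ θ (Pi.single l 1)).re : ℝ) : ℂ)),
      hu (fun l => (((fderiv ℝ Φ θ (Pi.single l 1)).im : ℝ) : ℂ)),
      ← Matrix.det_updateRow_smul, ← Matrix.det_updateRow_add]
    congr 2
    funext l
    simp only [Pi.add_apply, Pi.smul_apply, smul_eq_mul]
    rw [mul_comm]
    exact (Complex.re_add_im _).symm
  simp only [hpt]
  rw [integral_add, integral_const_mul, hre, him, mul_zero, add_zero]
  · exact ((hcont _ fun l => Complex.continuous_ofReal.comp
      (Complex.continuous_re.comp (hc l))).continuousOn).integrableOn_compact isCompact_Icc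
  · exact ((continuous_const.mul (hcont _ fun l => Complex.continuous_ofReal.comp
      (Complex.continuous_im.comp (hc l)))).continuousOn).integrableOn_compact isCompact_Icc

theorem integral_det {d : ℕ} (W : Fin d → Fin d → ℤ) (Φ : Fin d → (Fin d → ℝ) → ℂ)
    (hΦ : ∀ i, ContDiff ℝ 2 (Φ i))
    (hper : ∀ i θ l, Φ i (update θ l (θ l + 2 * π)) = Φ i θ) :
    ∫ θ in box d, (Matrix.of fun i l => (W i l : ℂ) + fderiv ℝ (Φ i) θ (Pi.single l 1) :
      Matrix (Fin d) (Fin d) ℂ).det = (2 * π) ^ d * ((Matrix.of W).det : ℤ) := by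
  classical
  -- continuity
  have hcont : ∀ (Φ : Fin d → (Fin d → ℝ) → ℂ), (∀ i, ContDiff ℝ 2 (Φ i)) →
      Continuous fun θ => (Matrix.of fun i l => (W i l : ℂ) + fderiv ℝ (Φ i) θ (Pi.single l 1) :
        Matrix (Fin d) (Fin d) ℂ).det := by
    intro Φ hΦ
    refine Continuous.matrix_det ?_
    refine continuous_pi fun i => continuous_pi fun l => ?_
    simp only [Matrix.of_apply]
    exact continuous_const.add
      (((hΦ i).continuous_fderiv (by norm_num)).clm_apply continuous_const)
  -- replace one potential by zero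
  have hstep : ∀ (Φ : Fin d → (Fin d → ℝ) → ℂ), (∀ i, ContDiff ℝ 2 (Φ i)) →
      (∀ i θ l, Φ i (update θ l (θ l + 2 * π)) = Φ i θ) → ∀ p : Fin d,
      ∫ θ in box d, (Matrix.of fun i l => (W i l : ℂ) + fderiv ℝ (Φ i) θ (Pi.single l 1) :
        Matrix (Fin d) (Fin d) ℂ).det =
      ∫ θ in box d, (Matrix.of fun i l => (W i l : ℂ) +
        fderiv ℝ (update Φ p (fun _ => (0 : ℂ)) i) θ (Pi.single l 1) :
        Matrix (Fin d) (Fin d) ℂ).det := by
    intro Φ hΦ hper p
    have h0 := integral_det_exact p (fun i => mkForm (W i) (Φ i) (hΦ i) (hper i)) (Φ p) (hΦ p)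
      (hper p)
    have hpt : ∀ θ, (Matrix.of fun i l => (W i l : ℂ) + fderiv ℝ (Φ i) θ (Pi.single l 1) :
        Matrix (Fin d) (Fin d) ℂ).det =
        (Matrix.of fun i l => (W i l : ℂ) +
        fderiv ℝ (update Φ p (fun _ => (0 : ℂ)) i) θ (Pi.single l 1) :
        Matrix (Fin d) (Fin d) ℂ).det +
        (Matrix.of fun i l => if i = p then fderiv ℝ (Φ p) θ (Pi.single l 1) else
      (mkForm (W i) (Φ i) (hΦ i) (hper i)).toFun θ l : Matrix (Fin d) (Fin d) ℂ).det := by
      intro θ
      set M : Matrix (Fin d) (Fin d) ℂ :=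
        Matrix.of fun i l => (W i l : ℂ) + fderiv ℝ (Φ i) θ (Pi.single l 1) with hM
      have e1 : (Matrix.of fun i l => (W i l : ℂ) +
          fderiv ℝ (update Φ p (fun _ => (0 : ℂ)) i) θ (Pi.single l 1) :
          Matrix (Fin d) (Fin d) ℂ) = M.updateRow p (fun l => (W p l : ℂ)) := by
        ext i l
        by_cases h : i = p
        · subst h
          simp
        · simp [h, hM]
      have e2 : (Matrix.of fun i l => if i = p then fderiv ℝ (Φ p) θ (Pi.single l 1) else
          (mkForm (W i) (Φ i) (hΦ i) (hper i)).toFun θ l : Matrix (Fin d) (Fin d) ℂ) =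
          M.updateRow p (fun l => fderiv ℝ (Φ p) θ (Pi.single l 1)) := by
        ext i l
        by_cases h : i = p
        · subst h
          simp
        · simp [h, hM, mkForm]
      rw [e1, e2, ← Matrix.det_updateRow_add]
      congr 1
      ext i l
      by_cases h : i = p
      · subst h
        simp [hM]
      · simp [Matrix.updateRow_ne h]
    simp only [hpt]
    rw [integral_add, h0, add_zero]
    · refine ((hcont (update Φ p fun _ => 0) fun i => ?_).continuousOn).integrableOn_compact
        isCompact_Icc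
      by_cases h : i = p
      · subst h
        simp only [update_self]
        exact contDiff_const
      · rw [update_of_ne h]
        exact hΦ i
    · refine (Continuous.continuousOn (Continuous.matrix_det ?_)).integrableOn_compact
        isCompact_Icc
      refine continuous_pi fun i => continuous_pi fun l => ?_
      simp only [Matrix.of_apply]
      split_ifs
      · exact ((hΦ p).continuous_fderiv (by norm_num)).clm_apply continuous_const
      · exact ((mkForm (W i) (Φ i) (hΦ i) (hper i)).smooth l).continuous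
  -- kill all the potentials
  have hall : ∀ s : Finset (Fin d),
      ∫ θ in box d, (Matrix.of fun i l => (W i l : ℂ) + fderiv ℝ (Φ i) θ (Pi.single l 1) :
        Matrix (Fin d) (Fin d) ℂ).det =
      ∫ θ in box d, (Matrix.of fun i l => (W i l : ℂ) +
        fderiv ℝ (if i ∈ s then (fun _ => (0 : ℂ)) else Φ i) θ (Pi.single l 1) :
        Matrix (Fin d) (Fin d) ℂ).det := by
    intro s
    induction s using Finset.induction_on with
    | empty => simp
    | insert p s hp ih =>
      rw [ih, hstep (fun i => if i ∈ s then (fun _ => (0 : ℂ)) else Φ i) ?_ ?_ p]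
      · have : (update (fun i => if i ∈ s then (fun _ => (0 : ℂ)) else Φ i) p
            (fun _ => (0 : ℂ))) = fun i => if i ∈ insert p s then (fun _ => (0 : ℂ)) else Φ i := by
          funext i
          by_cases h : i = p
          · subst h
            simp
          · simp [h]
        rw [this]
      · intro i
        by_cases h : i ∈ s
        · simp only [h, if_true]
          exact contDiff_const
        · simp only [h, if_false]
          exact hΦ i
      · intro i θ l
        by_cases h : i ∈ s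
        · simp only [h, if_true]
        · simp only [h, if_false]
          exact hper i θ l
  rw [hall Finset.univ]
  have : ∀ θ : Fin d → ℝ, (Matrix.of fun i l => (W i l : ℂ) +
        fderiv ℝ (if i ∈ (Finset.univ : Finset (Fin d)) then (fun _ => (0 : ℂ)) else Φ i) θ
          (Pi.single l 1) : Matrix (Fin d) (Fin d) ℂ).det = (((Matrix.of W).det : ℤ) : ℂ) := by
    intro θ
    have h1 : (Matrix.of fun i l => (W i l : ℂ) +
        fderiv ℝ (if i ∈ (Finset.univ : Finset (Fin d)) then (fun _ => (0 : ℂ)) else Φ i) θ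
          (Pi.single l 1) : Matrix (Fin d) (Fin d) ℂ) =
        (Int.castRingHom ℂ).mapMatrix (Matrix.of W) := by
      ext i l
      simp
    rw [h1, ← RingHom.map_det]
    simp
  simp only [this]
  rw [setIntegral_const]
  have hvol : (volume : Measure (Fin d → ℝ)).real (box d) = (2 * π) ^ d := by
    rw [box, Measure.real, Real.volume_Icc_pi]
    simp [Real.pi_pos.le]
  rw [hvol, Complex.real_smul]
  push_cast
  ring

/-- a determinant with bounded entries is bounded -/
theorem norm_det_le {d : ℕ} (M : Matrix (Fin d) (Fin d) ℂ) (B : ℝ) (h : ∀ i l, ‖M i l‖ ≤ B) :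
    ‖M.det‖ ≤ (Nat.factorial d : ℝ) * B ^ d := by
  have := Matrix.det_le (A := M) (abv := IsAbsoluteValue.toAbsoluteValue (norm : ℂ → ℝ)) (x := B) h
  simpa using this

theorem regMatrix_integral {m : ℕ} {R : Type} [CommRing R] (γ : Torus m R)
    (a : Fin (m + 1) → Rˣ) (W : Fin (m + 1) → Fin m → ℤ) (Ψ : Fin (m + 1) → (Fin m → ℝ) → ℂ)
    (h2 : ∀ k, ContDiff ℝ 2 (Ψ k))
    (hper : ∀ k θ l, Ψ k (update θ l (θ l + 2 * π)) = Ψ k θ)
    (hrow : ∀ k θ l, dlogRow γ (a k) θ l = (W k l : ℂ) + fderiv ℝ (Ψ k) θ (Pi.single l 1))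
    (k : Fin (m + 1)) :
    ∫ θ in box m, (regMatrix γ a k θ).det = (2 * π) ^ m *
      ((Matrix.of fun i => W (k.succAbove i)).det : ℤ) := by
  have hre : ∀ (i : Fin (m + 1)) (θ : Fin m → ℝ) (l : Fin m),
      fderiv ℝ (fun θ => (((Ψ i θ).re : ℝ) : ℂ)) θ (Pi.single l 1) =
        (((fderiv ℝ (Ψ i) θ (Pi.single l 1)).re : ℝ) : ℂ) := by
    intro i θ l
    have h : HasFDerivAt (fun θ => (((Ψ i θ).re : ℝ) : ℂ))
        ((Complex.ofRealCLM.comp Complex.reCLM).comp (fderiv ℝ (Ψ i) θ)) θ :=
      (Complex.ofRealCLM.comp Complex.reCLM).hasFDerivAt.comp θ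
        ((h2 i).differentiable (by norm_num) θ).hasFDerivAt
    rw [h.fderiv]
    simp
  rw [← integral_det (fun i => W (k.succAbove i))
    (fun i => if (i : ℕ) < k then (fun θ => (((Ψ (k.succAbove i) θ).re : ℝ) : ℂ)) else
      Ψ (k.succAbove i))]
  · refine integral_congr_ae (Filter.Eventually.of_forall fun θ => ?_)
    simp only
    congr 1
    ext i l
    simp only [regMatrix, Matrix.of_apply]
    by_cases h : (i : ℕ) < k
    · simp only [h, if_true]
      rw [hrow, hre]
      simp
    · simp only [h, if_false]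
      rw [hrow]
  · intro i
    by_cases h : (i : ℕ) < k
    · simp only [h, if_true]
      exact Complex.ofRealCLM.contDiff.comp (Complex.reCLM.contDiff.comp (h2 _))
    · simp only [h, if_false]
      exact h2 _
  · intro i θ l
    by_cases h : (i : ℕ) < k
    · simp only [h, if_true]
      rw [hper]
    · simp only [h, if_false]
      rw [hper]

theorem regFun_asymp (m : ℕ) (C : ℝ) : ∃ C' : ℝ, ∀ (R : Type) [CommRing R] (γ : Torus m R)
    (a : Fin (m + 1) → Rˣ) (T : ℝ) (e : Fin (m + 1) → ℤ) (W : Fin (m + 1) → Fin m → ℤ)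
    (Ψ : Fin (m + 1) → (Fin m → ℝ) → ℂ),
    (∀ k θ, |Real.log ‖γ.emb θ (a k : R)‖ + e k * T| ≤ C) →
    (∀ k l, |(W k l : ℝ)| ≤ C) →
    (∀ k, ContDiff ℝ 2 (Ψ k)) →
    (∀ k θ l, Ψ k (update θ l (θ l + 2 * π)) = Ψ k θ) →
    (∀ k θ l, ‖fderiv ℝ (Ψ k) θ (Pi.single l 1)‖ ≤ C) →
    (∀ k θ l, dlogRow γ (a k) θ l = (W k l : ℂ) + fderiv ℝ (Ψ k) θ (Pi.single l 1)) →
    |regFun γ a + T * (2 * π) ^ m *
      ((Matrix.of fun k => (Fin.cons (e k) (W k) : Fin (m + 1) → ℤ)).det : ℝ)| ≤ C' := by
  refine ⟨((m + 1 : ℕ) * (C * ((Nat.factorial m : ℝ) * (2 * C) ^ m))) * (2 * π) ^ m, ?_⟩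
  intro R _ γ a T e W Ψ hlog hW h2 hper hd hrow
  have hC : 0 ≤ C := (abs_nonneg _).trans (hlog 0 0)
  have hI := regMatrix_integral γ a W Ψ h2 hper hrow
  have hMc : ∀ k, Continuous fun θ => regMatrix γ a k θ := by
    intro k
    refine continuous_pi fun i => continuous_pi fun l => ?_
    simp only [regMatrix, Matrix.of_apply]
    split_ifs
    · exact Complex.continuous_ofReal.comp (Complex.continuous_re.comp (dlogRow_continuous γ _ l))
    · exact dlogRow_continuous γ _ l
  have hdc : ∀ k, Continuous fun θ => (regMatrix γ a k θ).det := fun k =>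
    Continuous.matrix_det (hMc k)
  have hrc : ∀ k, Continuous fun θ => (regMatrix γ a k θ).det.re := fun k =>
    Complex.continuous_re.comp (hdc k)
  have hIre : ∀ k, ∫ θ in box m, (regMatrix γ a k θ).det.re = (2 * π) ^ m *
      ((Matrix.of fun i => W (k.succAbove i)).det : ℤ) := by
    intro k
    have hint : Integrable (fun θ => (regMatrix γ a k θ).det) (volume.restrict (box m)) :=
      (hdc k).continuousOn.integrableOn_compact isCompact_Icc
    have h := integral_re hint
    simp only [RCLike.re_to_complex] at h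
    rw [h, hI k]
    have : ((2 * π : ℂ) ^ m * (((Matrix.of fun i => W (k.succAbove i)).det : ℤ) : ℂ)) =
        (((2 * π) ^ m * (((Matrix.of fun i => W (k.succAbove i)).det : ℤ) : ℝ) : ℝ) : ℂ) := by
      rw [Complex.ofReal_mul, Complex.ofReal_intCast]
      push_cast
      rfl
    rw [this, Complex.ofReal_re]
  have hnorm : ∀ k i l θ, ‖regMatrix γ a k θ i l‖ ≤ 2 * C := by
    intro k i l θ
    have h1 : ‖dlogRow γ (a (k.succAbove i)) θ l‖ ≤ 2 * C := by
      rw [hrow]
      refine (norm_add_le _ _).trans ?_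
      have h3 : ‖((W (k.succAbove i) l : ℤ) : ℂ)‖ ≤ C := by
        rw [Complex.norm_intCast]
        exact hW _ _
      linarith [hd (k.succAbove i) θ l]
    simp only [regMatrix, Matrix.of_apply]
    split_ifs
    · rw [Complex.norm_real]
      exact (Complex.abs_re_le_norm _).trans h1
    · exact h1
  have hB : ∀ k θ, |(regMatrix γ a k θ).det.re| ≤ (Nat.factorial m : ℝ) * (2 * C) ^ m := by
    intro k θ
    exact (Complex.abs_re_le_norm _).trans (norm_det_le _ _ fun i l => hnorm k i l θ)
  have hdet : ((Matrix.of fun k => (Fin.cons (e k) (W k) : Fin (m + 1) → ℤ)).det : ℝ) =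
      ∑ k : Fin (m + 1), (-1) ^ (k : ℕ) * (e k : ℝ) *
        (((Matrix.of fun i => W (k.succAbove i)).det : ℤ) : ℝ) := by
    rw [Matrix.det_succ_column_zero]
    push_cast
    refine Finset.sum_congr rfl fun k _ => ?_
    congr 3
  have hmain : ∀ θ, regForm γ a θ = (∑ k : Fin (m + 1), (-1) ^ (k : ℕ) * (-(e k * T)) *
      (regMatrix γ a k θ).det.re) + ∑ k : Fin (m + 1), (-1) ^ (k : ℕ) *
      (Real.log ‖γ.emb θ (a k : R)‖ + e k * T) * (regMatrix γ a k θ).det.re := by
    intro θ
    rw [regForm, ← Finset.sum_add_distrib]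
    refine Finset.sum_congr rfl fun k _ => ?_
    ring
  have hc1 : ∀ k : Fin (m + 1), Continuous fun θ => (-1 : ℝ) ^ (k : ℕ) * (-(e k * T)) *
      (regMatrix γ a k θ).det.re := fun k => continuous_const.mul (hrc k)
  have hc2 : ∀ k : Fin (m + 1), Continuous fun θ => (-1 : ℝ) ^ (k : ℕ) *
      (Real.log ‖γ.emb θ (a k : R)‖ + e k * T) * (regMatrix γ a k θ).det.re := fun k =>
    (continuous_const.mul ((logNorm_continuous γ (a k)).add continuous_const)).mul (hrc k)
  have hsum1 : ∫ θ in box m, (∑ k : Fin (m + 1), (-1 : ℝ) ^ (k : ℕ) * (-(e k * T)) *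
      (regMatrix γ a k θ).det.re) = -(T * (2 * π) ^ m *
      ((Matrix.of fun k => (Fin.cons (e k) (W k) : Fin (m + 1) → ℤ)).det : ℝ)) := by
    have hi1 : ∀ k ∈ (Finset.univ : Finset (Fin (m + 1))), Integrable (fun θ =>
        (-1 : ℝ) ^ (k : ℕ) * (-(e k * T)) * (regMatrix γ a k θ).det.re)
        (volume.restrict (box m)) := fun k _ =>
      (hc1 k).continuousOn.integrableOn_compact isCompact_Icc
    rw [integral_finsetSum _ hi1, hdet, Finset.mul_sum, ← Finset.sum_neg_distrib]
    refine Finset.sum_congr rfl fun k _ => ?_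
    rw [integral_const_mul, hIre k]
    ring
  have hreg : regFun γ a + T * (2 * π) ^ m *
      ((Matrix.of fun k => (Fin.cons (e k) (W k) : Fin (m + 1) → ℤ)).det : ℝ) =
      ∫ θ in box m, ∑ k : Fin (m + 1), (-1) ^ (k : ℕ) *
      (Real.log ‖γ.emb θ (a k : R)‖ + e k * T) * (regMatrix γ a k θ).det.re := by
    unfold regFun
    simp only [hmain]
    rw [integral_add, hsum1]
    · ring
    · exact (continuous_finsetSum _ fun k _ => hc1 k).continuousOn.integrableOn_compact
        isCompact_Icc
    · exact (continuous_finsetSum _ fun k _ => hc2 k).continuousOn.integrableOn_compact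
        isCompact_Icc
  rw [hreg, ← Real.norm_eq_abs]
  have hvol : (volume : Measure (Fin m → ℝ)).real (box m) = (2 * π) ^ m := by
    rw [box, Measure.real, Real.volume_Icc_pi]
    simp [Real.pi_pos.le]
  have hfin : (volume : Measure (Fin m → ℝ)) (box m) < ⊤ := isCompact_Icc.measure_lt_top
  rw [← hvol]
  refine norm_setIntegral_le_of_norm_le_const hfin fun θ _ => ?_
  rw [Real.norm_eq_abs]
  refine (Finset.abs_sum_le_sum_abs _ _).trans ?_
  have : ∀ k ∈ (Finset.univ : Finset (Fin (m + 1))), |(-1 : ℝ) ^ (k : ℕ) *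
      (Real.log ‖γ.emb θ (a k : R)‖ + e k * T) * (regMatrix γ a k θ).det.re| ≤
      C * ((Nat.factorial m : ℝ) * (2 * C) ^ m) := by
    intro k _
    rw [abs_mul, abs_mul, abs_pow, abs_neg, abs_one, one_pow, one_mul]
    exact mul_le_mul (hlog k θ) (hB k θ) (abs_nonneg _) hC
  refine (Finset.sum_le_sum this).trans ?_
  simp

end P4a177s
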