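import Pool.Agent.Lib.P4a177s.Defs

/-!
# The affine hypersurface is smooth for large `N`

MODULE P4a177s.Smooth. Otherwise there are `N_s → ∞` and points `x_s ∈ ℂ^n` with
`N_s * ∏ ℓ k (x_s) = 1` and all the partial derivatives zero, i.e. (divide by the product)
`∑ k, a k j / ℓ k (x_s) = 0` for all `j`. The vectors `w_s = (1 / ℓ k (x_s))_k` have norms tending
to infinity, as `∏ k, w_s k = N_s`. So, along a subsequence, the vectors `w_s / ‖w_s‖` converge to
some `φ` of norm `1`, and `∑ k, φ k * a k j = 0` for all `j`. If `φ k ≠ 0` then `ℓ k (x_s) → 0`; as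
the image of an affine map is closed, there is `x` with `ℓ k x = 0` for all `k` with `φ k ≠ 0`. By
`A.simple x` the `a k` with `φ k ≠ 0` are linearly independent over `ℂ`, a contradiction.
-/

set_option autoImplicit false

namespace P4a177s

open MvPolynomial Filter Topology

theorem Arr.aeval_pderiv_form {n D : ℕ} (A : Arr n D) (x : Fin n → ℂ) (k : Fin D) (j : Fin n) :
    aeval x (pderiv j (A.form k (X : Fin n → MvPolynomial (Fin n) ℚ))) = (A.a k j : ℂ) := by
  classical
  unfold Arr.form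
  rw [map_add, map_sum]
  have h1 : ∀ z : ℤ, pderiv j ((z : ℤ) : MvPolynomial (Fin n) ℚ) = 0 := by
    intro z
    exact Derivation.map_intCast _ z
  rw [h1, add_zero]
  have h2 : ∀ i, pderiv j (((A.a k i : ℤ) : MvPolynomial (Fin n) ℚ) * X i) =
      if i = j then ((A.a k i : ℤ) : MvPolynomial (Fin n) ℚ) else 0 := by
    intro i
    rw [Derivation.leibniz, h1, pderiv_X, smul_zero, add_zero, Pi.single_apply]
    split_ifs with h
    · simp
    · simp
  simp_rw [h2]
  rw [Finset.sum_ite_eq' Finset.univ j, if_pos (Finset.mem_univ _), map_intCast]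

theorem Arr.aeval_pderiv_prod {n D : ℕ} (A : Arr n D) (x : Fin n → ℂ)
    (hx : ∀ k, A.form k x ≠ 0) (j : Fin n) (T : Finset (Fin D)) :
    aeval x (pderiv j (∏ k ∈ T, A.form k (X : Fin n → MvPolynomial (Fin n) ℚ))) =
      (∏ k ∈ T, A.form k x) * ∑ k ∈ T, (A.a k j : ℂ) * (A.form k x)⁻¹ := by
  classical
  induction T using Finset.induction_on with
  | empty => simp
  | insert k T hk ih =>
    rw [Finset.prod_insert hk, Derivation.leibniz, Finset.prod_insert hk, Finset.sum_insert hk,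
      map_add, smul_eq_mul, smul_eq_mul, map_mul, map_mul, ih, A.aeval_pderiv_form, map_prod,
      A.aeval_form, Finset.prod_congr rfl fun k _ => A.aeval_form x k]
    have := hx k
    field_simp
    ring

theorem Arr.smooth {n D : ℕ} (A : Arr n D) (hn : 0 < n) : ∃ N₀ : ℕ, ∀ N : ℕ, N₀ ≤ N →
    ∀ x : Fin n → ℂ, MvPolynomial.aeval x (A.eqn N) = 0 →
      ∃ j, MvPolynomial.aeval x (MvPolynomial.pderiv j (A.eqn N)) ≠ 0 := by
  classical
  by_contra hcon
  push Not at hcon
  choose N hN x hx hd using hcon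
  have hD : 0 < D := by
    obtain ⟨p, -⟩ := A.spans
    exact lt_of_le_of_lt (Nat.zero_le _) (p ⟨0, hn⟩).2
  have hon : ∀ s, A.On (N s) (x s) := fun s => A.on_of_aeval.1 (hx s)
  have hform : ∀ s k, A.form k (x s) ≠ 0 := fun s k h => by
    have h1 := hon s
    unfold Arr.On at h1
    rw [Finset.prod_eq_zero (Finset.mem_univ k) h, mul_zero] at h1
    exact zero_ne_one h1
  -- the vectors of the inverses
  let w : ℕ → Fin D → ℂ := fun s k => (A.form k (x s))⁻¹
  have hw0 : ∀ s k, w s k ≠ 0 := fun s k => inv_ne_zero (hform s k)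
  have hsum : ∀ s j, ∑ k, (A.a k j : ℂ) * w s k = 0 := by
    intro s j
    have h1 := hd s j
    unfold Arr.eqn at h1
    have h2 : pderiv j (1 : MvPolynomial (Fin n) ℚ) = 0 := Derivation.map_one_eq_zero _
    have h3 : pderiv j ((N s : ℕ) : MvPolynomial (Fin n) ℚ) = 0 := Derivation.map_natCast _ _
    rw [map_sub, h2, sub_zero, Derivation.leibniz, h3, smul_zero, add_zero, smul_eq_mul, map_mul,
      map_natCast, A.aeval_pderiv_prod _ (hform s), ← mul_assoc] at h1
    have h4 := hon s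
    unfold Arr.On at h4
    rw [h4, one_mul] at h1
    exact h1
  have hnorm : ∀ s : ℕ, (s : ℝ) ≤ ‖w s‖ ^ D := by
    intro s
    have h1 : ∏ k, w s k = (N s : ℂ) := by
      have h4 := hon s
      unfold Arr.On at h4
      have h5 : (∏ k, A.form k (x s)) * ∏ k, w s k = 1 := by
        rw [← Finset.prod_mul_distrib]
        exact Finset.prod_eq_one fun k _ => mul_inv_cancel₀ (hform s k)
      calc ∏ k, w s k = ((N s : ℂ) * ∏ k, A.form k (x s)) * ∏ k, w s k := by rw [h4, one_mul]
        _ = N s := by rw [mul_assoc, h5, mul_one]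
    have h2 : (N s : ℝ) = ∏ k, ‖w s k‖ := by
      rw [← norm_prod, h1]
      simp
    have h3 : ∏ k, ‖w s k‖ ≤ ‖w s‖ ^ D := by
      calc ∏ k, ‖w s k‖ ≤ ∏ _k : Fin D, ‖w s‖ :=
            Finset.prod_le_prod (fun k _ => norm_nonneg _) fun k _ => norm_le_pi_norm _ k
        _ = ‖w s‖ ^ D := by simp
    calc (s : ℝ) ≤ N s := by exact_mod_cast hN s
      _ = _ := h2
      _ ≤ _ := h3
  have hpow : Tendsto (fun s => ‖w s‖ ^ D) atTop atTop :=
    tendsto_atTop_mono hnorm tendsto_natCast_atTop_atTop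
  have htop : Tendsto (fun s => ‖w s‖) atTop atTop := by
    rw [tendsto_atTop_atTop]
    intro b
    obtain ⟨i, hi⟩ := (tendsto_atTop_atTop.1 hpow) (max b 0 ^ D)
    refine ⟨i, fun s hs => ?_⟩
    have h1 := hi s hs
    exact le_trans (le_max_left b 0) ((pow_le_pow_iff_left₀ (le_max_right b 0) (norm_nonneg _)
      hD.ne').1 h1)
  have hwn : ∀ s, 0 < ‖w s‖ := by
    intro s
    rw [norm_pos_iff]
    intro h
    exact hw0 s ⟨0, hD⟩ (by rw [h]; rfl)
  -- the normalised vectors
  let ψ : ℕ → Fin D → ℂ := fun s => ((‖w s‖⁻¹ : ℝ) : ℂ) • w s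
  have hψn : ∀ s, ‖ψ s‖ = 1 := by
    intro s
    show ‖((‖w s‖⁻¹ : ℝ) : ℂ) • w s‖ = 1
    rw [norm_smul, Complex.norm_real, Real.norm_of_nonneg (inv_nonneg.2 (norm_nonneg _)),
      inv_mul_cancel₀ (hwn s).ne']
  obtain ⟨φ, hφs, σ, hσ, hlim⟩ := (isCompact_sphere (0 : Fin D → ℂ) 1).tendsto_subseq
    (x := ψ) (fun s => by rw [mem_sphere_zero_iff_norm]; exact hψn s)
  have hφ : ‖φ‖ = 1 := by rwa [mem_sphere_zero_iff_norm] at hφs
  have hlimk : ∀ k, Tendsto (fun s => ψ (σ s) k) atTop (𝓝 (φ k)) := fun k =>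
    (tendsto_pi_nhds.1 hlim) k
  have hφsum : ∀ j, ∑ k, (A.a k j : ℂ) * φ k = 0 := by
    intro j
    have h1 : Tendsto (fun s => ∑ k, (A.a k j : ℂ) * ψ (σ s) k) atTop
        (𝓝 (∑ k, (A.a k j : ℂ) * φ k)) :=
      tendsto_finsetSum _ fun k _ => (hlimk k).const_mul _
    have h2 : ∀ s, ∑ k, (A.a k j : ℂ) * ψ (σ s) k = 0 := by
      intro s
      have h3 : ∑ k, (A.a k j : ℂ) * ψ (σ s) k =
          ((‖w (σ s)‖⁻¹ : ℝ) : ℂ) * ∑ k, (A.a k j : ℂ) * w (σ s) k := by
        rw [Finset.mul_sum]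
        refine Finset.sum_congr rfl fun k _ => ?_
        show (A.a k j : ℂ) * (((‖w (σ s)‖⁻¹ : ℝ) : ℂ) * w (σ s) k) = _
        ring
      rw [h3, hsum, mul_zero]
    simp_rw [h2] at h1
    exact (tendsto_nhds_unique h1 tendsto_const_nhds)
  -- the forms with nonzero limit tend to zero
  have hsmall : ∀ k, φ k ≠ 0 → Tendsto (fun s => A.form k (x (σ s))) atTop (𝓝 0) := by
    intro k hk
    have h1 : ∀ s, A.form k (x (σ s)) = (((‖w (σ s)‖⁻¹ : ℝ) : ℂ)) * (ψ (σ s) k)⁻¹ := by
      intro s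
      have h2 : ψ (σ s) k = ((‖w (σ s)‖⁻¹ : ℝ) : ℂ) * (A.form k (x (σ s)))⁻¹ := rfl
      rw [h2, mul_inv, inv_inv, ← mul_assoc, mul_inv_cancel₀, one_mul]
      exact_mod_cast (inv_ne_zero (hwn (σ s)).ne')
    simp_rw [h1]
    have h2 : Tendsto (fun s => (((‖w (σ s)‖⁻¹ : ℝ) : ℂ))) atTop (𝓝 0) := by
      have h3 : Tendsto (fun s => (‖w (σ s)‖⁻¹ : ℝ)) atTop (𝓝 0) :=
        (tendsto_inv_atTop_zero.comp htop).comp hσ.tendsto_atTop
      have h4 := (Complex.continuous_ofReal.tendsto 0).comp h3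
      rw [Complex.ofReal_zero] at h4
      exact h4
    have h3 := h2.mul ((hlimk k).inv₀ hk)
    rwa [zero_mul] at h3
  -- a point on all these hyperplanes
  let g : (Fin n → ℂ) →ₗ[ℂ] (Fin D → ℂ) :=
    { toFun := fun y k => if φ k ≠ 0 then ∑ j, (A.a k j : ℂ) * y j else 0
      map_add' := fun y z => by
        ext k
        by_cases h : φ k ≠ 0
        · simp only [if_pos h, Pi.add_apply, mul_add, Finset.sum_add_distrib]
        · simp only [if_neg h, Pi.add_apply, add_zero]
      map_smul' := fun r y => by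
        ext k
        by_cases h : φ k ≠ 0
        · simp only [if_pos h, Pi.smul_apply, smul_eq_mul, RingHom.id_apply, Finset.mul_sum]
          exact Finset.sum_congr rfl fun j _ => by ring
        · simp only [if_neg h, Pi.smul_apply, smul_zero] }
  let c₀ : Fin D → ℂ := fun k => if φ k ≠ 0 then -(A.c k : ℂ) else 0
  have hclosed : IsClosed ((LinearMap.range g : Submodule ℂ (Fin D → ℂ)) : Set (Fin D → ℂ)) :=
    Submodule.closed_of_finiteDimensional _
  have hmem : c₀ ∈ ((LinearMap.range g : Submodule ℂ (Fin D → ℂ)) : Set (Fin D → ℂ)) := by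
    refine hclosed.mem_of_tendsto (f := fun s => g (x (σ s))) (b := atTop) ?_
      (Eventually.of_forall fun s => ⟨_, rfl⟩)
    rw [tendsto_pi_nhds]
    intro k
    by_cases h : φ k ≠ 0
    · have h1 := (hsmall k h).add_const (-(A.c k : ℂ))
      rw [zero_add] at h1
      have h2 : ∀ s, g (x (σ s)) k = A.form k (x (σ s)) + -(A.c k : ℂ) := by
        intro s
        show (if φ k ≠ 0 then ∑ j, (A.a k j : ℂ) * x (σ s) j else 0) = _
        rw [if_pos h]
        unfold Arr.form
        ring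
      have h3 : c₀ k = -(A.c k : ℂ) := if_pos h
      rw [h3]
      simp_rw [h2]
      exact h1
    · have h2 : ∀ s, g (x (σ s)) k = 0 := fun s => if_neg h
      have h3 : c₀ k = 0 := if_neg h
      rw [h3]
      simp_rw [h2]
      exact tendsto_const_nhds
  obtain ⟨y, hy⟩ := hmem
  have hyk : ∀ k, φ k ≠ 0 → A.form k y = 0 := by
    intro k hk
    have h1 := congrFun hy k
    have h2 : g y k = ∑ j, (A.a k j : ℂ) * y j := if_pos hk
    have h3 : c₀ k = -(A.c k : ℂ) := if_pos hk
    rw [h2, h3] at h1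
    unfold Arr.form
    rw [h1]
    ring
  have hind := Fintype.linearIndependent_iff.1 (A.simple y) (fun k => φ k.1) (by
    have h1 : ∑ i : {k : Fin D // ∑ j, (A.a k j : ℂ) * y j + (A.c k : ℂ) = 0},
        φ i.1 • (fun j : Fin n => (A.a i.1 j : ℂ)) = ∑ k, φ k • (fun j : Fin n => (A.a k j : ℂ)) := by
      have h2 : ∑ k, φ k • (fun j : Fin n => (A.a k j : ℂ)) =
          ∑ k ∈ Finset.univ.filter (fun k : Fin D => ∑ j, (A.a k j : ℂ) * y j + (A.c k : ℂ) = 0),
            φ k • (fun j : Fin n => (A.a k j : ℂ)) := by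
        rw [Finset.sum_filter_of_ne]
        intro k _ hk
        by_contra hne
        apply hk
        have h3 : φ k = 0 := by
          by_contra h4
          exact hne (hyk k h4)
        rw [h3, zero_smul]
      rw [h2]
      exact (Finset.sum_subtype (p := fun k : Fin D => ∑ j, (A.a k j : ℂ) * y j + (A.c k : ℂ) = 0)
        (Finset.univ.filter (fun k : Fin D => ∑ j, (A.a k j : ℂ) * y j + (A.c k : ℂ) = 0))
        (fun k => by simp only [Finset.mem_filter, Finset.mem_univ, true_and])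
        (fun k => φ k • (fun j : Fin n => (A.a k j : ℂ)))).symm
    refine h1.trans ?_
    ext j
    rw [Finset.sum_apply]
    simp only [Pi.smul_apply, smul_eq_mul, Pi.zero_apply]
    rw [← hφsum j]
    exact Finset.sum_congr rfl fun k _ => mul_comm _ _)
  have hφ0 : φ = 0 := by
    ext k
    by_contra hk
    exact hk (hind ⟨k, hyk k hk⟩)
  rw [hφ0, norm_zero] at hφ
  exact zero_ne_one hφ

end P4a177s
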