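import Pool.Agent.Lib.P4a177s.Integ
import Pool.Agent.Lib.P4a177s.PrimeC
import Pool.Agent.Lib.P4a177s.Smooth
import Pool.Agent.Lib.P4a177s.Comb
import Pool.Agent.Lib.P4a177s.DetLimit
import Pool.Agent.Lib.P4a177s.RegAsymp
import Pool.Agent.Lib.P4a177s.TorusData
import Pool.Agent.Lib.P4a177s.Terms

/-!
# Assembly
-/

set_option autoImplicit false

namespace P4a177s

open P4a177h Function MeasureTheory
open scoped Real

noncomputable section

variable {m n D : ℕ}

/-- The element of the Milnor K-group attached to `B`. -/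
def Arr.xi (A : Arr n D) (N : ℕ) (B : A.Idx) : MilnorK n (A.CoordRing N) :=
  symb (Arr.z (A.coord_on N) B)

/-! ### The entries of the symbols along the tori -/

theorem dlogRow_one {d : ℕ} {R : Type*} [CommRing R] (γ : Torus d R) (θ : Fin d → ℝ) :
    dlogRow γ 1 θ = 0 := by
  have h := dlogRow_mul γ 1 1 θ
  rw [mul_one] at h
  exact left_eq_add.1 h

theorem dlogRow_inv {d : ℕ} {R : Type*} [CommRing R] (γ : Torus d R) (b : Rˣ) (θ : Fin d → ℝ) :
    dlogRow γ b⁻¹ θ = -dlogRow γ b θ := by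
  have h := dlogRow_mul γ b b⁻¹ θ
  rw [mul_inv_cancel, dlogRow_one] at h
  exact (neg_eq_of_add_eq_zero_right h.symm).symm

theorem dlogRow_div {d : ℕ} {R : Type*} [CommRing R] (γ : Torus d R) (b c : Rˣ)
    (θ : Fin d → ℝ) : dlogRow γ (b / c) θ = dlogRow γ b θ - dlogRow γ c θ := by
  rw [div_eq_mul_inv, dlogRow_mul, dlogRow_inv, sub_eq_add_neg]

theorem emb_intUnit {d : ℕ} {R : Type*} [CommRing R] [Algebra ℚ R] (γ : Torus d R) (k : ℤ)
    (hk : k ≠ 0) (θ : Fin d → ℝ) : γ.emb θ (intUnit R k hk : R) = (k : ℂ) := by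
  rw [intUnit_val, map_intCast]

theorem dlogRow_intUnit {d : ℕ} {R : Type*} [CommRing R] [Algebra ℚ R] (γ : Torus d R) (k : ℤ)
    (hk : k ≠ 0) (θ : Fin d → ℝ) : dlogRow γ (intUnit R k hk) θ = 0 := by
  funext l
  unfold dlogRow
  have h : (fun θ => γ.emb θ (intUnit R k hk : R)) = fun _ => (k : ℂ) :=
    funext fun θ => emb_intUnit γ k hk θ
  rw [h]
  simp

theorem log_emb_mul {d : ℕ} {R : Type*} [CommRing R] (γ : Torus d R) (b c : Rˣ)
    (θ : Fin d → ℝ) : Real.log ‖γ.emb θ ((b * c : Rˣ) : R)‖ =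
      Real.log ‖γ.emb θ (b : R)‖ + Real.log ‖γ.emb θ (c : R)‖ := by
  rw [Units.val_mul, map_mul, norm_mul, Real.log_mul]
  · exact norm_ne_zero_iff.2 (emb_ne_zero γ b θ)
  · exact norm_ne_zero_iff.2 (emb_ne_zero γ c θ)

theorem log_emb_div {d : ℕ} {R : Type*} [CommRing R] (γ : Torus d R) (b c : Rˣ)
    (θ : Fin d → ℝ) : Real.log ‖γ.emb θ ((b / c : Rˣ) : R)‖ =
      Real.log ‖γ.emb θ (b : R)‖ - Real.log ‖γ.emb θ (c : R)‖ := by
  have h := log_emb_mul γ (b / c) c θ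
  rw [div_mul_cancel] at h
  linarith

/-- The asymptotic behaviour of the regulators along the torus at the vertex `q`. -/
theorem Arr.reg_asymp (A : Arr (m + 1) D) (q : A.Idx) : ∃ (C : ℝ) (N₀ : ℕ), ∀ N : ℕ, N₀ ≤ N →
    ∃ γ : Torus m (A.CoordRing N), ∀ B : A.Idx,
      |regFun γ (Arr.z (A.coord_on N) B) + Real.log N * (2 * π) ^ m * (A.cmat B q : ℝ)| ≤ C := by
  classical
  obtain ⟨C₀, N₀, hN₀⟩ := A.exists_torus q.1 q.2.1
  -- bound for the constants
  obtain ⟨C₁, hC₁⟩ : ∃ C₁ : ℝ, ∀ (B : A.Idx) (i : Fin (m + 1)),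
      |Real.log ‖((-A.lam (Function.update B.1 i (Arr.f B i)) : ℤ) : ℂ)‖| +
        |Real.log ‖((A.lam B.1 : ℤ) : ℂ)‖| ≤ C₁ := by
    obtain ⟨C₁, h⟩ := Finite.exists_le (fun p : A.Idx × Fin (m + 1) =>
      |Real.log ‖((-A.lam (Function.update p.1.1 p.2 (Arr.f p.1 p.2)) : ℤ) : ℂ)‖| +
        |Real.log ‖((A.lam p.1.1 : ℤ) : ℂ)‖|)
    exact ⟨C₁, fun B i => h (B, i)⟩
  obtain ⟨C', hC'⟩ := regFun_asymp m (2 * |C₀| + |C₁| + 4)
  refine ⟨C', N₀, fun N hN => ?_⟩
  obtain ⟨γ, Ψ, hΨ1, hΨ2, hΨ3, hlog, hrow⟩ := hN₀ N hN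
  refine ⟨γ, fun B => ?_⟩
  set e : Fin (m + 1) → ℤ := fun i =>
    (if B.1 i = q.1 0 then 1 else 0) - (if Arr.f B i = q.1 0 then 1 else 0) with he
  set W : Fin (m + 1) → Fin m → ℤ := fun i l => P4a177s.wt q.1 (B.1 i) l - P4a177s.wt q.1 (Arr.f B i) l with hW
  have key := hC' (A.CoordRing N) γ (Arr.z (A.coord_on N) B) (Real.log N) e W
    (fun i θ => Ψ (B.1 i) θ - Ψ (Arr.f B i) θ) ?_ ?_ ?_ ?_ ?_ ?_
  · -- the determinant
    have hdet : (Matrix.of fun k => (Fin.cons (e k) (W k) : Fin (m + 1) → ℤ)).det =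
        A.cmat B q := by
      show _ = (Matrix.of fun i s => Arr.g B q i s).det
      rw [← Matrix.det_transpose, ← Matrix.det_transpose (Matrix.of fun i s => Arr.g B q i s)]
      symm
      refine Matrix.det_eq_of_forall_row_eq_smul_add_const
        (fun s : Fin (m + 1) => if s = 0 then 0 else 1) 0 (by simp) ?_
      intro j i
      refine Fin.cases ?_ (fun l => ?_) j
      · simp [Arr.g, he]
      · simp only [Matrix.transpose_apply, Matrix.of_apply, Fin.cons_succ, Fin.succ_ne_zero,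
          if_false, Fin.cons_zero]
        simp only [hW, he, P4a177s.wt, Arr.g]
        ring
    rw [hdet] at key
    exact key
  · intro i θ
    have h1 := hlog (B.1 i) θ
    have h2 := hlog (Arr.f B i) θ
    have h3 := hC₁ B i
    show |Real.log ‖γ.emb θ ((Arr.z (A.coord_on N) B i : (A.CoordRing N)ˣ) : A.CoordRing N)‖ +
      (e i : ℝ) * Real.log N| ≤ _
    unfold Arr.z
    rw [log_emb_div, log_emb_mul, log_emb_mul, emb_intUnit, emb_intUnit]
    have h4 : (e i : ℝ) * Real.log N = (if B.1 i = q.1 0 then Real.log N else 0) -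
        (if Arr.f B i = q.1 0 then Real.log N else 0) := by
      simp only [he]
      push_cast
      split_ifs <;> simp
    rw [h4]
    have h5 := le_abs_self C₀
    have h6 := le_abs_self C₁
    have h7 := abs_le.1 h1
    have h8 := abs_le.1 h2
    have h9 := abs_nonneg (Real.log ‖((-A.lam (Function.update B.1 i (Arr.f B i)) : ℤ) : ℂ)‖)
    have h10 := abs_nonneg (Real.log ‖((A.lam B.1 : ℤ) : ℂ)‖)
    have h11 := abs_le.1 (le_refl (|Real.log ‖((-A.lam (Function.update B.1 i (Arr.f B i)) : ℤ) : ℂ)‖|))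
    have h12 := abs_le.1 (le_refl (|Real.log ‖((A.lam B.1 : ℤ) : ℂ)‖|))
    rw [abs_le]
    constructor <;> linarith [h7.1, h7.2, h8.1, h8.2, h11.1, h11.2, h12.1, h12.2]
  · intro i l
    have h1 : |(W i l : ℝ)| ≤ 4 := by
      simp only [hW, P4a177s.wt]
      push_cast
      split_ifs <;> norm_num
    have h5 := abs_nonneg C₀
    have h6 := abs_nonneg C₁
    linarith
  · intro i
    exact (hΨ1 _).sub (hΨ1 _)
  · intro i θ l
    rw [hΨ2, hΨ2]
  · intro i θ l
    rw [fderiv_fun_sub ((hΨ1 _).differentiable (by norm_num) θ)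
      ((hΨ1 _).differentiable (by norm_num) θ)]
    have h1 := hΨ3 (B.1 i) θ l
    have h2 := hΨ3 (Arr.f B i) θ l
    have h3 := norm_sub_le (fderiv ℝ (Ψ (B.1 i)) θ (Pi.single l 1))
      (fderiv ℝ (Ψ (Arr.f B i)) θ (Pi.single l 1))
    have h5 := le_abs_self C₀
    have h6 := abs_nonneg C₁
    rw [sub_apply]
    linarith
  · intro i θ l
    rw [fderiv_fun_sub ((hΨ1 _).differentiable (by norm_num) θ)
      ((hΨ1 _).differentiable (by norm_num) θ)]
    unfold Arr.z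
    rw [dlogRow_div, dlogRow_mul, dlogRow_mul, dlogRow_intUnit, dlogRow_intUnit, zero_add, zero_add]
    rw [Pi.sub_apply, hrow, hrow, sub_apply]
    simp only [hW]
    push_cast
    ring

/-- The relation which defines the entries, in a field over the coordinate ring. -/
theorem Arr.z_map {A : Arr n D} {N : ℕ} {K : Type*} [Field K] (φ : A.CoordRing N →+* K)
    (B : A.Idx) (i : Fin n) :
    φ (Arr.z (A.coord_on N) B i : A.CoordRing N) *
      ((A.lam B.1 : K) * A.form (Arr.f B i) fun j => φ (A.coord N j)) =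
      -(A.lam (Function.update B.1 i (Arr.f B i)) : K) *
        A.form (B.1 i) fun j => φ (A.coord N j) := by
  have h := congrArg φ (Arr.z_spec (A.coord_on N) B i)
  rw [map_mul, map_mul, map_mul, map_neg, map_intCast, map_intCast, A.form_map, A.form_map] at h
  exact h

theorem Arr.charZero {A : Arr n D} {N : ℕ} {K : Type*} [Field K] (φ : A.CoordRing N →+* K) :
    CharZero K :=
  charZero_of_injective_ringHom
    ((φ.comp (algebraMap ℚ (A.CoordRing N))).injective)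

theorem Arr.admissible_xi (A : Arr n D) {N : ℕ} (hN : A.Mod ∣ N) (B : A.Idx) :
    Admissible (A.xi N B) := by
  refine ⟨Arr.z (A.coord_on N) B, fun i => (Arr.f B i : ℕ), rfl, ?_⟩
  intro K _ φ O
  have := Arr.charZero φ
  have h := Arr.adm_z O.valuation ((A.coord_on N).map φ) hN B
    (fun i => φ (Arr.z (A.coord_on N) B i : A.CoordRing N)) (Arr.z_map φ B)
  have hk : ∀ k : Fin D, (Finset.univ.filter fun i => Arr.f B i = k) =
      (Finset.univ.filter fun i => (Arr.f B i : ℕ) = (k : ℕ)) := by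
    intro k
    ext i
    simp [Fin.ext_iff]
  rcases h with h1 | ⟨k, h1 | ⟨j, hj, h1⟩⟩
  · exact Or.inl h1
  · rw [hk] at h1
    exact Or.inr ⟨(k : ℕ), Or.inl h1⟩
  · rw [hk] at h1
    exact Or.inr ⟨(k : ℕ), Or.inr ⟨j, congrArg Fin.val hj, h1⟩⟩

theorem Arr.unramified_xi (A : Arr n D) {N : ℕ} (hN : A.Mod ∣ N) (B : A.Idx) {K : Type*} [Field K]
    (φ : A.CoordRing N →+* K) (v : Valuation K (WithZero (Multiplicative ℤ))) :
    Unramified v (map φ (A.xi N B)) := by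
  have := Arr.charZero φ
  unfold Arr.xi
  rw [map_symb]
  exact Arr.unramified_z v ((A.coord_on N).map φ) hN B _ fun i => Arr.z_map φ B i

/-- The determinant of the regulator matrix. -/
theorem Arr.exists_tori (A : Arr (m + 1) D) : ∃ (N₀ : ℕ) (C : ℝ), ∀ N : ℕ, N₀ ≤ N →
    ∃ γ : A.Idx → Torus m (A.CoordRing N),
      |(Matrix.of fun p q => reg (γ q) (A.xi N p)).det /
        (-((2 * π) ^ m * Real.log N)) ^ Fintype.card A.Idx - 1| ≤ C / Real.log N := by
  choose C N₀ hN₀ using fun q : A.Idx => A.reg_asymp q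
  obtain ⟨C', hC'⟩ := Finite.exists_le C
  obtain ⟨N₁, hN₁⟩ := Finite.exists_le N₀
  obtain ⟨C₂, T₀, hT₀⟩ := det_limit A.cmat A.det_cmat ((2 * π) ^ m) (by positivity) C'
  obtain ⟨N₂, hN₂⟩ := exists_nat_ge (Real.exp T₀)
  refine ⟨max N₁ N₂, C₂, fun N hN => ?_⟩
  choose γ hγ using fun q : A.Idx =>
    hN₀ q N ((hN₁ q).trans ((le_max_left _ _).trans hN))
  refine ⟨γ, ?_⟩
  have hN2 : Real.exp T₀ ≤ N := hN₂.trans (by exact_mod_cast (le_max_right _ _).trans hN)
  have hT : T₀ ≤ Real.log N := by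
    rw [Real.le_log_iff_exp_le (lt_of_lt_of_le (Real.exp_pos _) hN2)]
    exact hN2
  refine hT₀ (Real.log N) hT _ fun B q => ?_
  rw [Matrix.of_apply, Arr.xi, reg_symb]
  exact (hγ q B).trans (hC' q)

/-- **Main theorem.** -/
theorem main (hm : 1 ≤ m) (A : Arr (m + 1) D) : ∃ (N₀ : ℕ) (C : ℝ), ∀ N : ℕ, N₀ ≤ N →
    A.Mod ∣ N →
    A.GeomIrreducible N ∧ A.Smooth N ∧
    ∃ (ξ : A.Idx → MilnorK (m + 1) (A.CoordRing N)) (γ : A.Idx → Torus m (A.CoordRing N)),
      (∀ B, Admissible (ξ B) ∧ UnramifiedEverywhere (ξ B)) ∧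
      (regulatorMatrix ξ γ).det ≠ 0 ∧
      |(regulatorMatrix ξ γ).det /
        (-((2 * π) ^ m * Real.log N)) ^ Fintype.card A.Idx - 1| ≤ C / Real.log N := by
  obtain ⟨N₁, hN₁⟩ := A.smooth (Nat.succ_pos m)
  obtain ⟨N₂, C, hN₂⟩ := A.exists_tori
  obtain ⟨N₃, hN₃⟩ := exists_nat_gt (Real.exp |C|)
  refine ⟨max 1 (max N₁ (max N₂ N₃)), C, fun N hN hMod => ?_⟩
  have h1 : 1 ≤ N := (le_max_left _ _).trans hN
  have h2 : N₁ ≤ N := ((le_max_left _ _).trans (le_max_right _ _)).trans hN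
  have h3 : N₂ ≤ N :=
    (((le_max_left _ _).trans (le_max_right _ _)).trans (le_max_right _ _)).trans hN
  have h4 : N₃ ≤ N :=
    (((le_max_right _ _).trans (le_max_right _ _)).trans (le_max_right _ _)).trans hN
  have h5 : |C| < Real.log N := by
    have h6 : Real.exp |C| < N := hN₃.trans_le (by exact_mod_cast h4)
    rw [Real.lt_log_iff_exp_lt (lt_trans (Real.exp_pos _) h6)]
    exact h6
  refine ⟨A.irreducible_map (by omega) N h1, hN₁ N h2, ?_⟩
  obtain ⟨γ, hγ⟩ := hN₂ N h3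
  refine ⟨A.xi N, γ, fun B => ⟨A.admissible_xi hMod B,
    fun K _ _ _ v => A.unramified_xi hMod B _ v⟩, ?_, hγ⟩
  intro h0
  unfold regulatorMatrix at h0
  rw [h0, zero_div, zero_sub, abs_neg, abs_one, le_div_iff₀ (lt_of_le_of_lt (abs_nonneg C) h5),
    one_mul] at hγ
  exact absurd (hγ.trans (le_abs_self C)) (not_le.2 h5)

end

end P4a177s
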