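import Pool.Agent.Lib.P4a177s.Defs

/-!
# The hypersurface is irreducible

MODULE P4a177s.Prime. PROOF SKETCH (compare `Pool/Agent/Lib/P4a177b/Prime.lean` (two variables) and
`Pool/Agent/Lib/P4a177h/Prime.lean`, where the same argument is carried out). Work in
`MvPolynomial (Fin n) ℚ`, `ℓ k = A.form k X`, `E = A.eqn N = N * ∏ ℓ k - 1 = G * H`.
(1) For each `k` there is `j` with `a k j ≠ 0` (`A.ne_zero`); the substitution
`ρ = aeval (update X j (X j - ℓ k / a k j))` (scalar `1 / a k j : ℚ`) kills `ℓ k`, fixes the constants,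
and `P - ρ P` is divisible by `ℓ k` for all `P` (induction on `P`). So `ρ G * ρ H = -1`, `ρ G` is a
unit, i.e. a constant `C (g k)` (`MvPolynomial` over a field: units are constants), and
`ℓ k ∣ G - C (g k)`. Equivalently: `G` is equal to `g k` at all the points of the hyperplane.
(2) If the hyperplanes `k`, `k'` have a common rational point then `g k = g k'` (evaluate `G`). This
is the case if `a k`, `a k'` are linearly independent. If they are linearly dependent there is a
third hyperplane `k''` whose normal is independent of `a k` (hence of `a k'`), because the normals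
span `ℚ^n`, `n ≥ 2` (`A.spans`). So all the `g k` are equal to one `g`.
(3) The `ℓ k` are pairwise relatively prime: they have degree one, so they are irreducible, and
proportional `ℓ k`, `ℓ k'`, `k ≠ k'`, would contradict `A.simple` at a point `x` of the hyperplane
(`x` exists since `a k ≠ 0`; the normals `a k`, `a k'` would be dependent). Hence `∏ ℓ k ∣ G - C g`
(`Fintype.prod_dvd_of_isRelPrime`).
(4) If `G = C g` then `G` is a unit. Otherwise `totalDegree G ≥ D = totalDegree (∏ ℓ k)`, and
`totalDegree G + totalDegree H = totalDegree E ≤ D` so `H` is a constant. So `E` is irreducible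
(it is not a unit: its degree is `D > 0`, or it vanishes somewhere), hence prime
(`UniqueFactorizationMonoid`), and `Ideal.span_singleton_prime`.
-/

set_option autoImplicit false

namespace P4a177s

open MvPolynomial

variable {n D : ℕ} (A : Arr n D)

namespace Prm

/-- The linear form `ℓ_k` as a polynomial. -/
noncomputable def form (k : Fin D) : MvPolynomial (Fin n) ℚ := A.form k X

theorem form_update {R : Type*} [CommRing R] (k : Fin D) (x : Fin n → R) (j : Fin n) (t : R) :
    A.form k (Function.update x j (x j + t)) = A.form k x + (A.a k j : R) * t := by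
  classical
  unfold Arr.form
  rw [← Finset.add_sum_erase _ _ (Finset.mem_univ j),
    ← Finset.add_sum_erase (Finset.univ : Finset (Fin n)) (fun j => (A.a k j : R) * x j)
      (Finset.mem_univ j), Function.update_self]
  have : ∑ i ∈ Finset.univ.erase j, (A.a k i : R) * Function.update x j (x j + t) i =
      ∑ i ∈ Finset.univ.erase j, (A.a k i : R) * x i :=
    Finset.sum_congr rfl fun i hi => by rw [Function.update_of_ne (Finset.ne_of_mem_erase hi)]
  rw [this]
  ring

theorem aeval_form (k : Fin D) (x : Fin n → ℚ) : aeval x (form A k) = A.form k x :=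
  A.aeval_form x k

theorem exists_ne (k : Fin D) : ∃ j, A.a k j ≠ 0 := Function.ne_iff.mp (A.ne_zero k)

/-- An index of a nonzero coefficient. -/
noncomputable def piv (k : Fin D) : Fin n := (exists_ne A k).choose

theorem piv_ne (k : Fin D) : A.a k (piv A k) ≠ 0 := (exists_ne A k).choose_spec

/-- The substitution which kills `ℓ_k`. -/
noncomputable def rho (k : Fin D) : MvPolynomial (Fin n) ℚ →ₐ[ℚ] MvPolynomial (Fin n) ℚ :=
  aeval (Function.update X (piv A k)
    (X (piv A k) + (-(C (1 / (A.a k (piv A k) : ℚ)) * form A k))))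

theorem rho_C (k : Fin D) (r : ℚ) : rho A k (C r) = C r := by
  exact (rho A k).commutes r

theorem rho_form_self (k : Fin D) : rho A k (form A k) = 0 := by
  unfold rho
  rw [form, A.aeval_form, form_update, ← form]
  have h : (A.a k (piv A k) : MvPolynomial (Fin n) ℚ) = C (A.a k (piv A k) : ℚ) := by simp
  rw [h, mul_neg, ← mul_assoc, ← C_mul, mul_one_div_cancel (by exact_mod_cast piv_ne A k), C_1,
    one_mul, add_neg_cancel]

theorem dvd_sub_rho (k : Fin D) (p : MvPolynomial (Fin n) ℚ) : form A k ∣ p - rho A k p := by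
  let I : Ideal (MvPolynomial (Fin n) ℚ) := Ideal.span {form A k}
  have hφ : (Ideal.Quotient.mkₐ ℚ I).comp (rho A k) = Ideal.Quotient.mkₐ ℚ I := by
    apply MvPolynomial.algHom_ext
    intro i
    rw [AlgHom.comp_apply]
    by_cases hk : i = piv A k
    · have : rho A k (X i) = X i + (-(C (1 / (A.a k (piv A k) : ℚ)) * form A k)) := by
        rw [hk]; simp [rho]
      rw [this, Ideal.Quotient.mkₐ_eq_mk, Ideal.Quotient.eq, Ideal.mem_span_singleton]
      exact ⟨-C (1 / (A.a k (piv A k) : ℚ)), by ring⟩
    · have : rho A k (X i) = X i := by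
        simp [rho, Function.update_of_ne hk]
      rw [this]
  have h1 := DFunLike.congr_fun hφ p
  rw [AlgHom.comp_apply, Ideal.Quotient.mkₐ_eq_mk] at h1
  rw [← Ideal.mem_span_singleton, ← Ideal.Quotient.eq]
  exact h1.symm

theorem isUnit_of_totalDegree_eq_zero {p : MvPolynomial (Fin n) ℚ} (hp : p ≠ 0)
    (h : p.totalDegree = 0) : IsUnit p := by
  rw [isUnit_iff_eq_C_of_isReduced]
  rw [totalDegree_eq_zero_iff_eq_C] at h
  refine ⟨coeff 0 p, ?_, h⟩
  rw [isUnit_iff_ne_zero]
  intro h0
  rw [h0, map_zero] at h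
  exact hp h

theorem form_ne_zero (k : Fin D) : form A k ≠ 0 := by
  intro h
  have h1 : ∀ x : Fin n → ℚ, A.form k x = 0 := by
    intro x
    rw [← aeval_form, h, map_zero]
  have h2 := form_update A k (0 : Fin n → ℚ) (piv A k) 1
  rw [h1, h1, mul_one, zero_add] at h2
  exact piv_ne A k (by exact_mod_cast h2.symm)

theorem form_totalDegree_le (k : Fin D) : (form A k).totalDegree ≤ 1 := by
  unfold form Arr.form
  have hc : ∀ m : ℤ, ((m : MvPolynomial (Fin n) ℚ)).totalDegree = 0 := by
    intro m
    have : (m : MvPolynomial (Fin n) ℚ) = C (m : ℚ) := by simp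
    rw [this, totalDegree_C]
  refine (totalDegree_add _ _).trans (max_le ?_ (by rw [hc]; exact Nat.zero_le _))
  refine (totalDegree_finsetSum _ _).trans (Finset.sup_le fun j _ => ?_)
  refine (totalDegree_mul _ _).trans ?_
  rw [hc, totalDegree_X]

theorem form_totalDegree (k : Fin D) : (form A k).totalDegree = 1 := by
  refine le_antisymm (form_totalDegree_le A k) ?_
  by_contra hlt
  have h0 : (form A k).totalDegree = 0 := by omega
  have hu := isUnit_of_totalDegree_eq_zero (form_ne_zero A k) h0
  have h1 := hu.map (rho A k)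
  rw [rho_form_self A k] at h1
  exact not_isUnit_zero h1

theorem indep2 {k k' : Fin D} (hkk : k ≠ k') (x : Fin n → ℂ) (hk : A.form k x = 0)
    (hk' : A.form k' x = 0) (s t : ℂ) (h : ∀ j, s * (A.a k j : ℂ) + t * (A.a k' j : ℂ) = 0) :
    t = 0 := by
  have hs := A.simple x
  let e : Fin 2 → {k : Fin D // ∑ j, (A.a k j : ℂ) * x j + (A.c k : ℂ) = 0} :=
    ![⟨k, hk⟩, ⟨k', hk'⟩]
  have he : Function.Injective e := by
    intro a b hab
    fin_cases a <;> fin_cases b
    · rfl
    · exact absurd (congrArg Subtype.val hab) hkk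
    · exact absurd (congrArg Subtype.val hab).symm hkk
    · rfl
  have h2 := hs.comp e he
  have h3 : ((fun (k : {k : Fin D // ∑ j, (A.a k j : ℂ) * x j + (A.c k : ℂ) = 0}) (j : Fin n) =>
      (A.a k j : ℂ)) ∘ e) = ![fun j => (A.a k j : ℂ), fun j => (A.a k' j : ℂ)] := by
    funext a
    fin_cases a <;> rfl
  rw [h3, LinearIndependent.pair_iff] at h2
  exact (h2 s t (by
    funext j
    simpa using h j)).2

theorem not_dvd {k k' : Fin D} (hkk : k ≠ k') : ¬ form A k ∣ form A k' := by
  rintro ⟨f, hf⟩
  have hf0 : f ≠ 0 := by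
    rintro rfl
    rw [mul_zero] at hf
    exact form_ne_zero A _ hf
  have hdeg := congrArg totalDegree hf
  rw [form_totalDegree, totalDegree_mul_of_isDomain (form_ne_zero A k) hf0,
    form_totalDegree] at hdeg
  have hf1 : f.totalDegree = 0 := by omega
  rw [totalDegree_eq_zero_iff_eq_C] at hf1
  set c : ℚ := coeff 0 f with hc
  have hval : ∀ x : Fin n → ℚ, A.form k' x = A.form k x * c := by
    intro x
    rw [← aeval_form, hf, map_mul, aeval_form, hf1]
    simp
  have ha : ∀ j, (A.a k' j : ℚ) = (A.a k j : ℚ) * c := by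
    intro j
    have h1 := form_update A k' (0 : Fin n → ℚ) j 1
    have h2 := form_update A k (0 : Fin n → ℚ) j 1
    rw [hval, hval, h2] at h1
    linarith
  have hcc : (A.c k' : ℚ) = (A.c k : ℚ) * c := by
    have h1 := hval 0
    simpa [Arr.form] using h1
  have haC : ∀ j, (A.a k' j : ℂ) = (A.a k j : ℂ) * (c : ℂ) := by
    intro j
    exact_mod_cast congrArg (fun q : ℚ => (q : ℂ)) (ha j)
  have hcC : (A.c k' : ℂ) = (A.c k : ℂ) * (c : ℂ) := by
    exact_mod_cast congrArg (fun q : ℚ => (q : ℂ)) hcc
  have hpC : (A.a k (piv A k) : ℂ) ≠ 0 := by exact_mod_cast piv_ne A k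
  set x : Fin n → ℂ := Function.update 0 (piv A k)
    ((0 : Fin n → ℂ) (piv A k) + (-(A.c k : ℂ) / (A.a k (piv A k) : ℂ))) with hx
  have hx1 : A.form k x = 0 := by
    rw [hx, form_update, mul_div_cancel₀ _ hpC]
    simp [Arr.form]
  have hx2 : A.form k' x = 0 := by
    have : A.form k' x = A.form k x * (c : ℂ) := by
      unfold Arr.form
      rw [add_mul, Finset.sum_mul, hcC]
      congr 1
      refine Finset.sum_congr rfl fun j _ => ?_
      rw [haC]
      ring
    rw [this, hx1, zero_mul]
  have := indep2 A hkk x hx1 hx2 (-(c : ℂ)) 1 (fun j => by rw [haC]; ring)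
  exact one_ne_zero this

theorem isRelPrime_form {k k' : Fin D} (hkk : k ≠ k') : IsRelPrime (form A k) (form A k') := by
  intro e hdi hdj
  obtain ⟨f, hf⟩ := hdi
  have hd0 : e ≠ 0 := by
    rintro rfl
    rw [zero_mul] at hf
    exact form_ne_zero A _ hf
  have he0 : f ≠ 0 := by
    rintro rfl
    rw [mul_zero] at hf
    exact form_ne_zero A _ hf
  have hdeg := congrArg totalDegree hf
  rw [form_totalDegree, totalDegree_mul_of_isDomain hd0 he0] at hdeg
  rcases Nat.eq_zero_or_pos e.totalDegree with h | h
  · exact isUnit_of_totalDegree_eq_zero hd0 h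
  · exfalso
    have he1 : f.totalDegree = 0 := by omega
    have hu := isUnit_of_totalDegree_eq_zero he0 he1
    have hdvd : form A k ∣ form A k' := by
      rw [hf]
      exact (hu.mul_right_dvd).2 hdj
    exact not_dvd A hkk hdvd

theorem eqn_eq (N : ℕ) : A.eqn N =
    (N : MvPolynomial (Fin n) ℚ) * ∏ k, form A k - 1 := rfl

theorem rho_eqn (N : ℕ) (k : Fin D) : rho A k (A.eqn N) = -1 := by
  classical
  rw [eqn_eq]
  have : ∏ q, form A q = form A k * ∏ q ∈ Finset.univ.erase k, form A q :=
    (Finset.mul_prod_erase _ _ (Finset.mem_univ k)).symm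
  rw [this, map_sub, map_mul, map_mul, rho_form_self A]
  simp

theorem eqn_totalDegree_le (N : ℕ) : (A.eqn N).totalDegree ≤ D := by
  rw [eqn_eq]
  refine (totalDegree_sub _ _).trans (max_le ?_ (by simp))
  refine (totalDegree_mul _ _).trans ?_
  have h1 : ((N : MvPolynomial (Fin n) ℚ)).totalDegree = 0 := by
    have : (N : MvPolynomial (Fin n) ℚ) = C (N : ℚ) := by simp
    rw [this, totalDegree_C]
  rw [h1, zero_add]
  refine (totalDegree_finsetProd _ _).trans ?_
  refine (Finset.sum_le_sum fun k _ => form_totalDegree_le A k).trans ?_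
  simp

theorem prod_totalDegree (u : Finset (Fin D)) :
    (∏ k ∈ u, form A k).totalDegree = u.card := by
  classical
  induction u using Finset.induction_on with
  | empty => simp
  | insert a u ha ih =>
    rw [Finset.prod_insert ha, totalDegree_mul_of_isDomain (form_ne_zero A _)
      (Finset.prod_ne_zero_iff.2 fun k _ => form_ne_zero A k), ih, form_totalDegree,
      Finset.card_insert_of_notMem ha, add_comm]

/-- A factor of the equation is constant on every hyperplane. -/
theorem factor_const (N : ℕ) (G H : MvPolynomial (Fin n) ℚ) (hGH : A.eqn N = G * H)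
    (k : Fin D) : ∃ g : ℚ, form A k ∣ G - C g := by
  have h1 : rho A k G * rho A k H = -1 := by
    rw [← map_mul, ← hGH, rho_eqn A N k]
  have hu : IsUnit (rho A k G) := by
    apply IsUnit.of_mul_eq_one (-(rho A k H))
    rw [mul_neg, h1, neg_neg]
  rw [isUnit_iff_eq_C_of_isReduced] at hu
  obtain ⟨g, -, hg⟩ := hu
  refine ⟨g, ?_⟩
  rw [← hg]
  exact dvd_sub_rho A k G

theorem eval_eq_of_dvd (k : Fin D) (G : MvPolynomial (Fin n) ℚ) (g : ℚ)
    (h : form A k ∣ G - C g) (x : Fin n → ℚ) (hx : A.form k x = 0) : aeval x G = g := by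
  obtain ⟨f, hf⟩ := h
  have h1 := congrArg (aeval x) hf
  rw [map_sub, map_mul, aeval_form, hx, zero_mul] at h1
  have h4 : aeval x (C g : MvPolynomial (Fin n) ℚ) = g := by simp
  rw [h4] at h1
  exact sub_eq_zero.1 h1

/-- the normals are not proportional -/
def Ind (k k' : Fin D) : Prop := ∃ i j, A.a k i * A.a k' j - A.a k j * A.a k' i ≠ 0

theorem exists_common {k k' : Fin D} (h : Ind A k k') :
    ∃ x : Fin n → ℚ, A.form k x = 0 ∧ A.form k' x = 0 := by
  obtain ⟨i, j, hij⟩ := h
  have hne : i ≠ j := by
    rintro rfl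
    apply hij
    ring
  set Δ : ℚ := (A.a k i : ℚ) * A.a k' j - A.a k j * A.a k' i with hΔ
  have hΔ0 : Δ ≠ 0 := by
    rw [hΔ]
    exact_mod_cast hij
  set u : ℚ := (-(A.c k : ℚ) * A.a k' j + A.c k' * A.a k j) / Δ with hu
  set w : ℚ := (-(A.a k i : ℚ) * A.c k' + A.a k' i * A.c k) / Δ with hw
  set y : Fin n → ℚ := Function.update 0 i ((0 : Fin n → ℚ) i + u) with hy
  refine ⟨Function.update y j (y j + w), ?_, ?_⟩
  · rw [form_update, hy, form_update]
    have h0 : A.form k (0 : Fin n → ℚ) = A.c k := by simp [Arr.form]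
    rw [h0, hu, hw]
    field_simp
    rw [hΔ]
    ring
  · rw [form_update, hy, form_update]
    have h0 : A.form k' (0 : Fin n → ℚ) = A.c k' := by simp [Arr.form]
    rw [h0, hu, hw]
    field_simp
    rw [hΔ]
    ring

theorem exists_ind (hn : 2 ≤ n) (k : Fin D) : ∃ k', Ind A k k' := by
  classical
  by_contra hcon
  unfold Ind at hcon
  push Not at hcon
  obtain ⟨p, hp⟩ := A.spans
  apply hp
  obtain ⟨j1, hj1⟩ : ∃ j1 : Fin n, j1 ≠ piv A k := by
    have : Nontrivial (Fin n) := Fin.nontrivial_iff_two_le.mpr hn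
    exact _root_.exists_ne _
  rw [← Matrix.exists_mulVec_eq_zero_iff]
  refine ⟨fun l => if l = piv A k then A.a k j1 else if l = j1 then -A.a k (piv A k) else 0,
    ?_, ?_⟩
  · intro h0
    have := congrFun h0 j1
    simp only [hj1, if_false, if_true, Pi.zero_apply, neg_eq_zero] at this
    exact piv_ne A k this
  · funext l
    rw [Matrix.mulVec, dotProduct, Pi.zero_apply]
    have hsum : ∀ f : Fin n → ℤ, (∑ m, f m * (if m = piv A k then A.a k j1 else
        if m = j1 then -A.a k (piv A k) else 0)) =
        f (piv A k) * A.a k j1 - f j1 * A.a k (piv A k) := by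
      intro f
      rw [← Finset.add_sum_erase _ _ (Finset.mem_univ (piv A k)),
        ← Finset.add_sum_erase (Finset.univ.erase (piv A k)) _
          (Finset.mem_erase.mpr ⟨hj1, Finset.mem_univ j1⟩)]
      rw [Finset.sum_eq_zero]
      · simp [hj1]
        ring
      · intro m hm
        rw [Finset.mem_erase, Finset.mem_erase] at hm
        simp [hm.1, hm.2.1]
    rw [hsum]
    have := hcon (p l) j1 (piv A k)
    simp only [Matrix.of_apply]
    linarith

theorem const_eq (hn : 2 ≤ n) (N : ℕ) (G H : MvPolynomial (Fin n) ℚ) (hGH : A.eqn N = G * H) :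
    ∃ g : ℚ, ∀ k, form A k ∣ G - C g := by
  choose g hg using factor_const A N G H hGH
  have key : ∀ k k' : Fin D, Ind A k k' → g k = g k' := by
    intro k k' hk
    obtain ⟨x, hx1, hx2⟩ := exists_common A hk
    rw [← eval_eq_of_dvd A k G (g k) (hg k) x hx1, ← eval_eq_of_dvd A k' G (g k') (hg k') x hx2]
  have key2 : ∀ k k' : Fin D, g k = g k' := by
    intro k k'
    by_cases h : Ind A k k'
    · exact key k k' h
    · obtain ⟨k2, hk2⟩ := exists_ind A hn k
      rw [key k k2 hk2]
      symm
      apply key k' k2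
      unfold Ind at h
      push Not at h
      obtain ⟨i, j, hij⟩ := hk2
      refine ⟨i, j, fun h0 => ?_⟩
      have hp0 := piv_ne A k
      have hprop : ∀ l, A.a k (piv A k) * A.a k' l = A.a k' (piv A k) * A.a k l := by
        intro l
        have := h (piv A k) l
        linarith
      have hk'0 : A.a k' (piv A k) ≠ 0 := by
        intro h1
        have h2 := piv_ne A k'
        have h3 := hprop (piv A k')
        rw [h1, zero_mul] at h3
        rcases mul_eq_zero.mp h3 with h4 | h4
        · exact hp0 h4
        · exact h2 h4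
      have h5 : A.a k' (piv A k) * (A.a k i * A.a k2 j - A.a k j * A.a k2 i) = 0 := by
        have e1 := hprop i
        have e2 := hprop j
        calc A.a k' (piv A k) * (A.a k i * A.a k2 j - A.a k j * A.a k2 i)
            = (A.a k' (piv A k) * A.a k i) * A.a k2 j - (A.a k' (piv A k) * A.a k j) * A.a k2 i := by
              ring
          _ = A.a k (piv A k) * (A.a k' i * A.a k2 j - A.a k' j * A.a k2 i) := by
              rw [← e1, ← e2]; ring
          _ = 0 := by rw [h0, mul_zero]
      rcases mul_eq_zero.mp h5 with h6 | h6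
      · exact hk'0 h6
      · exact hij h6
  obtain ⟨p, -⟩ := A.spans
  refine ⟨g (p ⟨0, by omega⟩), fun k => ?_⟩
  rw [← key2 k]
  exact hg k

end Prm

open Prm in
theorem Arr.irreducible_eqn (hn : 2 ≤ n) (N : ℕ) (hN : 0 < N) : Irreducible (A.eqn N) := by
  obtain ⟨p, -⟩ := A.spans
  set k0 : Fin D := p ⟨0, by omega⟩ with hk0
  have hne : A.eqn N ≠ 0 := by
    intro h
    have := rho_eqn A N k0
    rw [h, map_zero] at this
    exact one_ne_zero (neg_eq_zero.1 this.symm)
  constructor
  · intro hu
    rw [isUnit_iff_eq_C_of_isReduced] at hu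
    obtain ⟨r, -, hr⟩ := hu
    have h1 := rho_eqn A N k0
    rw [hr, rho_C] at h1
    have h3 : r = -1 := by
      have : (C r : MvPolynomial (Fin n) ℚ) = C (-1) := by
        rw [h1]; simp
      exact C_injective _ _ this
    have h4 : (N : MvPolynomial (Fin n) ℚ) * ∏ k, Prm.form A k = 0 := by
      have : A.eqn N = C (-1) := by rw [hr, h3]
      rw [eqn_eq] at this
      simpa [sub_eq_iff_eq_add] using this
    rcases mul_eq_zero.1 h4 with h5 | h5
    · rw [Nat.cast_eq_zero] at h5
      omega
    · rw [Finset.prod_eq_zero_iff] at h5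
      obtain ⟨i, -, hi⟩ := h5
      exact Prm.form_ne_zero A _ hi
  · intro G H hGH
    have hG : G ≠ 0 := by
      rintro rfl
      rw [zero_mul] at hGH
      exact hne hGH
    have hH : H ≠ 0 := by
      rintro rfl
      rw [mul_zero] at hGH
      exact hne hGH
    obtain ⟨g, hg⟩ := const_eq A hn N G H hGH
    have hdvd : ∏ k, Prm.form A k ∣ G - C g :=
      Fintype.prod_dvd_of_isRelPrime (fun i j hij => isRelPrime_form A hij) hg
    by_cases h0 : G - C g = 0
    · left
      have : G = C g := sub_eq_zero.1 h0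
      exact isUnit_of_totalDegree_eq_zero hG (by rw [this, totalDegree_C])
    · right
      have h1 := totalDegree_le_of_dvd_of_isDomain hdvd h0
      rw [prod_totalDegree, Finset.card_univ, Fintype.card_fin] at h1
      have h2 := totalDegree_sub_C_le G g
      have h3 := eqn_totalDegree_le A N
      rw [hGH, totalDegree_mul_of_isDomain hG hH] at h3
      exact isUnit_of_totalDegree_eq_zero hH (by omega)

theorem Arr.isPrime {n D : ℕ} (A : Arr n D) (hn : 2 ≤ n) (N : ℕ) (hN : 0 < N) :
    (Ideal.span {A.eqn N}).IsPrime := by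
  have h := A.irreducible_eqn hn N hN
  rw [Ideal.span_singleton_prime h.ne_zero]
  exact h.prime

end P4a177s
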